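import Mathlib

/-!
The sign `(-1)^Ω(q^2+p^2)` on primitive vectors, adjacency, and the region lemma.
-/

namespace Pool.Agent.OddOmega

/-- the Liouville sign of a natural number -/
def lam (n : ℕ) : ℤ := (-1) ^ (ArithmeticFunction.cardFactors n)

/-- the sign of a lattice vector -/
def LL (q p : ℤ) : ℤ := lam (q ^ 2 + p ^ 2).natAbs

lemma lam_mul {m n : ℕ} (hm : m ≠ 0) (hn : n ≠ 0) : lam (m * n) = lam m * lam n := by
  unfold lam
  rw [ArithmeticFunction.cardFactors_mul hm hn, pow_add]

lemma lam_sq {m : ℕ} (hm : m ≠ 0) : lam (m * m) = 1 := by
  rw [lam_mul hm hm]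
  unfold lam
  rw [← pow_add, ← two_mul, pow_mul]
  simp

lemma lam_eq (n : ℕ) : lam n = 1 ∨ lam n = -1 := by
  unfold lam
  exact neg_one_pow_eq_or ℤ _

lemma LL_eq (q p : ℤ) : LL q p = 1 ∨ LL q p = -1 := lam_eq _

lemma sq_ne {q p : ℤ} (h : q ≠ 0 ∨ p ≠ 0) : q ^ 2 + p ^ 2 ≠ 0 := by
  rcases h with h | h
  · have : 0 < q ^ 2 := by positivity
    positivity
  · have : 0 < p ^ 2 := by positivity
    positivity

/-- multiplicativity under Gaussian multiplication -/
lemma LL_mul {a b q p : ℤ} (h1 : a ≠ 0 ∨ b ≠ 0) (h2 : q ≠ 0 ∨ p ≠ 0) :
    LL (a * q - b * p) (b * q + a * p) = LL a b * LL q p := by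
  unfold LL
  rw [← lam_mul (Int.natAbs_ne_zero.mpr (sq_ne h1)) (Int.natAbs_ne_zero.mpr (sq_ne h2)),
    ← Int.natAbs_mul]
  congr 2
  ring

lemma LL_smul {k q p : ℤ} (hk : k ≠ 0) (h2 : q ≠ 0 ∨ p ≠ 0) :
    LL (k * q) (k * p) = LL q p := by
  have h := LL_mul (a := k) (b := 0) (Or.inl hk) h2
  simp only [zero_mul, sub_zero, zero_add] at h
  rw [h]
  have h1 : LL k 0 = 1 := by
    unfold LL
    have : (k ^ 2 + 0 ^ 2).natAbs = k.natAbs * k.natAbs := by
      rw [← Int.natAbs_mul]
      congr 1
      ring
    rw [this]
    exact lam_sq (Int.natAbs_ne_zero.mpr hk)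
  rw [h1, one_mul]

lemma LL_neg (q p : ℤ) : LL (-q) (-p) = LL q p := by
  unfold LL
  congr 2
  ring

/-- adjacent vectors: the product of the signs is the sign of `n^2+1` -/
lemma LL_edge {q p q' p' : ℤ} (h : |q * p' - q' * p| = 1) :
    LL q p * LL q' p' = lam ((q * q' + p * p') ^ 2 + 1).natAbs := by
  have h1 : (q * p' - q' * p) ^ 2 = 1 := by
    rw [← sq_abs, h]
    norm_num
  have hz : q ≠ 0 ∨ p ≠ 0 := by
    by_contra hc
    push Not at hc
    rw [hc.1, hc.2] at h1
    simp at h1
  have hz' : q' ≠ 0 ∨ p' ≠ 0 := by
    by_contra hc
    push Not at hc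
    rw [hc.1, hc.2] at h1
    simp at h1
  unfold LL
  rw [← lam_mul (Int.natAbs_ne_zero.mpr (sq_ne hz)) (Int.natAbs_ne_zero.mpr (sq_ne hz')),
    ← Int.natAbs_mul]
  congr 2
  linear_combination h1

/-- the region of vectors of height at most `T` at distance at most `V` from the line of slope
`x` -/
def Reg (x T V : ℝ) (q p : ℤ) : Prop := 0 < q ∧ (q : ℝ) ≤ T ∧ |(q : ℝ) * x - p| ≤ V

/-- If `LL` agrees on adjacent vectors of a region, then it is constant on the region. -/
theorem region_const {x T V : ℝ}
    (h : ∀ q p q' p' : ℤ, Reg x T V q p → Reg x T V q' p' → |q * p' - q' * p| = 1 →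
      LL q p = LL q' p') :
    ∀ q p q' p' : ℤ, Reg x T V q p → Reg x T V q' p' → LL q p = LL q' p' := by
  have key : ∀ t : ℕ, ∀ q p q' p' : ℤ, Reg x T V q p → Reg x T V q' p' →
      (q * p' - q' * p).natAbs = t → LL q p = LL q' p' := by
    intro t
    induction t using Nat.strong_induction_on with
    | _ t ih =>
      intro q p q' p' hz hz' hdet
      obtain ⟨hq, hqT, hqV⟩ := hz
      obtain ⟨hq', hqT', hqV'⟩ := hz'
      rcases Nat.eq_zero_or_pos t with ht0 | htpos
      · -- parallel vectors
        rw [ht0, Int.natAbs_eq_zero] at hdet
        have h1 : LL (q' * q) (q' * p) = LL q p := LL_smul hq'.ne' (Or.inl hq.ne')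
        have h2 : LL (q * q') (q * p') = LL q' p' := LL_smul hq.ne' (Or.inl hq'.ne')
        rw [← h1, ← h2]
        have h3 : q' * q = q * q' := by ring
        have h4 : q' * p = q * p' := by linarith
        rw [h3, h4]
      · -- reduce to a primitive first vector
        set g : ℤ := (Int.gcd q p : ℤ) with hg
        have hgpos : 0 < g := by
          rw [hg]
          exact_mod_cast Int.gcd_pos_of_ne_zero_left p hq.ne'
        obtain ⟨u, hu⟩ : g ∣ q := Int.gcd_dvd_left q p
        obtain ⟨v, hv⟩ : g ∣ p := Int.gcd_dvd_right q p
        by_cases hg1 : g = 1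
        · -- primitive
          rw [hg] at hg1
          have hg1' : Int.gcd q p = 1 := by exact_mod_cast hg1
          -- Bezout
          have hbez := Int.gcd_eq_gcd_ab q p
          rw [hg1'] at hbez
          set v0 : ℤ := Int.gcdA q p with hv0
          set u0 : ℤ := -Int.gcdB q p with hu0
          have hb : q * v0 - p * u0 = 1 := by
            rw [hu0]
            push_cast at hbez
            linarith
          set D : ℤ := q * p' - q' * p with hD
          set a : ℤ := q' * v0 - p' * u0 with ha
          have e1 : q' = a * q + D * u0 := by
            rw [ha, hD]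
            linear_combination (-q') * hb
          have e2 : p' = a * p + D * v0 := by
            rw [ha, hD]
            linear_combination (-p') * hb
          have htD : (t : ℤ) = |D| := by
            rw [← hdet]
            exact Int.natCast_natAbs D
          have htpos' : (0 : ℤ) < t := by exact_mod_cast htpos
          set α : ℤ := (-a) % t with hα
          have hα0 : 0 ≤ α := Int.emod_nonneg _ htpos'.ne'
          have hαt : α < t := Int.emod_lt_of_pos _ htpos'
          obtain ⟨k, hk⟩ : (t : ℤ) ∣ α + a := by
            have : α = -a - t * ((-a) / t) := by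
              rw [hα]
              have := Int.emod_add_mul_ediv (-a) t
              linarith
            exact ⟨-((-a) / t), by rw [this]; ring⟩
          -- D = s * t with s = ±1
          obtain ⟨s, hs, hDs⟩ : ∃ s : ℤ, (s = 1 ∨ s = -1) ∧ D = s * t := by
            rcases le_total 0 D with h0 | h0
            · exact ⟨1, Or.inl rfl, by rw [htD, abs_of_nonneg h0]; ring⟩
            · exact ⟨-1, Or.inr rfl, by rw [htD, abs_of_nonpos h0]; ring⟩
          set y1 : ℤ := k * q + s * u0 with hy1
          set y2 : ℤ := k * p + s * v0 with hy2
          have f1 : (t : ℤ) * y1 = α * q + q' := by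
            rw [hy1]
            have : α = t * k - a := by linarith
            rw [this]
            linear_combination (-1) * e1 + (-u0) * hDs
          have f2 : (t : ℤ) * y2 = α * p + p' := by
            rw [hy2]
            have : α = t * k - a := by linarith
            rw [this]
            linear_combination (-1) * e2 + (-v0) * hDs
          have htR : (0 : ℝ) < t := by exact_mod_cast htpos
          have hαR : (0 : ℝ) ≤ α := by exact_mod_cast hα0
          have hαtR : (α : ℝ) + 1 ≤ t := by
            have : α + 1 ≤ (t : ℤ) := hαt
            exact_mod_cast this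
          have f1R : (t : ℝ) * y1 = α * q + q' := by exact_mod_cast f1
          have f2R : (t : ℝ) * y2 = α * p + p' := by exact_mod_cast f2
          have hqR : (0 : ℝ) < q := by exact_mod_cast hq
          have hqR' : (0 : ℝ) < q' := by exact_mod_cast hq'
          have hy1pos : 0 < y1 := by
            have : (0 : ℝ) < t * y1 := by
              rw [f1R]
              positivity
            have h5 : (0 : ℝ) < y1 := by
              by_contra hc
              push Not at hc
              nlinarith
            exact_mod_cast h5
          have hRy : Reg x T V y1 y2 := by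
            refine ⟨hy1pos, ?_, ?_⟩
            · have h5 : (t : ℝ) * y1 ≤ t * T := by
                rw [f1R]
                have : (0 : ℝ) ≤ T := hqR.le.trans hqT
                nlinarith
              exact le_of_mul_le_mul_left h5 htR
            · have h5 : (t : ℝ) * |(y1 : ℝ) * x - y2| ≤ t * V := by
                rw [← abs_of_pos htR, ← abs_mul]
                have : (|(t : ℝ)|) * ((y1 : ℝ) * x - y2) = α * (q * x - p) + (q' * x - p') := by
                  rw [abs_of_pos htR]
                  linear_combination x * f1R - f2R
                have h6 : (t : ℝ) * ((y1 : ℝ) * x - y2) = α * (q * x - p) + (q' * x - p') := by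
                  linear_combination x * f1R - f2R
                rw [h6]
                refine (abs_add_le _ _).trans ?_
                rw [abs_mul, abs_of_nonneg hαR, abs_of_pos htR]
                have hV : 0 ≤ V := (abs_nonneg _).trans hqV
                nlinarith
              exact le_of_mul_le_mul_left h5 htR
          have hdet1 : q * y2 - y1 * p = s := by
            rw [hy1, hy2]
            linear_combination s * hb
          have hadj : |q * y2 - y1 * p| = 1 := by
            rw [hdet1]
            rcases hs with hs | hs <;> rw [hs] <;> norm_num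
          have g1 : LL q p = LL y1 y2 := h q p y1 y2 ⟨hq, hqT, hqV⟩ hRy hadj
          have hdet2 : y1 * p' - q' * y2 = α * s := by
            have h7 : (t : ℤ) * (y1 * p' - q' * y2) = t * (α * s) := by
              have : (t : ℤ) * (y1 * p' - q' * y2) = (t * y1) * p' - q' * (t * y2) := by ring
              rw [this, f1, f2]
              have : (α * q + q') * p' - q' * (α * p + p') = α * D := by
                rw [hD]; ring
              rw [this, hDs]
              ring
            exact mul_left_cancel₀ htpos'.ne' h7
          have g2 : LL y1 y2 = LL q' p' := by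
            refine ih α.natAbs ?_ y1 y2 q' p' hRy ⟨hq', hqT', hqV'⟩ ?_
            · zify
              rw [abs_of_nonneg hα0]
              exact hαt
            · rw [hdet2, Int.natAbs_mul]
              rcases hs with hs | hs <;> rw [hs] <;> simp
          rw [g1, g2]
        · -- non primitive: divide
          have hg2 : 2 ≤ g := by omega
          have hupos : 0 < u := by
            by_contra hc
            push Not at hc
            nlinarith
          have hgR : (1 : ℝ) ≤ g := by exact_mod_cast hgpos
          have hRu : Reg x T V u v := by
            refine ⟨hupos, ?_, ?_⟩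
            · have h5 : (q : ℝ) = g * u := by exact_mod_cast hu
              have h6 : (0 : ℝ) < u := by exact_mod_cast hupos
              nlinarith
            · have h5 : (q : ℝ) = g * u := by exact_mod_cast hu
              have h6 : (p : ℝ) = g * v := by exact_mod_cast hv
              have h7 : (q : ℝ) * x - p = g * (u * x - v) := by
                rw [h5, h6]; ring
              rw [h7, abs_mul, abs_of_pos (by linarith : (0 : ℝ) < g)] at hqV
              nlinarith [abs_nonneg ((u : ℝ) * x - v)]
          have e0 : LL q p = LL u v := by
            rw [hu, hv]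
            exact LL_smul hgpos.ne' (Or.inl hupos.ne')
          have hdet' : t = g.natAbs * (u * p' - q' * v).natAbs := by
            rw [← hdet, ← Int.natAbs_mul]
            congr 1
            rw [hu, hv]
            ring
          have hlt : (u * p' - q' * v).natAbs < t := by
            rw [hdet']
            have h8 : 2 ≤ g.natAbs := by omega
            have h9 : 0 < (u * p' - q' * v).natAbs := by
              by_contra hc
              push Not at hc
              have : (u * p' - q' * v).natAbs = 0 := by omega
              rw [this, mul_zero] at hdet'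
              omega
            nlinarith
          rw [e0]
          exact ih _ hlt u v q' p' hRu ⟨hq', hqT', hqV'⟩ rfl
  intro q p q' p' h1 h2
  exact key _ q p q' p' h1 h2 rfl

/-- Dirichlet: the region with `V = 1/(T+1)` is nonempty -/
lemma dirichlet (x : ℝ) {n : ℕ} (hn : 0 < n) : ∃ q p : ℤ, Reg x n (1 / (n + 1)) q p := by
  obtain ⟨j, k, hk, hkn, h⟩ := Real.exists_int_int_abs_mul_sub_le x hn
  exact ⟨k, j, hk, by exact_mod_cast hkn, h⟩

end Pool.Agent.OddOmega
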