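import Mathlib
import Pool.Agent.Lib_MP_f1a94e_h8.Conn

/-!
If the bad edges are summable, then for almost every slope the sign is eventually constant near
the line of this slope.
-/

namespace Pool.Agent.OddOmega

open MeasureTheory Filter

/-- bad edges: adjacent vectors with different signs, the second one not shorter -/
abbrev BE : Type := {e : (ℤ × ℤ) × (ℤ × ℤ) // |e.1.1 * e.2.2 - e.2.1 * e.1.2| = 1 ∧
  e.1.1 ^ 2 + e.1.2 ^ 2 ≤ e.2.1 ^ 2 + e.2.2 ^ 2 ∧ LL e.1.1 e.1.2 ≠ LL e.2.1 e.2.2}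

/-- the weight of an edge -/
noncomputable def wt (e : BE) : ℝ := 1 / ((e.1.2.1 : ℝ) ^ 2 + (e.1.2.2 : ℝ) ^ 2)

/-- the slope `x` is good -/
def GoodAt (x : ℝ) : Prop := ∀ K : ℕ, ∃ T0 : ℕ, ∀ T : ℕ, T0 ≤ T → ∀ q p q' p' : ℤ,
  Reg x T (K / T) q p → Reg x T (K / T) q' p' → |q * p' - q' * p| = 1 → LL q p = LL q' p'

/-- the slopes affected by a bad edge -/
def SS (M K : ℕ) (e : BE) : Set ℝ :=
  {x : ℝ | |x| ≤ M ∧ 0 < e.1.2.1 ∧ |(e.1.2.1 : ℝ) * x - e.1.2.2| * e.1.2.1 ≤ K}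

lemma volume_SS (M K : ℕ) (e : BE) :
    volume (SS M K e) ≤ ENNReal.ofReal (2 * K * (1 + ((M : ℝ) + K) ^ 2) * wt e) := by
  rcases Set.eq_empty_or_nonempty (SS M K e) with h | ⟨x0, h0⟩
  · rw [h]
    simp
  · obtain ⟨hx0, hq, hx1⟩ := h0
    set q : ℝ := (e.1.2.1 : ℝ) with hqdef
    set p : ℝ := (e.1.2.2 : ℝ) with hpdef
    have hq1 : (1 : ℝ) ≤ q := by
      rw [hqdef]
      exact_mod_cast hq
    have hq0 : 0 < q := by linarith
    have hM : (0 : ℝ) ≤ M := Nat.cast_nonneg M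
    have hK : (0 : ℝ) ≤ K := Nat.cast_nonneg K
    have hp : |p| ≤ (M + K) * q := by
      have h1 : |q * x0 - p| ≤ K := by
        nlinarith [abs_nonneg (q * x0 - p)]
      have h2 : |p| ≤ |q * x0| + |q * x0 - p| := by
        have := abs_sub_abs_le_abs_sub p (q * x0)
        rw [abs_sub_comm] at this
        linarith
      rw [abs_mul, abs_of_pos hq0] at h2
      nlinarith
    have hN : q ^ 2 + p ^ 2 ≤ (1 + ((M : ℝ) + K) ^ 2) * q ^ 2 := by
      have : p ^ 2 ≤ ((M + K) * q) ^ 2 := by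
        rw [← sq_abs p]
        exact pow_le_pow_left₀ (abs_nonneg _) hp 2
      nlinarith
    have hsub : SS M K e ⊆ Metric.closedBall (p / q) (K / q ^ 2) := by
      rintro x ⟨-, -, hx⟩
      rw [Metric.mem_closedBall, Real.dist_eq]
      have h1 : x - p / q = (q * x - p) / q := by
        field_simp
      rw [h1, abs_div, abs_of_pos hq0, div_le_div_iff₀ hq0 (by positivity)]
      calc |q * x - p| * q ^ 2 = (|q * x - p| * q) * q := by ring
        _ ≤ K * q := mul_le_mul_of_nonneg_right hx hq0.le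
    refine (measure_mono hsub).trans ?_
    rw [Real.volume_closedBall]
    apply ENNReal.ofReal_le_ofReal
    have hw : wt e = 1 / (q ^ 2 + p ^ 2) := rfl
    rw [hw]
    have h3 : (0 : ℝ) < q ^ 2 + p ^ 2 := by positivity
    rw [mul_one_div, ← mul_div_assoc, div_le_div_iff₀ (by positivity) h3]
    nlinarith [mul_le_mul_of_nonneg_left hN (by positivity : (0 : ℝ) ≤ 2 * K)]

theorem ae_good (h : Summable wt) : ∀ᵐ x : ℝ, GoodAt x := by
  have h1 : ∀ M K : ℕ, ∀ᵐ x : ℝ, {e : BE | x ∈ SS M K e}.Finite := by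
    intro M K
    apply ae_finite_setOfPred_mem
    have h2 : Summable fun e : BE => 2 * K * (1 + ((M : ℝ) + K) ^ 2) * wt e := h.mul_left _
    exact ne_top_of_le_ne_top h2.tsum_ofReal_ne_top
      (ENNReal.tsum_le_tsum fun e => volume_SS M K e)
  have h2 : ∀ᵐ x : ℝ, ∀ M K : ℕ, {e : BE | x ∈ SS M K e}.Finite := by
    rw [ae_all_iff]
    intro M
    rw [ae_all_iff]
    exact h1 M
  have h3 : ∀ᵐ x : ℝ, Irrational x := by
    have := (Set.countable_range (fun q : ℚ => (q : ℝ))).ae_notMem volume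
    filter_upwards [this] with x hx
    exact hx
  filter_upwards [h2, h3] with x hx hirr
  intro K
  obtain ⟨M, hM⟩ := exists_nat_ge |x|
  have hfin := hx M K
  -- for each edge in the finite set, a threshold
  have hT : ∀ e : BE, ∃ T : ℕ, 0 < e.1.2.1 → ∀ T' : ℕ, T ≤ T' →
      (K : ℝ) / T' < |(e.1.2.1 : ℝ) * x - e.1.2.2| := by
    intro e
    by_cases hq : 0 < e.1.2.1
    · have hne : (0 : ℝ) < |(e.1.2.1 : ℝ) * x - e.1.2.2| := by
        rw [abs_pos]
        intro h0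
        apply hirr
        refine ⟨(e.1.2.2 : ℚ) / (e.1.2.1 : ℚ), ?_⟩
        have hq' : (e.1.2.1 : ℝ) ≠ 0 := by exact_mod_cast hq.ne'
        push_cast
        rw [div_eq_iff hq']
        linarith
      have hlim : Tendsto (fun T : ℕ => (K : ℝ) / T) atTop (nhds 0) :=
        tendsto_const_div_atTop_nhds_zero_nat _
      obtain ⟨T, hT⟩ := eventually_atTop.mp (hlim.eventually_lt_const hne)
      exact ⟨T, fun _ T' hT' => hT T' hT'⟩
    · exact ⟨0, fun h => absurd h hq⟩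
  choose Te hTe using hT
  refine ⟨(hfin.toFinset.sup Te) + 1, ?_⟩
  intro T hT0 q p q' p' hz hz' hadj
  by_contra hne
  have hTpos : (0 : ℝ) < T := by
    have : 1 ≤ T := by omega
    exact_mod_cast this
  -- the main step for an ordered pair
  have main : ∀ q p q' p' : ℤ, Reg x T (K / T) q' p' → |q * p' - q' * p| = 1 →
      LL q p ≠ LL q' p' → q ^ 2 + p ^ 2 ≤ q' ^ 2 + p' ^ 2 → False := by
    intro q p q' p' hz' hadj hne hle
    let e : BE := ⟨((q, p), (q', p')), hadj, hle, hne⟩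
    obtain ⟨h5, h6, h7⟩ := hz'
    have hq'R : (0 : ℝ) < q' := by exact_mod_cast h5
    have hmem : e ∈ {e : BE | x ∈ SS M K e} := by
      refine ⟨hM, h5, ?_⟩
      change |(q' : ℝ) * x - p'| * q' ≤ K
      calc |(q' : ℝ) * x - p'| * q' ≤ (K / T) * T :=
            mul_le_mul h7 h6 hq'R.le ((abs_nonneg _).trans h7)
        _ = K := by field_simp
    have h8 : Te e ≤ T := by
      have : Te e ≤ hfin.toFinset.sup Te := Finset.le_sup (hfin.mem_toFinset.mpr hmem)
      omega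
    exact absurd h7 (not_le.mpr (hTe e h5 T h8))
  rcases le_total (q ^ 2 + p ^ 2) (q' ^ 2 + p' ^ 2) with hle | hle
  · exact main q p q' p' hz' hadj hne hle
  · refine main q' p' q p hz ?_ (Ne.symm hne) hle
    rw [← hadj, ← abs_neg]
    congr 1
    ring

/-- the sign at a good slope is `1` -/
def Pos (x : ℝ) : Prop := ∃ T0 : ℕ, ∀ T : ℕ, T0 ≤ T → ∀ q p : ℤ, Reg x T (1 / T) q p → LL q p = 1

open Classical in
/-- the limit sign -/
noncomputable def FF (x : ℝ) : ℤ := if Pos x then 1 else -1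

lemma FF_eq (x : ℝ) : FF x = 1 ∨ FF x = -1 := by
  unfold FF
  split_ifs <;> simp

theorem good_limit {x : ℝ} (h : GoodAt x) (K : ℕ) (hK : 1 ≤ K) : ∃ T0 : ℕ, ∀ T : ℕ, T0 ≤ T →
    ∀ q p : ℤ, Reg x T (K / T) q p → LL q p = FF x := by
  obtain ⟨T1, hT1⟩ := h K
  set T0 : ℕ := T1 + 1 with hT0
  have hKR : (1 : ℝ) ≤ K := by exact_mod_cast hK
  -- constant on each region
  have hc : ∀ T : ℕ, T0 ≤ T → ∀ q p q' p' : ℤ, Reg x T (K / T) q p → Reg x T (K / T) q' p' →
      LL q p = LL q' p' := by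
    intro T hT
    exact region_const (hT1 T (by omega))
  -- nonempty
  have hd : ∀ T : ℕ, T0 ≤ T → ∃ q p : ℤ, Reg x T (1 / T) q p ∧ Reg x (T + 1 : ℕ) (1 / (T + 1 : ℕ)) q p := by
    intro T hT
    have hTpos : 0 < T := by omega
    have hTR : (0 : ℝ) < T := by exact_mod_cast hTpos
    obtain ⟨q, p, h1, h2, h3⟩ := dirichlet x hTpos
    refine ⟨q, p, ⟨h1, h2, h3.trans ?_⟩, ⟨h1, ?_, ?_⟩⟩
    · gcongr
      linarith
    · push_cast
      linarith
    · push_cast
      exact h3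
  have hmono : ∀ T : ℕ, T0 ≤ T → ∀ q p : ℤ, Reg x T (1 / T) q p → Reg x T (K / T) q p := by
    intro T hT q p ⟨h1, h2, h3⟩
    refine ⟨h1, h2, h3.trans ?_⟩
    gcongr
  obtain ⟨q0, p0, hz0, -⟩ := hd T0 le_rfl
  -- all regions have the sign of the first one
  have hall : ∀ T : ℕ, T0 ≤ T → ∀ q p : ℤ, Reg x T (K / T) q p → LL q p = LL q0 p0 := by
    intro T hT
    induction T, hT using Nat.le_induction with
    | base =>
      intro q p hz
      exact hc T0 le_rfl q p q0 p0 hz (hmono T0 le_rfl _ _ hz0)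
    | succ T hT ih =>
      intro q p hz
      obtain ⟨q1, p1, h1, h2⟩ := hd T hT
      rw [hc (T + 1) (by omega) q p q1 p1 hz (hmono (T + 1) (by omega) _ _ h2)]
      exact ih q1 p1 (hmono T hT _ _ h1)
  have hFF : FF x = LL q0 p0 := by
    rcases LL_eq q0 p0 with h1 | h1
    · have hp : Pos x := ⟨T0, fun T hT q p hz => by rw [hall T hT q p (hmono T hT _ _ hz), h1]⟩
      unfold FF
      rw [if_pos hp, h1]
    · have hp : ¬ Pos x := by
        rintro ⟨T2, hT2⟩
        obtain ⟨q1, p1, h2, -⟩ := hd (max T0 T2) (le_max_left _ _)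
        have h3 := hT2 _ (le_max_right T0 T2) q1 p1 h2
        rw [hall _ (le_max_left T0 T2) q1 p1 (hmono _ (le_max_left _ _) _ _ h2), h1] at h3
        norm_num at h3
      unfold FF
      rw [if_neg hp, h1]
  exact ⟨T0, fun T hT q p hz => by rw [hall T hT q p hz, hFF]⟩

/-- rotation by a Gaussian integer -/
theorem rot {a b : ℤ} (hab : a ≠ 0 ∨ b ≠ 0) {x : ℝ} (hx : GoodAt x) (hne : (a : ℝ) - b * x ≠ 0)
    (hx' : GoodAt ((b + a * x) / (a - b * x))) :
    FF ((b + a * x) / (a - b * x)) = LL a b * FF x := by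
  set x' : ℝ := (b + a * x) / (a - b * x) with hx'def
  set c : ℝ := |(a : ℝ) - b * x| with hc
  have hcpos : 0 < c := abs_pos.mpr hne
  set N : ℝ := (a : ℝ) ^ 2 + (b : ℝ) ^ 2 with hN
  have hNpos : 0 < N := by
    rcases hab with h | h
    · have : (a : ℝ) ≠ 0 := by exact_mod_cast h
      positivity
    · have : (b : ℝ) ≠ 0 := by exact_mod_cast h
      positivity
  obtain ⟨C1, hC1⟩ := exists_nat_ge (c + |(b : ℝ)|)
  have hC1pos : (0 : ℝ) < C1 := lt_of_lt_of_le (by positivity) hC1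
  obtain ⟨K0, hK0⟩ := exists_nat_ge (N * C1 / c)
  set K : ℕ := K0 + 1 with hK
  obtain ⟨T1, hT1⟩ := good_limit hx 1 le_rfl
  obtain ⟨T2, hT2⟩ := good_limit hx' K (by omega)
  obtain ⟨T3, hT3⟩ := exists_nat_gt (|(b : ℝ)| / c)
  set T : ℕ := T1 + T2 + T3 + 1 with hT
  have hTpos : 0 < T := by omega
  have hTR : (1 : ℝ) ≤ T := by exact_mod_cast hTpos
  obtain ⟨q, p, h1, h2, h3⟩ := dirichlet x hTpos
  have hz : Reg x T ((1 : ℕ) / T) q p := by
    refine ⟨h1, h2, h3.trans ?_⟩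
    push_cast
    gcongr
    linarith
  have e1 := hT1 T (by omega) q p hz
  set q1 : ℤ := a * q - b * p with hq1
  set p1 : ℤ := b * q + a * p with hp1
  have e2 : LL q1 p1 = LL a b * LL q p := LL_mul hab (Or.inl h1.ne')
  have hqR : (1 : ℝ) ≤ q := by exact_mod_cast h1
  set v : ℝ := (q : ℝ) * x - p with hv
  have hv1 : |v| ≤ 1 / (T + 1) := h3
  have hv2 : |v| ≤ 1 / T := h3.trans (by gcongr; linarith)
  have hq1R : (q1 : ℝ) = q * (a - b * x) + b * v := by
    rw [hq1, hv]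
    push_cast
    ring
  have hv' : (q1 : ℝ) * x' - p1 = N * v / (a - b * x) := by
    rw [hx'def, hN, hv, hq1, hp1]
    push_cast
    field_simp
    ring
  have hbv : |(b : ℝ) * v| ≤ |(b : ℝ)| / T := by
    rw [abs_mul, div_eq_mul_one_div]
    exact mul_le_mul_of_nonneg_left hv2 (abs_nonneg _)
  have hbT : |(b : ℝ)| / T < c := by
    have h5 : (T3 : ℝ) ≤ T := by exact_mod_cast (by omega : T3 ≤ T)
    rw [div_lt_iff₀ (by linarith)]
    have h6 : |(b : ℝ)| < T3 * c := by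
      rwa [div_lt_iff₀ hcpos] at hT3
    nlinarith
  have hq1ne : q1 ≠ 0 := by
    intro h0
    have h5 : (q : ℝ) * (a - b * x) = -(b * v) := by
      have : (q1 : ℝ) = 0 := by exact_mod_cast h0
      rw [this] at hq1R
      linarith
    have h6 : (q : ℝ) * c = |(b : ℝ) * v| := by
      have h7 : |(q : ℝ) * (a - b * x)| = q * c := by
        rw [abs_mul, abs_of_pos (by linarith : (0 : ℝ) < q), ← hc]
      rw [← h7, h5, abs_neg]
    nlinarith
  set T' : ℕ := C1 * T with hT'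
  have hT'2 : T2 ≤ T' := by
    have h5 : 1 ≤ C1 := by exact_mod_cast hC1pos
    rw [hT']
    nlinarith
  have hT'R : (T' : ℝ) = C1 * T := by rw [hT']; push_cast; ring
  have habs : |(q1 : ℝ)| ≤ T' := by
    rw [hq1R, hT'R]
    refine (abs_add_le _ _).trans ?_
    rw [abs_mul, abs_of_pos (by linarith : (0 : ℝ) < q), ← hc]
    have h5 : |(b : ℝ) * v| ≤ |(b : ℝ)| * T := by
      refine hbv.trans ?_
      rw [div_le_iff₀ (by linarith)]
      nlinarith [abs_nonneg (b : ℝ), mul_nonneg (abs_nonneg (b : ℝ)) (by nlinarith : (0 : ℝ) ≤ T * T - 1)]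
    nlinarith
  have hv'le : |(q1 : ℝ) * x' - p1| ≤ (K : ℕ) / T' := by
    rw [hv', abs_div, ← hc, abs_mul, abs_of_pos hNpos, hT'R, div_le_div_iff₀ hcpos (by positivity)]
    have h5 : N * C1 ≤ K * c := by
      have : N * C1 / c ≤ K := hK0.trans (by rw [hK]; push_cast; linarith)
      rwa [div_le_iff₀ hcpos] at this
    have h6 : |v| * T ≤ 1 := by
      rw [le_div_iff₀ (by linarith)] at hv2
      exact hv2
    calc N * |v| * (C1 * T) = (N * C1) * (|v| * T) := by ring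
      _ ≤ (N * C1) * 1 := mul_le_mul_of_nonneg_left h6 (by positivity)
      _ ≤ K * c := by linarith
  have e3 : LL q1 p1 = FF x' := by
    rcases lt_or_gt_of_ne hq1ne with hneg | hpos
    · rw [← LL_neg]
      refine hT2 T' hT'2 (-q1) (-p1) ⟨by omega, ?_, ?_⟩
      · push_cast
        exact (neg_le_abs _).trans habs
      · push_cast
        rw [show (-(q1 : ℝ)) * x' - -(p1 : ℝ) = -((q1 : ℝ) * x' - p1) by ring, abs_neg]
        exact hv'le
    · refine hT2 T' hT'2 q1 p1 ⟨hpos, ?_, hv'le⟩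
      exact (le_abs_self _).trans habs
  rw [← e3, e2, e1]

end Pool.Agent.OddOmega
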