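import Mathlib
import Pool.Agent.Lib_MP_f1a94e_h8.Limit

/-!
Ergodicity of an irrational rotation contradicts the existence of the limit sign.
-/

namespace Pool.Agent.OddOmega

open MeasureTheory Filter

/-- the tangent as a function on the circle of length `π` -/
noncomputable def tanC : AddCircle Real.pi → ℝ := Real.tan_periodic.lift

lemma tanC_coe (θ : ℝ) : tanC (θ : AddCircle Real.pi) = Real.tan θ := rfl

lemma measurable_tan' : Measurable Real.tan := by
  have : Real.tan = fun x => Real.sin x / Real.cos x := by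
    funext x
    exact Real.tan_eq_sin_div_cos x
  rw [this]
  exact Real.measurable_sin.div Real.measurable_cos

lemma measurable_tanC : Measurable tanC := by
  unfold tanC
  exact QuotientAddGroup.measurable_from_quotient.mpr measurable_tan'

lemma tan_null {N : Set ℝ} (hN : volume N = 0) :
    ∀ᵐ θ ∂(volume.restrict (Set.Ioc (-(Real.pi / 2)) (-(Real.pi / 2) + Real.pi))), Real.tan θ ∉ N := by
  have h1 : volume (Real.arctan '' N) = 0 :=
    addHaar_image_eq_zero_of_differentiableOn_of_addHaar_eq_zero volume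
      (Real.differentiable_arctan.differentiableOn) hN
  rw [ae_restrict_iff' measurableSet_Ioc, ae_iff]
  refine measure_mono_null (t := Real.arctan '' N ∪ {Real.pi / 2}) ?_ ?_
  · intro θ hθ
    simp only [Set.mem_ofPred_eq, Classical.not_imp, not_not] at hθ
    obtain ⟨⟨h2, h3⟩, h4⟩ := hθ
    rcases eq_or_lt_of_le h3 with h5 | h5
    · right
      rw [Set.mem_singleton_iff, h5]
      ring
    · left
      exact ⟨Real.tan θ, h4, Real.arctan_tan h2 (by linarith)⟩
  · rw [measure_union_null_iff]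
    exact ⟨h1, Real.volume_singleton⟩

local instance piPos : Fact (0 < Real.pi) := ⟨Real.pi_pos⟩

lemma ae_tanC {P : ℝ → Prop} (h : ∀ᵐ x, P x) : ∀ᵐ t : AddCircle Real.pi, P (tanC t) := by
  set N : Set ℝ := toMeasurable volume {x | ¬ P x} with hN
  have hN0 : volume N = 0 := by
    rw [hN, measure_toMeasurable]
    exact h
  have hNm : MeasurableSet N := measurableSet_toMeasurable _ _
  have h1 : ∀ᵐ t : AddCircle Real.pi, tanC t ∉ N := by
    have hmp := AddCircle.measurePreserving_mk Real.pi (-(Real.pi / 2))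
    rw [← hmp.map_eq, ae_map_iff hmp.measurable.aemeasurable]
    · have := tan_null hN0
      exact this
    · exact (measurable_tanC hNm).compl
  filter_upwards [h1] with t ht
  by_contra hc
  exact ht (subset_toMeasurable volume {x | ¬ P x} hc)

lemma ae_ne (c : AddCircle Real.pi) : ∀ᵐ t : AddCircle Real.pi, t ≠ c := by
  have : volume ({c} : Set (AddCircle Real.pi)) = 0 := by
    have h := AddCircle.volume_closedBall (T := Real.pi) (x := c) 0
    rw [Metric.closedBall_zero] at h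
    rw [h]
    simp
  rw [ae_iff]
  simpa using this

lemma cos_ne_zero_of_ne {θ : ℝ} (h : (θ : AddCircle Real.pi) ≠ ((Real.pi / 2 : ℝ) : AddCircle Real.pi)) :
    Real.cos θ ≠ 0 := by
  intro h0
  rw [Real.cos_eq_zero_iff] at h0
  obtain ⟨k, hk⟩ := h0
  apply h
  rw [← sub_eq_zero, ← AddCircle.coe_sub, AddCircle.coe_eq_zero_iff]
  refine ⟨k, ?_⟩
  rw [hk, zsmul_eq_mul]
  ring

lemma tan_rot {a b : ℤ} (ha : 0 < a) {θ : ℝ} (h1 : Real.cos θ ≠ 0)
    (h2 : Real.cos (θ + Real.arctan (b / a)) ≠ 0) :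
    (a : ℝ) - b * Real.tan θ ≠ 0 ∧
    Real.tan (θ + Real.arctan (b / a)) = (b + a * Real.tan θ) / (a - b * Real.tan θ) := by
  have haR : (0 : ℝ) < a := by exact_mod_cast ha
  set φ : ℝ := Real.arctan (b / a) with hφ
  have h3 : Real.cos φ ≠ 0 := (Real.cos_arctan_pos _).ne'
  have h4 : Real.tan φ = b / a := Real.tan_arctan _
  have h5 : Real.sin φ = (b / a) * Real.cos φ := by
    rw [← h4, Real.tan_eq_sin_div_cos]
    field_simp
  have h6 : Real.sin θ = Real.tan θ * Real.cos θ := by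
    rw [Real.tan_eq_sin_div_cos]
    field_simp
  have e1 : Real.cos (θ + φ) = Real.cos θ * Real.cos φ * ((a - b * Real.tan θ) / a) := by
    rw [Real.cos_add, h5, h6]
    field_simp
    try ring
  have e2 : Real.sin (θ + φ) = Real.cos θ * Real.cos φ * ((b + a * Real.tan θ) / a) := by
    rw [Real.sin_add, h5, h6]
    field_simp
    try ring
  have hne : (a : ℝ) - b * Real.tan θ ≠ 0 := by
    intro h0
    apply h2
    rw [e1, h0]
    simp
  refine ⟨hne, ?_⟩
  rw [Real.tan_eq_sin_div_cos, e1, e2, mul_div_mul_left _ _ (mul_ne_zero h1 h3),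
    div_div_div_cancel_right₀ haR.ne']

lemma rot_coe {a b : ℤ} (ha : 0 < a) {θ : ℝ} (g1 : GoodAt (tanC (θ : AddCircle Real.pi)))
    (g2 : GoodAt (tanC ((θ : AddCircle Real.pi) + (Real.arctan (b / a) : ℝ))))
    (g3 : (θ : AddCircle Real.pi) ≠ ((Real.pi / 2 : ℝ) : AddCircle Real.pi))
    (g4 : (θ : AddCircle Real.pi) + (Real.arctan (b / a) : ℝ) ≠
      ((Real.pi / 2 : ℝ) : AddCircle Real.pi)) :
    FF (tanC ((θ : AddCircle Real.pi) + (Real.arctan (b / a) : ℝ))) =
      LL a b * FF (tanC (θ : AddCircle Real.pi)) := by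
  have c1 : Real.cos θ ≠ 0 := cos_ne_zero_of_ne g3
  rw [← AddCircle.coe_add] at g2 g4 ⊢
  have c2 : Real.cos (θ + Real.arctan (b / a)) ≠ 0 := cos_ne_zero_of_ne g4
  obtain ⟨hne, htan⟩ := tan_rot ha c1 c2
  rw [tanC_coe] at g1 g2 ⊢
  rw [tanC_coe]
  rw [htan] at g2 ⊢
  exact rot (Or.inl ha.ne') g1 hne g2

lemma ae_shift {P : AddCircle Real.pi → Prop} (c : AddCircle Real.pi) (h : ∀ᵐ t, P t) :
    ∀ᵐ t, P (t + c) :=
  (measurePreserving_add_right (volume : Measure (AddCircle Real.pi)) c).quasiMeasurePreserving.ae h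

/-- rotation relation almost everywhere on the circle -/
theorem ae_rot (h : Summable wt) {a b : ℤ} (ha : 0 < a) :
    ∀ᵐ t : AddCircle Real.pi,
      FF (tanC (t + (Real.arctan (b / a) : ℝ))) = LL a b * FF (tanC t) := by
  have h1 : ∀ᵐ t : AddCircle Real.pi, GoodAt (tanC t) := ae_tanC (ae_good h)
  have h2 : ∀ᵐ t : AddCircle Real.pi, GoodAt (tanC (t + ((Real.arctan (b / a) : ℝ) : AddCircle Real.pi))) :=
    ae_shift (P := fun t => GoodAt (tanC t)) ((Real.arctan (b / a) : ℝ) : AddCircle Real.pi) h1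
  have h3 := ae_ne ((Real.pi / 2 : ℝ) : AddCircle Real.pi)
  have h4 : ∀ᵐ t : AddCircle Real.pi, t + ((Real.arctan (b / a) : ℝ) : AddCircle Real.pi) ≠
      ((Real.pi / 2 : ℝ) : AddCircle Real.pi) :=
    ae_shift (P := fun t => t ≠ ((Real.pi / 2 : ℝ) : AddCircle Real.pi))
      ((Real.arctan (b / a) : ℝ) : AddCircle Real.pi) h3
  filter_upwards [h1, h2, h3, h4] with t g1 g2 g3 g4
  obtain ⟨θ, rfl⟩ : ∃ θ : ℝ, (θ : AddCircle Real.pi) = t := QuotientAddGroup.mk_surjective t
  exact rot_coe ha g1 g2 g3 g4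

lemma measurable_Pos : MeasurableSet {x : ℝ | Pos x} := by
  unfold Pos
  have : {x : ℝ | ∃ T0 : ℕ, ∀ T : ℕ, T0 ≤ T → ∀ q p : ℤ, Reg x T (1 / T) q p → LL q p = 1} =
      ⋃ T0 : ℕ, ⋂ T : ℕ, ⋂ (_ : T0 ≤ T), ⋂ q : ℤ, ⋂ p : ℤ, {x : ℝ | Reg x T (1 / T) q p → LL q p = 1} := by
    ext x
    simp only [Set.mem_ofPred_eq, Set.mem_iUnion, Set.mem_iInter]
  rw [this]
  refine MeasurableSet.iUnion fun T0 => MeasurableSet.iInter fun T => MeasurableSet.iInter fun _ =>
    MeasurableSet.iInter fun q => MeasurableSet.iInter fun p => ?_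
  by_cases hL : LL q p = 1
  · simp [hL]
  · have : {x : ℝ | Reg x T (1 / T) q p → LL q p = 1} = {x : ℝ | Reg x T (1 / T) q p}ᶜ := by
      ext x
      simp [hL]
    rw [this]
    apply MeasurableSet.compl
    unfold Reg
    by_cases h1 : 0 < q ∧ (q : ℝ) ≤ T
    · have : {x : ℝ | 0 < q ∧ (q : ℝ) ≤ T ∧ |(q : ℝ) * x - p| ≤ 1 / T} =
          {x : ℝ | |(q : ℝ) * x - p| ≤ 1 / T} := by
        ext x
        simp only [Set.mem_ofPred_eq]
        tauto
      rw [this]
      exact measurableSet_le (by fun_prop) (by fun_prop)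
    · have : {x : ℝ | 0 < q ∧ (q : ℝ) ≤ T ∧ |(q : ℝ) * x - p| ≤ 1 / T} = ∅ := by
        ext x
        simp only [Set.mem_ofPred_eq, Set.mem_empty_iff_false, iff_false]
        tauto
      rw [this]
      exact MeasurableSet.empty

lemma order_zero : addOrderOf ((Real.arctan ((4 : ℤ) / (3 : ℤ)) : ℝ) : AddCircle Real.pi) = 0 := by
  rw [addOrderOf_eq_zero_iff']
  intro n hn h0
  rw [← AddCircle.coe_nsmul, AddCircle.coe_eq_zero_iff] at h0
  obtain ⟨k, hk⟩ := h0
  set φ : ℝ := Real.arctan ((4 : ℤ) / (3 : ℤ)) with hφ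
  have hc : Real.cos φ = 3 / 5 := by
    rw [hφ, Real.cos_arctan]
    have : Real.sqrt (1 + (((4 : ℤ) : ℝ) / ((3 : ℤ) : ℝ)) ^ 2) = 5 / 3 := by
      rw [Real.sqrt_eq_iff_mul_self_eq (by positivity) (by norm_num)]
      norm_num
    rw [this]
    norm_num
  have hs : Real.sin φ = 4 / 5 := by
    have h1 : Real.tan φ = 4 / 3 := by
      rw [hφ, Real.tan_arctan]
      norm_num
    rw [Real.tan_eq_sin_div_cos, hc] at h1
    linarith
  have key : ∀ m : ℕ, ∃ A B : ℤ, (5 : ℝ) ^ (m + 1) * Real.cos ((m + 1 : ℕ) * φ) = A ∧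
      (5 : ℝ) ^ (m + 1) * Real.sin ((m + 1 : ℕ) * φ) = B ∧ A % 5 = 3 ∧ B % 5 = 4 := by
    intro m
    induction m with
    | zero =>
      refine ⟨3, 4, ?_, ?_, by norm_num, by norm_num⟩
      · simp only [zero_add, pow_one, Nat.cast_one, one_mul, hc]
        norm_num
      · simp only [zero_add, pow_one, Nat.cast_one, one_mul, hs]
        norm_num
    | succ m ih =>
      obtain ⟨A, B, h1, h2, h3, h4⟩ := ih
      refine ⟨3 * A - 4 * B, 4 * A + 3 * B, ?_, ?_, by omega, by omega⟩
      · have e : ((m + 1 + 1 : ℕ) : ℝ) * φ = (m + 1 : ℕ) * φ + φ := by push_cast; ring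
        rw [e, Real.cos_add, hc, hs]
        push_cast
        rw [← h1, ← h2]
        push_cast
        ring
      · have e : ((m + 1 + 1 : ℕ) : ℝ) * φ = (m + 1 : ℕ) * φ + φ := by push_cast; ring
        rw [e, Real.sin_add, hc, hs]
        push_cast
        rw [← h1, ← h2]
        push_cast
        ring
  obtain ⟨m, rfl⟩ : ∃ m, n = m + 1 := ⟨n - 1, by omega⟩
  obtain ⟨A, B, -, h2, -, h4⟩ := key m
  have h5 : Real.sin ((m + 1 : ℕ) * φ) = 0 := by
    rw [nsmul_eq_mul] at hk
    rw [← hk, zsmul_eq_mul]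
    exact Real.sin_int_mul_pi k
  rw [h5, mul_zero] at h2
  have : B = 0 := by exact_mod_cast h2.symm
  rw [this] at h4
  norm_num at h4

lemma LL_34 : LL 3 4 = 1 := by
  have : LL 3 4 = lam (5 * 5) := by
    unfold LL
    norm_num
  rw [this]
  exact lam_sq (by norm_num)

lemma LL_11 : LL 1 1 = -1 := by
  have : LL 1 1 = lam 2 := by
    unfold LL
    norm_num
  rw [this]
  unfold lam
  rw [ArithmeticFunction.cardFactors_apply_prime Nat.prime_two]
  norm_num

/-- The series over the bad edges diverges. -/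
theorem not_summable_wt : ¬ Summable wt := by
  intro h
  set S : Set (AddCircle Real.pi) := {t | Pos (tanC t)} with hS
  have hSm : MeasurableSet S := measurable_tanC measurable_Pos
  have hpos : ∀ x : ℝ, Pos x ↔ FF x = 1 := by
    intro x
    unfold FF
    split_ifs with h1
    · simp [h1]
    · simp [h1]
  have r1 := ae_rot h (a := 3) (b := 4) (by norm_num)
  rw [LL_34] at r1
  have r2 := ae_rot h (a := 1) (b := 1) (by norm_num)
  rw [LL_11] at r2
  have herg : Ergodic ((· + ((Real.arctan (((4 : ℤ) : ℝ) / ((3 : ℤ) : ℝ)) : ℝ) : AddCircle Real.pi)) :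
      AddCircle Real.pi → AddCircle Real.pi) := AddCircle.ergodic_add_right.mpr order_zero
  have hinv : ((· + ((Real.arctan (((4 : ℤ) : ℝ) / ((3 : ℤ) : ℝ)) : ℝ) : AddCircle Real.pi)) :
      AddCircle Real.pi → AddCircle Real.pi) ⁻¹' S =ᵐ[volume] S := by
    filter_upwards [r1] with t ht
    apply propext
    change Pos _ ↔ Pos _
    rw [hpos, hpos, ht, one_mul]
  rcases herg.quasiErgodic.ae_empty_or_univ₀ hSm.nullMeasurableSet hinv with h1 | h1
  · have g1 : ∀ᵐ t : AddCircle Real.pi, ¬ Pos (tanC t) := by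
      filter_upwards [h1] with t ht hp
      have : (t ∈ S) = (t ∈ (∅ : Set (AddCircle Real.pi))) := ht
      have h3 : t ∈ (∅ : Set (AddCircle Real.pi)) := by
        rw [← this]
        exact hp
      exact h3
    have g2 := ae_shift (P := fun t => ¬ Pos (tanC t)) ((Real.arctan (((1 : ℤ) : ℝ) / ((1 : ℤ) : ℝ)) : ℝ) : AddCircle Real.pi) g1
    have g3 : ∀ᵐ t : AddCircle Real.pi, False := by
      filter_upwards [g1, g2, r2] with t a1 a2 a3
      rw [hpos] at a1 a2
      rcases FF_eq (tanC t) with h4 | h4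
      · exact a1 h4
      · rw [h4] at a3
        exact a2 (by rw [a3]; norm_num)
    rw [ae_iff] at g3
    simp at g3
    exact absurd g3 (not_le.mpr Real.pi_pos)
  · have g1 : ∀ᵐ t : AddCircle Real.pi, Pos (tanC t) := by
      filter_upwards [h1] with t ht
      have : (t ∈ S) = (t ∈ (Set.univ : Set (AddCircle Real.pi))) := ht
      have h3 : t ∈ S := by
        rw [this]
        exact Set.mem_univ t
      exact h3
    have g2 := ae_shift (P := fun t => Pos (tanC t)) ((Real.arctan (((1 : ℤ) : ℝ) / ((1 : ℤ) : ℝ)) : ℝ) : AddCircle Real.pi) g1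
    have g3 : ∀ᵐ t : AddCircle Real.pi, False := by
      filter_upwards [g1, g2, r2] with t a1 a2 a3
      rw [hpos] at a1 a2
      rw [a2, a1] at a3
      norm_num at a3
    rw [ae_iff] at g3
    simp at g3
    exact absurd g3 (not_le.mpr Real.pi_pos)

end Pool.Agent.OddOmega
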