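import Mathlib
import Pool.Agent.Lib_MP_f1a94e_h8.Conn

/-!
The region lemma for vectors of odd norm.
-/

namespace Pool.Agent.OddOmega

/-- up to sign, in the region (without the positivity condition) -/
lemma reg_of_abs {x T V : ℝ} (hV : V < 1) {a b : ℤ} (hne : Odd (a + b)) (h1 : |(a : ℝ)| ≤ T)
    (h2 : |(a : ℝ) * x - b| ≤ V) : ∃ s : ℤ, (s = 1 ∨ s = -1) ∧ Reg x T V (s * a) (s * b) := by
  have ha : a ≠ 0 := by
    rintro rfl
    simp only [Int.cast_zero, zero_mul, zero_sub, abs_neg] at h2
    have h3 : |(b : ℝ)| < 1 := lt_of_le_of_lt h2 hV
    have h4 : |b| < 1 := by exact_mod_cast h3
    have h5 : b = 0 := Int.abs_lt_one_iff.mp h4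
    rw [h5] at hne
    simp at hne
  rcases lt_or_gt_of_ne ha with h | h
  · refine ⟨-1, Or.inr rfl, by omega, ?_, ?_⟩
    · push_cast
      have := neg_le_abs (a : ℝ)
      linarith
    · push_cast
      rw [show (-1 * (a : ℝ)) * x - -1 * (b : ℝ) = -((a : ℝ) * x - b) by ring, abs_neg]
      exact h2
  · refine ⟨1, Or.inl rfl, by omega, ?_, ?_⟩
    · push_cast
      have := le_abs_self (a : ℝ)
      linarith
    · push_cast
      rw [one_mul, one_mul]
      exact h2

lemma LL_sign {s a b : ℤ} (hs : s = 1 ∨ s = -1) : LL (s * a) (s * b) = LL a b := by
  rcases hs with rfl | rfl
  · rw [one_mul, one_mul]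
  · rw [neg_one_mul, neg_one_mul, LL_neg]

/-- If `LL` agrees on adjacent vectors of odd norm of a region with `V < 1`, then it is constant on
the vectors of odd norm of the region. -/
theorem region_const_odd {x T V : ℝ} (hV1 : V < 1)
    (h : ∀ q p q' p' : ℤ, Odd (q + p) → Odd (q' + p') → Reg x T V q p → Reg x T V q' p' →
      |q * p' - q' * p| = 1 → LL q p = LL q' p') :
    ∀ q p q' p' : ℤ, Odd (q + p) → Odd (q' + p') → Reg x T V q p → Reg x T V q' p' →
      LL q p = LL q' p' := by
  have key : ∀ t : ℕ, ∀ q p q' p' : ℤ, Odd (q + p) → Odd (q' + p') → Reg x T V q p →
      Reg x T V q' p' → (q * p' - q' * p).natAbs = t → LL q p = LL q' p' := by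
    intro t
    induction t using Nat.strong_induction_on with
    | _ t ih =>
      intro q p q' p' ho ho' hz hz' hdet
      obtain ⟨hq, hqT, hqV⟩ := hz
      obtain ⟨hq', hqT', hqV'⟩ := hz'
      rcases Nat.eq_zero_or_pos t with ht0 | htpos
      · -- parallel vectors
        rw [ht0, Int.natAbs_eq_zero] at hdet
        have h1 : LL (q' * q) (q' * p) = LL q p := LL_smul hq'.ne' (Or.inl hq.ne')
        have h2 : LL (q * q') (q * p') = LL q' p' := LL_smul hq.ne' (Or.inl hq'.ne')
        rw [← h1, ← h2]
        have h3 : q' * q = q * q' := by ring
        have h4 : q' * p = q * p' := by linarith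
        rw [h3, h4]
      · -- reduce to a primitive first vector
        set g : ℤ := (Int.gcd q p : ℤ) with hg
        have hgpos : 0 < g := by
          rw [hg]
          exact_mod_cast Int.gcd_pos_of_ne_zero_left p hq.ne'
        obtain ⟨u, hu⟩ : g ∣ q := Int.gcd_dvd_left q p
        obtain ⟨v, hv⟩ : g ∣ p := Int.gcd_dvd_right q p
        by_cases hg1 : g = 1
        · -- primitive
          rw [hg] at hg1
          have hg1' : Int.gcd q p = 1 := by exact_mod_cast hg1
          -- Bezout
          have hbez := Int.gcd_eq_gcd_ab q p
          rw [hg1'] at hbez
          set v0 : ℤ := Int.gcdA q p with hv0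
          set u0 : ℤ := -Int.gcdB q p with hu0
          have hb : q * v0 - p * u0 = 1 := by
            rw [hu0]
            push_cast at hbez
            linarith
          set D : ℤ := q * p' - q' * p with hD
          set a : ℤ := q' * v0 - p' * u0 with ha
          have e1 : q' = a * q + D * u0 := by
            rw [ha, hD]
            linear_combination (-q') * hb
          have e2 : p' = a * p + D * v0 := by
            rw [ha, hD]
            linear_combination (-p') * hb
          have htD : (t : ℤ) = |D| := by
            rw [← hdet]
            exact Int.natCast_natAbs D
          have htpos' : (0 : ℤ) < t := by exact_mod_cast htpos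
          set α : ℤ := (-a) % t with hα
          have hα0 : 0 ≤ α := Int.emod_nonneg _ htpos'.ne'
          have hαt : α < t := Int.emod_lt_of_pos _ htpos'
          obtain ⟨k, hk⟩ : (t : ℤ) ∣ α + a := by
            have : α = -a - t * ((-a) / t) := by
              rw [hα]
              have := Int.emod_add_mul_ediv (-a) t
              linarith
            exact ⟨-((-a) / t), by rw [this]; ring⟩
          -- D = s * t with s = ±1
          obtain ⟨s, hs, hDs⟩ : ∃ s : ℤ, (s = 1 ∨ s = -1) ∧ D = s * t := by
            rcases le_total 0 D with h0 | h0
            · exact ⟨1, Or.inl rfl, by rw [htD, abs_of_nonneg h0]; ring⟩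
            · exact ⟨-1, Or.inr rfl, by rw [htD, abs_of_nonpos h0]; ring⟩
          have hss : s * s = 1 := by rcases hs with hs | hs <;> rw [hs] <;> norm_num
          have hsabs : |s| = 1 := by rcases hs with hs | hs <;> rw [hs] <;> norm_num
          set y1 : ℤ := k * q + s * u0 with hy1
          set y2 : ℤ := k * p + s * v0 with hy2
          have f1 : (t : ℤ) * y1 = α * q + q' := by
            rw [hy1]
            have : α = t * k - a := by linarith
            rw [this]
            linear_combination (-1) * e1 + (-u0) * hDs
          have f2 : (t : ℤ) * y2 = α * p + p' := by
            rw [hy2]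
            have : α = t * k - a := by linarith
            rw [this]
            linear_combination (-1) * e2 + (-v0) * hDs
          have htR : (0 : ℝ) < t := by exact_mod_cast htpos
          have hαR : (0 : ℝ) ≤ α := by exact_mod_cast hα0
          have hqR : (0 : ℝ) < q := by exact_mod_cast hq
          have hqR' : (0 : ℝ) < q' := by exact_mod_cast hq'
          have hT0 : (0 : ℝ) ≤ T := hqR.le.trans hqT
          have hV : 0 ≤ V := (abs_nonneg _).trans hqV
          -- combinations stay in the region
          have comb : ∀ A B Y1 Y2 : ℤ, 0 ≤ A → 0 < B → A + B ≤ t → (t : ℤ) * Y1 = A * q + B * q' →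
              (t : ℤ) * Y2 = A * p + B * p' → Reg x T V Y1 Y2 := by
            intro A B Y1 Y2 hA hB hAB h1 h2
            have hAR : (0 : ℝ) ≤ A := by exact_mod_cast hA
            have hBR : (0 : ℝ) < B := by exact_mod_cast hB
            have hABR : (A : ℝ) + B ≤ t := by exact_mod_cast hAB
            have h1R : (t : ℝ) * Y1 = A * q + B * q' := by exact_mod_cast h1
            have h2R : (t : ℝ) * Y2 = A * p + B * p' := by exact_mod_cast h2
            refine ⟨?_, ?_, ?_⟩
            · have : (0 : ℝ) < t * Y1 := by
                rw [h1R]
                positivity
              have h5 : (0 : ℝ) < Y1 := by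
                by_contra hc
                push Not at hc
                nlinarith
              exact_mod_cast h5
            · have h5 : (t : ℝ) * Y1 ≤ t * T := by
                rw [h1R]
                calc (A : ℝ) * q + B * q' ≤ A * T + B * T := by gcongr
                  _ = (A + B) * T := by ring
                  _ ≤ t * T := mul_le_mul_of_nonneg_right hABR hT0
              exact le_of_mul_le_mul_left h5 htR
            · have h5 : (t : ℝ) * |(Y1 : ℝ) * x - Y2| ≤ t * V := by
                rw [← abs_of_pos htR, ← abs_mul]
                have h6 : (t : ℝ) * ((Y1 : ℝ) * x - Y2) = A * (q * x - p) + B * (q' * x - p') := by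
                  linear_combination x * h1R - h2R
                rw [h6]
                refine (abs_add_le _ _).trans ?_
                rw [abs_mul, abs_of_nonneg hAR, abs_mul, abs_of_pos hBR, abs_of_pos htR]
                calc (A : ℝ) * |(q : ℝ) * x - p| + B * |(q' : ℝ) * x - p'| ≤ A * V + B * V := by gcongr
                  _ = (A + B) * V := by ring
                  _ ≤ t * V := mul_le_mul_of_nonneg_right hABR hV
              exact le_of_mul_le_mul_left h5 htR
          have hRy : Reg x T V y1 y2 :=
            comb α 1 y1 y2 hα0 (by norm_num) (by omega) (by rw [f1]; ring) (by rw [f2]; ring)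
          have hdet1 : q * y2 - y1 * p = s := by
            rw [hy1, hy2]
            linear_combination s * hb
          have hadj : |q * y2 - y1 * p| = 1 := by rw [hdet1, hsabs]
          have hdet2 : y1 * p' - q' * y2 = α * s := by
            have h7 : (t : ℤ) * (y1 * p' - q' * y2) = t * (α * s) := by
              have : (t : ℤ) * (y1 * p' - q' * y2) = (t * y1) * p' - q' * (t * y2) := by ring
              rw [this, f1, f2]
              have : (α * q + q') * p' - q' * (α * p + p') = α * D := by
                rw [hD]; ring
              rw [this, hDs]
              ring
            exact mul_left_cancel₀ htpos'.ne' h7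
          by_cases hoy : Odd (y1 + y2)
          · have g1 : LL q p = LL y1 y2 := h q p y1 y2 ho hoy ⟨hq, hqT, hqV⟩ hRy hadj
            have g2 : LL y1 y2 = LL q' p' := by
              refine ih α.natAbs ?_ y1 y2 q' p' hoy ho' hRy ⟨hq', hqT', hqV'⟩ ?_
              · zify
                rw [abs_of_nonneg hα0]
                exact hαt
              · rw [hdet2, Int.natAbs_mul]
                rcases hs with hs | hs <;> rw [hs] <;> simp
            rw [g1, g2]
          · -- y has even norm
            have hey : Even (y1 + y2) := Int.not_odd_iff_even.mp hoy
            have hα1 : 1 ≤ α := by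
              by_contra hc
              have h0 : α = 0 := by omega
              rw [h0] at f1 f2
              have h8 : q' + p' = t * (y1 + y2) := by linarith
              rw [h8] at ho'
              exact (Int.not_odd_iff_even.mpr (hey.mul_left _)) ho'
            -- y1 and y2 are both odd
            have hyodd : Odd y1 ∧ Odd y2 := by
              rcases Int.even_or_odd y1 with h1 | h1
              · have h2 : Even y2 := by
                  have := hey.sub h1
                  simpa using this
                have h3 : Even (q * y2 - y1 * p) := (h2.mul_left q).sub (h1.mul_right p)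
                rw [hdet1] at h3
                rcases hs with hs | hs <;> rw [hs] at h3 <;> exact absurd h3 (by decide)
              · refine ⟨h1, ?_⟩
                have := hey.sub_odd h1
                simpa using this
            -- k' = ceil (t / α)
            set m : ℤ := (t + α - 1) / α with hm
            have hαpos : 0 < α := by omega
            have hm1 : α * m ≤ t + α - 1 := by
              rw [hm]
              exact Int.mul_ediv_self_le hαpos.ne'
            have hm2 : (t : ℤ) ≤ α * m := by
              have h9 := Int.emod_add_mul_ediv (t + α - 1) α
              have h10 := Int.emod_lt_of_pos ((t : ℤ) + α - 1) hαpos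
              rw [← hm] at h9
              linarith
            have hmpos : 0 < m := by
              by_contra hc
              push Not at hc
              nlinarith
            have hsum : (α * m - t) + m ≤ t := by
              rcases eq_or_lt_of_le hα1 with h11 | h11
              · rw [← h11] at hm1 ⊢
                linarith
              · -- α ≥ 2
                have h12 : α + 1 ≤ t := hαt
                have h13 : α * (α * m - t + m) ≤ α * t := by
                  nlinarith
                exact le_of_mul_le_mul_left h13 hαpos
            set w1 : ℤ := m * y1 - q with hw1
            set w2 : ℤ := m * y2 - p with hw2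
            have k1 : (t : ℤ) * w1 = (α * m - t) * q + m * q' := by
              rw [hw1]
              linear_combination m * f1
            have k2 : (t : ℤ) * w2 = (α * m - t) * p + m * p' := by
              rw [hw2]
              linear_combination m * f2
            have hRw : Reg x T V w1 w2 := comb (α * m - t) m w1 w2 (by linarith) hmpos hsum k1 k2
            have how : Odd (w1 + w2) := by
              have : w1 + w2 = m * (y1 + y2) - (q + p) := by rw [hw1, hw2]; ring
              rw [this]
              exact (hey.mul_left m).sub_odd ho
            -- the fan around y
            have fan : ∀ j : ℕ, (j : ℤ) ≤ m → LL (q - j * y1) (p - j * y2) = LL q p := by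
              intro j
              induction j with
              | zero => intro _; simp
              | succ j ihj =>
                intro hj
                have hj' : (j : ℤ) ≤ m := by push_cast at hj; linarith
                rw [← ihj hj']
                have inside : ∀ i : ℤ, 0 ≤ i → i ≤ m → |((q - i * y1 : ℤ) : ℝ)| ≤ T ∧
                    |((q - i * y1 : ℤ) : ℝ) * x - ((p - i * y2 : ℤ) : ℝ)| ≤ V := by
                  intro i hi0 him
                  have hiR : (0 : ℝ) ≤ i := by exact_mod_cast hi0
                  have himR : (i : ℝ) ≤ m := by exact_mod_cast him
                  have hmR : (0 : ℝ) < m := by exact_mod_cast hmpos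
                  have hw1R : (w1 : ℝ) = m * y1 - q := by rw [hw1]; push_cast; ring
                  have hw2R : (w2 : ℝ) = m * y2 - p := by rw [hw2]; push_cast; ring
                  obtain ⟨hwp, hwT, hwV⟩ := hRw
                  have hwpR : (0 : ℝ) < w1 := by exact_mod_cast hwp
                  constructor
                  · have e3 : (m : ℝ) * ((q - i * y1 : ℤ) : ℝ) = (m - i) * q - i * w1 := by
                      rw [hw1R]; push_cast; ring
                    have e4 : (m : ℝ) * |((q - i * y1 : ℤ) : ℝ)| ≤ m * T := by
                      rw [← abs_of_pos hmR, ← abs_mul, abs_of_pos hmR, e3]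
                      refine (abs_sub _ _).trans ?_
                      rw [abs_mul, abs_mul, abs_of_nonneg hiR, abs_of_nonneg (by linarith : (0 : ℝ) ≤ m - i),
                        abs_of_pos hqR, abs_of_pos hwpR]
                      calc ((m : ℝ) - i) * q + i * w1 ≤ (m - i) * T + i * T := by
                            have : (0 : ℝ) ≤ m - i := by linarith
                            gcongr
                        _ = m * T := by ring
                    exact le_of_mul_le_mul_left e4 hmR
                  · have e3 : (m : ℝ) * (((q - i * y1 : ℤ) : ℝ) * x - ((p - i * y2 : ℤ) : ℝ)) =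
                        (m - i) * (q * x - p) - i * (w1 * x - w2) := by
                      rw [hw1R, hw2R]; push_cast; ring
                    have e4 : (m : ℝ) * |((q - i * y1 : ℤ) : ℝ) * x - ((p - i * y2 : ℤ) : ℝ)| ≤ m * V := by
                      rw [← abs_of_pos hmR, ← abs_mul, abs_of_pos hmR, e3]
                      refine (abs_sub _ _).trans ?_
                      rw [abs_mul, abs_mul, abs_of_nonneg hiR, abs_of_nonneg (by linarith : (0 : ℝ) ≤ m - i)]
                      calc ((m : ℝ) - i) * |(q : ℝ) * x - p| + i * |(w1 : ℝ) * x - w2|
                          ≤ (m - i) * V + i * V := by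
                            have : (0 : ℝ) ≤ m - i := by linarith
                            gcongr
                        _ = m * V := by ring
                    exact le_of_mul_le_mul_left e4 hmR
                have odd_e : ∀ i : ℤ, Odd ((q - i * y1) + (p - i * y2)) := by
                  intro i
                  have : (q - i * y1) + (p - i * y2) = (q + p) - i * (y1 + y2) := by ring
                  rw [this]
                  exact ho.sub_even (hey.mul_left i)
                obtain ⟨i1, i2⟩ := inside (j : ℤ) (by positivity) hj'
                obtain ⟨i3, i4⟩ := inside ((j : ℤ) + 1) (by positivity) (by push_cast at hj; linarith)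
                obtain ⟨s1, hs1, hR1⟩ := reg_of_abs hV1 (odd_e j) i1 i2
                obtain ⟨s2, hs2, hR2⟩ := reg_of_abs hV1 (odd_e (j + 1)) i3 i4
                have hs1a : |s1| = 1 := by rcases hs1 with hs1 | hs1 <;> rw [hs1] <;> norm_num
                have hs2a : |s2| = 1 := by rcases hs2 with hs2 | hs2 <;> rw [hs2] <;> norm_num
                have ho1 : Odd (s1 * (q - j * y1) + s1 * (p - j * y2)) := by
                  rw [← mul_add]
                  have : Odd s1 := by rcases hs1 with hs1 | hs1 <;> rw [hs1] <;> decide
                  exact this.mul (odd_e j)
                have ho2 : Odd (s2 * (q - (j + 1) * y1) + s2 * (p - (j + 1) * y2)) := by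
                  rw [← mul_add]
                  have : Odd s2 := by rcases hs2 with hs2 | hs2 <;> rw [hs2] <;> decide
                  exact this.mul (odd_e (j + 1))
                have hdet3 : |s1 * (q - j * y1) * (s2 * (p - (j + 1) * y2)) -
                    s2 * (q - (j + 1) * y1) * (s1 * (p - j * y2))| = 1 := by
                  have e5 : s1 * (q - j * y1) * (s2 * (p - (j + 1) * y2)) -
                      s2 * (q - (j + 1) * y1) * (s1 * (p - j * y2)) =
                      s1 * s2 * (-(q * y2 - y1 * p)) := by ring
                  rw [e5, abs_mul, abs_mul, hs1a, hs2a, abs_neg, hdet1, hsabs]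
                  norm_num
                have e6 := h _ _ _ _ ho1 ho2 hR1 hR2 hdet3
                rw [LL_sign hs1, LL_sign hs2] at e6
                rw [e6]
                push_cast
                rfl
            have g1 : LL q p = LL w1 w2 := by
              have hmn : ((m.toNat : ℕ) : ℤ) = m := Int.toNat_of_nonneg hmpos.le
              have e7 := fan m.toNat (by rw [hmn])
              rw [hmn] at e7
              rw [← e7, ← LL_neg]
              congr 1
              · rw [hw1]; ring
              · rw [hw2]; ring
            have hdet4 : w1 * p' - q' * w2 = (α * m - t) * s := by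
              have h7 : (t : ℤ) * (w1 * p' - q' * w2) = t * ((α * m - t) * s) := by
                have : (t : ℤ) * (w1 * p' - q' * w2) = (t * w1) * p' - q' * (t * w2) := by ring
                rw [this, k1, k2]
                have : ((α * m - t) * q + m * q') * p' - q' * ((α * m - t) * p + m * p') =
                    (α * m - t) * D := by
                  rw [hD]; ring
                rw [this, hDs]
                ring
              exact mul_left_cancel₀ htpos'.ne' h7
            have g2 : LL w1 w2 = LL q' p' := by
              refine ih (α * m - t).natAbs ?_ w1 w2 q' p' how ho' hRw ⟨hq', hqT', hqV'⟩ ?_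
              · zify
                rw [abs_of_nonneg (by linarith)]
                linarith
              · rw [hdet4, Int.natAbs_mul]
                rcases hs with hs | hs <;> rw [hs] <;> simp
            rw [g1, g2]
        · -- non primitive: divide
          have hg2 : 2 ≤ g := by omega
          have hupos : 0 < u := by
            by_contra hc
            push Not at hc
            nlinarith
          have hgR : (1 : ℝ) ≤ g := by exact_mod_cast hgpos
          have hou : Odd (u + v) := by
            have : q + p = g * (u + v) := by rw [mul_add, ← hu, ← hv]
            rw [this] at ho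
            exact (Int.odd_mul.mp ho).2
          have hRu : Reg x T V u v := by
            refine ⟨hupos, ?_, ?_⟩
            · have h5 : (q : ℝ) = g * u := by exact_mod_cast hu
              have h6 : (0 : ℝ) < u := by exact_mod_cast hupos
              nlinarith
            · have h5 : (q : ℝ) = g * u := by exact_mod_cast hu
              have h6 : (p : ℝ) = g * v := by exact_mod_cast hv
              have h7 : (q : ℝ) * x - p = g * (u * x - v) := by
                rw [h5, h6]; ring
              rw [h7, abs_mul, abs_of_pos (by linarith : (0 : ℝ) < g)] at hqV
              nlinarith [abs_nonneg ((u : ℝ) * x - v)]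
          have e0 : LL q p = LL u v := by
            rw [hu, hv]
            exact LL_smul hgpos.ne' (Or.inl hupos.ne')
          have hdet' : t = g.natAbs * (u * p' - q' * v).natAbs := by
            rw [← hdet, ← Int.natAbs_mul]
            congr 1
            rw [hu, hv]
            ring
          have hlt : (u * p' - q' * v).natAbs < t := by
            rw [hdet']
            have h8 : 2 ≤ g.natAbs := by omega
            have h9 : 0 < (u * p' - q' * v).natAbs := by
              by_contra hc
              push Not at hc
              have : (u * p' - q' * v).natAbs = 0 := by omega
              rw [this, mul_zero] at hdet'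
              omega
            nlinarith
          rw [e0]
          exact ih _ hlt u v q' p' hou ho' hRu ⟨hq', hqT', hqV'⟩ rfl
  intro q p q' p' h1 h2 h3 h4
  exact key _ q p q' p' h1 h2 h3 h4 rfl

end Pool.Agent.OddOmega
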