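import Mathlib

/-!
The slowly varying weight `(c + log T)^c`.
-/

namespace Pool.Agent.OddOmega

open Filter

/-- slowly varying weight -/
noncomputable def kap (c T : ℝ) : ℝ := (c + Real.log T) ^ c

lemma kap_base {c T : ℝ} (hc : 1 < c) (hT : 1 ≤ T) : 1 < c + Real.log T := by
  have := Real.log_nonneg hT
  linarith

lemma one_le_kap {c T : ℝ} (hc : 1 < c) (hT : 1 ≤ T) : 1 ≤ kap c T :=
  Real.one_le_rpow (kap_base hc hT).le (by linarith)

lemma kap_pos {c T : ℝ} (hc : 1 < c) (hT : 1 ≤ T) : 0 < kap c T :=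
  lt_of_lt_of_le one_pos (one_le_kap hc hT)

lemma kap_mono {c S T : ℝ} (hc : 1 < c) (hS : 1 ≤ S) (hST : S ≤ T) : kap c S ≤ kap c T := by
  unfold kap
  have h1 := Real.log_le_log (by linarith) hST
  exact Real.rpow_le_rpow (by linarith [kap_base hc hS]) (by linarith) (by linarith)

lemma kap_div_anti {c S T : ℝ} (hc : 1 < c) (hS : 1 ≤ S) (hST : S ≤ T) :
    kap c T / T ≤ kap c S / S := by
  have hT : 1 ≤ T := hS.trans hST
  have hS0 : 0 < S := by linarith
  have hT0 : 0 < T := by linarith
  rw [div_le_div_iff₀ hT0 hS0]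
  unfold kap
  set u : ℝ := Real.log (T / S) with hu
  have hu0 : 0 ≤ u := Real.log_nonneg (by rw [le_div_iff₀ hS0]; linarith)
  have hlog : Real.log T = Real.log S + u := by
    rw [hu, Real.log_div hT0.ne' hS0.ne']
    ring
  have hbS := kap_base hc hS
  have h1 : c + Real.log T ≤ (c + Real.log S) * Real.exp (u / c) := by
    have h2 := Real.add_one_le_exp (u / c)
    have h3 : u ≤ (c + Real.log S) * (u / c) := by
      have : (0 : ℝ) ≤ Real.log S := Real.log_nonneg hS
      have hc0 : 0 < c := by linarith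
      rw [mul_div_assoc', le_div_iff₀ hc0]
      nlinarith
    calc c + Real.log T = (c + Real.log S) + u := by rw [hlog]; ring
      _ ≤ (c + Real.log S) + (c + Real.log S) * (u / c) := by linarith
      _ = (c + Real.log S) * (u / c + 1) := by ring
      _ ≤ _ := mul_le_mul_of_nonneg_left h2 (by linarith)
  have h4 : (c + Real.log T) ^ c ≤ ((c + Real.log S) * Real.exp (u / c)) ^ c :=
    Real.rpow_le_rpow (by linarith [kap_base hc hT]) h1 (by linarith)
  rw [Real.mul_rpow (by linarith) (Real.exp_pos _).le, ← Real.exp_mul] at h4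
  have h5 : u / c * c = u := by
    have : c ≠ 0 := by linarith
    field_simp
  rw [h5, hu, Real.exp_log (by positivity)] at h4
  calc (c + Real.log T) ^ c * S ≤ ((c + Real.log S) ^ c * (T / S)) * S :=
        mul_le_mul_of_nonneg_right h4 hS0.le
    _ = (c + Real.log S) ^ c * T := by
      field_simp

lemma kap_div_tendsto (c : ℝ) : Tendsto (fun T : ℝ => kap c T / T) atTop (nhds 0) := by
  have h1 := (isLittleO_log_rpow_rpow_atTop (s := 1) c one_pos).tendsto_div_nhds_zero
  have h2 : Tendsto (fun T : ℝ => Real.exp c * T) atTop atTop :=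
    Tendsto.const_mul_atTop (Real.exp_pos c) tendsto_id
  have h3 := (h1.comp h2).const_mul (Real.exp c)
  rw [mul_zero] at h3
  refine h3.congr' ?_
  filter_upwards [eventually_gt_atTop 0] with T hT
  simp only [Function.comp_apply, Real.rpow_one]
  rw [Real.log_mul (Real.exp_pos c).ne' hT.ne', Real.log_exp]
  unfold kap
  have := Real.exp_pos c
  field_simp

lemma kap_div_tendsto_nat (c : ℝ) : Tendsto (fun T : ℕ => kap c T / T) atTop (nhds 0) :=
  (kap_div_tendsto c).comp tendsto_natCast_atTop_atTop

/-- the convergent series `∑ 1 / (q kap q)` -/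
lemma summable_kap {c : ℝ} (hc : 1 < c) : Summable fun q : ℕ => 1 / ((q : ℝ) * kap c q) := by
  -- shift by one to have a monotone sequence
  have hmono : ∀ ⦃m n : ℕ⦄, 0 < m → m ≤ n →
      1 / ((n : ℝ) * kap c n) ≤ 1 / ((m : ℝ) * kap c m) := by
    intro m n hm hmn
    have hm1 : (1 : ℝ) ≤ m := by exact_mod_cast hm
    have hmn' : (m : ℝ) ≤ n := by exact_mod_cast hmn
    have h1 := kap_pos hc hm1
    have h2 := kap_mono hc hm1 hmn'
    apply one_div_le_one_div_of_le (by positivity)
    gcongr
  have hnn : ∀ n : ℕ, 0 ≤ 1 / ((n : ℝ) * kap c n) := by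
    intro n
    rcases Nat.eq_zero_or_pos n with h | h
    · rw [h]
      simp
    · have h1 : (1 : ℝ) ≤ n := by exact_mod_cast h
      have h2 := kap_pos hc h1
      positivity
  rw [← summable_condensed_iff_of_nonneg hnn hmono]
  have hs : Summable fun k : ℕ => (1 / Real.log 2 ^ c) * (1 / ((k : ℝ) + 1) ^ c) := by
    apply Summable.mul_left
    have := Real.summable_one_div_nat_add_rpow 1 c
    have h2 := this.mpr hc
    refine h2.congr ?_
    intro k
    rw [abs_of_nonneg (by positivity)]
  refine Summable.of_nonneg_of_le (fun k => ?_) (fun k => ?_) hs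
  · exact mul_nonneg (by positivity) (hnn _)
  · have hl2 : 0 < Real.log 2 := Real.log_pos (by norm_num)
    have hl2' : Real.log 2 < 1 := by
      have := Real.log_two_lt_d9
      linarith
    push_cast
    have h1 : kap c ((2 : ℝ) ^ k) = (c + k * Real.log 2) ^ c := by
      unfold kap
      rw [Real.log_pow]
    rw [h1]
    have h3 : (Real.log 2 * ((k : ℝ) + 1)) ^ c ≤ (c + k * Real.log 2) ^ c := by
      apply Real.rpow_le_rpow (by positivity) _ (by linarith)
      nlinarith
    rw [Real.mul_rpow hl2.le (by positivity)] at h3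
    have h4 : (2 : ℝ) ^ k * (1 / ((2 : ℝ) ^ k * (c + k * Real.log 2) ^ c)) =
        1 / (c + k * Real.log 2) ^ c := by
      have h5 : (0 : ℝ) < (c + k * Real.log 2) ^ c := Real.rpow_pos_of_pos (by positivity) _
      field_simp
    rw [h4, one_div_mul_one_div]
    exact one_div_le_one_div_of_le (by positivity) h3

end Pool.Agent.OddOmega
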