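import Mathlib
import Pool.Agent.Lib_MP_f1a94e_h8.Circle
import Pool.Agent.Lib_MP_f1a94e_h8.Limit2

/-!
The weighted series over the bad edges of odd norm diverges.
-/

namespace Pool.Agent.OddOmega

open MeasureTheory Filter

set_option maxHeartbeats 400000

local instance piPos2 : Fact (0 < Real.pi) := ⟨Real.pi_pos⟩

/-- both goodness properties -/
def Good2 (c x : ℝ) : Prop := G1 c x ∧ G2 c x

lemma rot_coe2 {c : ℝ} (hc : 1 < c) {a b : ℤ} (ha : 0 < a) (hab : Odd (a + b)) {θ : ℝ}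
    (g1 : Good2 c (tanC (θ : AddCircle Real.pi)))
    (g2 : Good2 c (tanC ((θ : AddCircle Real.pi) + (Real.arctan (b / a) : ℝ))))
    (g3 : (θ : AddCircle Real.pi) ≠ ((Real.pi / 2 : ℝ) : AddCircle Real.pi))
    (g4 : (θ : AddCircle Real.pi) + (Real.arctan (b / a) : ℝ) ≠
      ((Real.pi / 2 : ℝ) : AddCircle Real.pi)) :
    FF2 c (tanC ((θ : AddCircle Real.pi) + (Real.arctan (b / a) : ℝ))) =
      LL a b * FF2 c (tanC (θ : AddCircle Real.pi)) := by
  have c1 : Real.cos θ ≠ 0 := cos_ne_zero_of_ne g3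
  rw [← AddCircle.coe_add] at g2 g4 ⊢
  have c2 : Real.cos (θ + Real.arctan (b / a)) ≠ 0 := cos_ne_zero_of_ne g4
  obtain ⟨hne, htan⟩ := tan_rot ha c1 c2
  rw [tanC_coe] at g1 g2 ⊢
  rw [tanC_coe]
  rw [htan] at g2 ⊢
  exact rot2 hc hab g1.1 g1.2 hne g2.1 g2.2

lemma ae_Good2 {c : ℝ} (hc : 1 < c) (h : Summable (wt2 c)) :
    ∀ᵐ t : AddCircle Real.pi, Good2 c (tanC t) := by
  apply ae_tanC
  filter_upwards [ae_G1 hc h, ae_G2 hc] with x h1 h2
  exact ⟨h1, h2⟩

/-- rotation relation almost everywhere on the circle -/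
theorem ae_rot2 {c : ℝ} (hc : 1 < c) (h : Summable (wt2 c)) {a b : ℤ} (ha : 0 < a)
    (hab : Odd (a + b)) :
    ∀ᵐ t : AddCircle Real.pi,
      FF2 c (tanC (t + (Real.arctan (b / a) : ℝ))) = LL a b * FF2 c (tanC t) := by
  have h1 : ∀ᵐ t : AddCircle Real.pi, Good2 c (tanC t) := ae_Good2 hc h
  have h2 : ∀ᵐ t : AddCircle Real.pi,
      Good2 c (tanC (t + ((Real.arctan (b / a) : ℝ) : AddCircle Real.pi))) :=
    ae_shift (P := fun t => Good2 c (tanC t))
      ((Real.arctan (b / a) : ℝ) : AddCircle Real.pi) h1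
  have h3 := ae_ne ((Real.pi / 2 : ℝ) : AddCircle Real.pi)
  have h4 : ∀ᵐ t : AddCircle Real.pi, t + ((Real.arctan (b / a) : ℝ) : AddCircle Real.pi) ≠
      ((Real.pi / 2 : ℝ) : AddCircle Real.pi) :=
    ae_shift (P := fun t => t ≠ ((Real.pi / 2 : ℝ) : AddCircle Real.pi))
      ((Real.arctan (b / a) : ℝ) : AddCircle Real.pi) h3
  filter_upwards [h1, h2, h3, h4] with t g1 g2 g3 g4
  obtain ⟨θ, rfl⟩ : ∃ θ : ℝ, (θ : AddCircle Real.pi) = t := QuotientAddGroup.mk_surjective t
  exact rot_coe2 hc ha hab g1 g2 g3 g4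

lemma measurable_Pos2 (c : ℝ) : MeasurableSet {x : ℝ | Pos2 c x} := by
  unfold Pos2
  have : {x : ℝ | ∃ T0 : ℕ, ∀ T : ℕ, T0 ≤ T → ∀ q p : ℤ, Odd (q + p) →
      Reg x T (kap c T / T) q p → LL q p = 1} =
      ⋃ T0 : ℕ, ⋂ T : ℕ, ⋂ (_ : T0 ≤ T), ⋂ q : ℤ, ⋂ p : ℤ, ⋂ (_ : Odd (q + p)),
        {x : ℝ | Reg x T (kap c T / T) q p → LL q p = 1} := by
    ext x
    simp only [Set.mem_ofPred_eq, Set.mem_iUnion, Set.mem_iInter]
  rw [this]
  refine MeasurableSet.iUnion fun T0 => MeasurableSet.iInter fun T => MeasurableSet.iInter fun _ =>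
    MeasurableSet.iInter fun q => MeasurableSet.iInter fun p => MeasurableSet.iInter fun _ => ?_
  by_cases hL : LL q p = 1
  · simp [hL]
  · have : {x : ℝ | Reg x T (kap c T / T) q p → LL q p = 1} =
        {x : ℝ | Reg x T (kap c T / T) q p}ᶜ := by
      ext x
      simp [hL]
    rw [this]
    apply MeasurableSet.compl
    unfold Reg
    by_cases h1 : 0 < q ∧ (q : ℝ) ≤ T
    · have : {x : ℝ | 0 < q ∧ (q : ℝ) ≤ T ∧ |(q : ℝ) * x - p| ≤ kap c T / T} =
          {x : ℝ | |(q : ℝ) * x - p| ≤ kap c T / T} := by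
        ext x
        simp only [Set.mem_ofPred_eq]
        tauto
      rw [this]
      exact measurableSet_le (by fun_prop) (by fun_prop)
    · have : {x : ℝ | 0 < q ∧ (q : ℝ) ≤ T ∧ |(q : ℝ) * x - p| ≤ kap c T / T} = ∅ := by
        ext x
        simp only [Set.mem_ofPred_eq, Set.mem_empty_iff_false, iff_false]
        tauto
      rw [this]
      exact MeasurableSet.empty

lemma LL_21 : LL 2 1 = -1 := by
  have : LL 2 1 = lam 5 := by
    unfold LL
    norm_num
  rw [this]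
  unfold lam
  rw [ArithmeticFunction.cardFactors_apply_prime (by norm_num)]
  norm_num

/-- The weighted series over the bad edges of odd norm diverges. -/
theorem not_summable_wt2 {c : ℝ} (hc : 1 < c) : ¬ Summable (wt2 c) := by
  intro h
  set S : Set (AddCircle Real.pi) := {t | Pos2 c (tanC t)} with hS
  have hSm : MeasurableSet S := measurable_tanC (measurable_Pos2 c)
  have hpos : ∀ x : ℝ, Pos2 c x ↔ FF2 c x = 1 := by
    intro x
    unfold FF2
    split_ifs with h1
    · simp [h1]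
    · simp [h1]
  have r1 := ae_rot2 hc h (a := 3) (b := 4) (by norm_num) (by decide)
  rw [LL_34] at r1
  have r2 := ae_rot2 hc h (a := 2) (b := 1) (by norm_num) (by decide)
  rw [LL_21] at r2
  have herg : Ergodic ((· + ((Real.arctan (((4 : ℤ) : ℝ) / ((3 : ℤ) : ℝ)) : ℝ) : AddCircle Real.pi)) :
      AddCircle Real.pi → AddCircle Real.pi) := AddCircle.ergodic_add_right.mpr order_zero
  have hinv : ((· + ((Real.arctan (((4 : ℤ) : ℝ) / ((3 : ℤ) : ℝ)) : ℝ) : AddCircle Real.pi)) :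
      AddCircle Real.pi → AddCircle Real.pi) ⁻¹' S =ᵐ[volume] S := by
    filter_upwards [r1] with t ht
    apply propext
    change Pos2 c _ ↔ Pos2 c _
    rw [hpos, hpos, ht, one_mul]
  rcases herg.quasiErgodic.ae_empty_or_univ₀ hSm.nullMeasurableSet hinv with h1 | h1
  · have g1 : ∀ᵐ t : AddCircle Real.pi, ¬ Pos2 c (tanC t) := by
      filter_upwards [h1] with t ht hp
      have : (t ∈ S) = (t ∈ (∅ : Set (AddCircle Real.pi))) := ht
      have h3 : t ∈ (∅ : Set (AddCircle Real.pi)) := by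
        rw [← this]
        exact hp
      exact h3
    have g2 := ae_shift (P := fun t => ¬ Pos2 c (tanC t))
      ((Real.arctan (((1 : ℤ) : ℝ) / ((2 : ℤ) : ℝ)) : ℝ) : AddCircle Real.pi) g1
    have g3 : ∀ᵐ t : AddCircle Real.pi, False := by
      filter_upwards [g1, g2, r2] with t a1 a2 a3
      rw [hpos] at a1 a2
      rcases FF2_eq c (tanC t) with h4 | h4
      · exact a1 h4
      · rw [h4] at a3
        exact a2 (by rw [a3]; norm_num)
    rw [ae_iff] at g3
    simp at g3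
    exact absurd g3 (not_le.mpr Real.pi_pos)
  · have g1 : ∀ᵐ t : AddCircle Real.pi, Pos2 c (tanC t) := by
      filter_upwards [h1] with t ht
      have : (t ∈ S) = (t ∈ (Set.univ : Set (AddCircle Real.pi))) := ht
      have h3 : t ∈ S := by
        rw [this]
        exact Set.mem_univ t
      exact h3
    have g2 := ae_shift (P := fun t => Pos2 c (tanC t))
      ((Real.arctan (((1 : ℤ) : ℝ) / ((2 : ℤ) : ℝ)) : ℝ) : AddCircle Real.pi) g1
    have g3 : ∀ᵐ t : AddCircle Real.pi, False := by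
      filter_upwards [g1, g2, r2] with t a1 a2 a3
      rw [hpos] at a1 a2
      rw [a2, a1] at a3
      norm_num at a3
    rw [ae_iff] at g3
    simp at g3
    exact absurd g3 (not_le.mpr Real.pi_pos)

end Pool.Agent.OddOmega
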