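import Mathlib
import Pool.Agent.Lib_MP_f1a94e_h8.Conn3
import Pool.Agent.Lib_MP_f1a94e_h8.Kap

/-!
The limit sign along vectors of odd norm.
-/

namespace Pool.Agent.OddOmega.Gen

open MeasureTheory Filter

/-- bad edges with both ends of odd norm -/
abbrev BE2 (F : ℤ → ℤ → ℤ) : Type := {e : (ℤ × ℤ) × (ℤ × ℤ) // |e.1.1 * e.2.2 - e.2.1 * e.1.2| = 1 ∧
  Odd (e.1.1 + e.1.2) ∧ Odd (e.2.1 + e.2.2) ∧
  e.1.1 ^ 2 + e.1.2 ^ 2 ≤ e.2.1 ^ 2 + e.2.2 ^ 2 ∧ F e.1.1 e.1.2 ≠ F e.2.1 e.2.2}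

/-- the weight of an edge -/
noncomputable def wt2 (F : ℤ → ℤ → ℤ) (c : ℝ) (e : BE2 F) : ℝ :=
  kap c ((e.1.2.1 : ℝ) ^ 2 + (e.1.2.2 : ℝ) ^ 2) / ((e.1.2.1 : ℝ) ^ 2 + (e.1.2.2 : ℝ) ^ 2)

/-- the slopes affected by a bad edge -/
def SS2 (F : ℤ → ℤ → ℤ) (c : ℝ) (M K : ℕ) (e : BE2 F) : Set ℝ :=
  {x : ℝ | |x| ≤ M ∧ 0 < e.1.2.1 ∧ |(e.1.2.1 : ℝ) * x - e.1.2.2| * e.1.2.1 ≤ K * kap c e.1.2.1}

lemma volume_SS2 {F : ℤ → ℤ → ℤ} {c : ℝ} (hc : 1 < c) (M K : ℕ) (e : BE2 F) :
    volume (SS2 F c M K e) ≤ ENNReal.ofReal (2 * K * (1 + ((M : ℝ) + K * kap c 1) ^ 2) * wt2 F c e) := by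
  rcases Set.eq_empty_or_nonempty (SS2 F c M K e) with h | ⟨x0, h0⟩
  · rw [h]
    simp
  · obtain ⟨hx0, hq, hx1⟩ := h0
    have hw : wt2 F c e = kap c ((e.1.2.1 : ℝ) ^ 2 + (e.1.2.2 : ℝ) ^ 2) /
      ((e.1.2.1 : ℝ) ^ 2 + (e.1.2.2 : ℝ) ^ 2) := rfl
    set q : ℝ := (e.1.2.1 : ℝ) with hqdef
    set p : ℝ := (e.1.2.2 : ℝ) with hpdef
    have hq1 : (1 : ℝ) ≤ q := by
      rw [hqdef]
      exact_mod_cast hq
    have hq0 : 0 < q := by linarith
    have hM : (0 : ℝ) ≤ M := Nat.cast_nonneg M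
    have hK : (0 : ℝ) ≤ K := Nat.cast_nonneg K
    have hk1 : 1 ≤ kap c 1 := one_le_kap hc le_rfl
    have hanti : kap c q / q ≤ kap c 1 := by
      have := kap_div_anti hc le_rfl hq1
      simpa using this
    have hkq : kap c q ≤ kap c 1 * q := by
      rwa [div_le_iff₀ hq0] at hanti
    set B : ℝ := (M : ℝ) + K * kap c 1 with hB
    have hB0 : 0 ≤ B := by positivity
    have hp : |p| ≤ B * q := by
      have h1 : |q * x0 - p| ≤ K * kap c 1 := by
        have h3 : |q * x0 - p| * q ≤ (K * kap c 1) * q := by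
          refine hx1.trans ?_
          rw [mul_assoc]
          exact mul_le_mul_of_nonneg_left hkq hK
        exact le_of_mul_le_mul_right h3 hq0
      have h2 : |p| ≤ |q * x0| + |q * x0 - p| := by
        have := abs_sub_abs_le_abs_sub p (q * x0)
        rw [abs_sub_comm] at this
        linarith
      rw [abs_mul, abs_of_pos hq0] at h2
      have h4 : K * kap c 1 ≤ K * kap c 1 * q := by
        nlinarith [mul_nonneg hK (by linarith : (0 : ℝ) ≤ kap c 1)]
      rw [hB]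
      nlinarith
    have hN : q ^ 2 + p ^ 2 ≤ (1 + B ^ 2) * q ^ 2 := by
      have : p ^ 2 ≤ (B * q) ^ 2 := by
        rw [← sq_abs p]
        exact pow_le_pow_left₀ (abs_nonneg _) hp 2
      nlinarith
    have hsub : SS2 F c M K e ⊆ Metric.closedBall (p / q) (K * kap c q / q ^ 2) := by
      rintro x ⟨-, -, hx⟩
      rw [Metric.mem_closedBall, Real.dist_eq]
      have h1 : x - p / q = (q * x - p) / q := by
        field_simp
      rw [h1, abs_div, abs_of_pos hq0, div_le_div_iff₀ hq0 (by positivity)]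
      calc |q * x - p| * q ^ 2 = (|q * x - p| * q) * q := by ring
        _ ≤ (K * kap c q) * q := mul_le_mul_of_nonneg_right hx hq0.le
    refine (measure_mono hsub).trans ?_
    rw [Real.volume_closedBall]
    apply ENNReal.ofReal_le_ofReal
    rw [hw]
    have h3 : (0 : ℝ) < q ^ 2 + p ^ 2 := by positivity
    have h5 : kap c q ≤ kap c (q ^ 2 + p ^ 2) := kap_mono hc hq1 (by nlinarith [sq_nonneg p])
    have h6 : 0 < kap c q := kap_pos hc hq1
    have h7 : kap c q / q ^ 2 ≤ (1 + B ^ 2) * (kap c (q ^ 2 + p ^ 2) / (q ^ 2 + p ^ 2)) := by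
      rw [mul_div_assoc', div_le_div_iff₀ (by positivity) h3]
      calc kap c q * (q ^ 2 + p ^ 2) ≤ kap c (q ^ 2 + p ^ 2) * ((1 + B ^ 2) * q ^ 2) := by
            apply mul_le_mul h5 hN h3.le (h6.le.trans h5)
        _ = _ := by ring
    calc 2 * (K * kap c q / q ^ 2) = 2 * K * (kap c q / q ^ 2) := by ring
      _ ≤ 2 * K * ((1 + B ^ 2) * (kap c (q ^ 2 + p ^ 2) / (q ^ 2 + p ^ 2))) :=
        mul_le_mul_of_nonneg_left h7 (by positivity)
      _ = _ := by ring

/-- first goodness property -/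
def G1 (F : ℤ → ℤ → ℤ) (c x : ℝ) : Prop := ∀ K : ℕ, ∃ T0 : ℕ, ∀ T : ℕ, T0 ≤ T → ∀ q p q' p' : ℤ,
  Odd (q + p) → Odd (q' + p') → Reg x T (K * kap c T / T) q p → Reg x T (K * kap c T / T) q' p' →
  |q * p' - q' * p| = 1 → F q p = F q' p'

/-- second goodness property -/
def G2 (c x : ℝ) : Prop := ∃ T0 : ℕ, ∀ T : ℕ, T0 ≤ T → ∃ q p : ℤ, Odd (q + p) ∧
  Reg x T (kap c T / (T + 1)) q p

lemma ae_irrational : ∀ᵐ x : ℝ, Irrational x := by
  have := (Set.countable_range (fun q : ℚ => (q : ℝ))).ae_notMem volume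
  filter_upwards [this] with x hx
  exact hx

lemma irr_pos {x : ℝ} (hirr : Irrational x) {q p : ℤ} (hq : 0 < q) : 0 < |(q : ℝ) * x - p| := by
  rw [abs_pos]
  intro h0
  apply hirr
  refine ⟨(p : ℚ) / (q : ℚ), ?_⟩
  have hq' : (q : ℝ) ≠ 0 := by exact_mod_cast hq.ne'
  push_cast
  rw [div_eq_iff hq']
  linarith

theorem ae_G1 {F : ℤ → ℤ → ℤ} {c : ℝ} (hc : 1 < c) (h : Summable (wt2 F c)) : ∀ᵐ x : ℝ, G1 F c x := by
  have h1 : ∀ M K : ℕ, ∀ᵐ x : ℝ, {e : BE2 F | x ∈ SS2 F c M K e}.Finite := by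
    intro M K
    apply ae_finite_setOfPred_mem
    have h2 : Summable fun e : BE2 F => 2 * K * (1 + ((M : ℝ) + K * kap c 1) ^ 2) * wt2 F c e :=
      h.mul_left _
    exact ne_top_of_le_ne_top h2.tsum_ofReal_ne_top
      (ENNReal.tsum_le_tsum fun e => volume_SS2 hc M K e)
  have h2 : ∀ᵐ x : ℝ, ∀ M K : ℕ, {e : BE2 F | x ∈ SS2 F c M K e}.Finite := by
    rw [ae_all_iff]
    intro M
    rw [ae_all_iff]
    exact h1 M
  filter_upwards [h2, ae_irrational] with x hx hirr
  intro K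
  obtain ⟨M, hM⟩ := exists_nat_ge |x|
  have hfin := hx M K
  -- for each edge in the finite set, a threshold
  have hT : ∀ e : BE2 F, ∃ T : ℕ, 0 < e.1.2.1 → ∀ T' : ℕ, T ≤ T' →
      K * kap c T' / T' < |(e.1.2.1 : ℝ) * x - e.1.2.2| := by
    intro e
    by_cases hq : 0 < e.1.2.1
    · have hne : (0 : ℝ) < |(e.1.2.1 : ℝ) * x - e.1.2.2| := irr_pos hirr hq
      have hlim : Tendsto (fun T : ℕ => (K : ℝ) * kap c T / T) atTop (nhds 0) := by
        have := (kap_div_tendsto_nat c).const_mul (K : ℝ)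
        rw [mul_zero] at this
        refine this.congr fun T => ?_
        ring
      obtain ⟨T, hT⟩ := eventually_atTop.mp (hlim.eventually_lt_const hne)
      exact ⟨T, fun _ T' hT' => hT T' hT'⟩
    · exact ⟨0, fun h => absurd h hq⟩
  choose Te hTe using hT
  refine ⟨(hfin.toFinset.sup Te) + 1, ?_⟩
  intro T hT0 q p q' p' ho ho' hz hz' hadj
  by_contra hne
  have hT1 : (1 : ℝ) ≤ T := by
    have : 1 ≤ T := by omega
    exact_mod_cast this
  have hTpos : (0 : ℝ) < T := by linarith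
  -- the main step for an ordered pair
  have main : ∀ q p q' p' : ℤ, Odd (q + p) → Odd (q' + p') →
      Reg x T (K * kap c T / T) q' p' → |q * p' - q' * p| = 1 →
      F q p ≠ F q' p' → q ^ 2 + p ^ 2 ≤ q' ^ 2 + p' ^ 2 → False := by
    intro q p q' p' ho ho' hz' hadj hne hle
    let e : BE2 F := ⟨((q, p), (q', p')), hadj, ho, ho', hle, hne⟩
    obtain ⟨h5, h6, h7⟩ := hz'
    have hq'1 : (1 : ℝ) ≤ q' := by exact_mod_cast h5
    have hq'R : (0 : ℝ) < q' := by linarith
    have hmem : e ∈ {e : BE2 F | x ∈ SS2 F c M K e} := by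
      refine ⟨hM, h5, ?_⟩
      change |(q' : ℝ) * x - p'| * q' ≤ K * kap c q'
      have h8 : K * kap c T / T ≤ K * (kap c q' / q') := by
        rw [mul_div_assoc]
        exact mul_le_mul_of_nonneg_left (kap_div_anti hc hq'1 h6) (Nat.cast_nonneg K)
      calc |(q' : ℝ) * x - p'| * q' ≤ (K * (kap c q' / q')) * q' :=
            mul_le_mul_of_nonneg_right (h7.trans h8) hq'R.le
        _ = K * kap c q' := by field_simp
    have h8 : Te e ≤ T := by
      have : Te e ≤ hfin.toFinset.sup Te := Finset.le_sup (hfin.mem_toFinset.mpr hmem)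
      omega
    exact absurd h7 (not_le.mpr (hTe e h5 T h8))
  rcases le_total (q ^ 2 + p ^ 2) (q' ^ 2 + p' ^ 2) with hle | hle
  · exact main q p q' p' ho ho' hz' hadj hne hle
  · refine main q' p' q p ho' ho hz ?_ (Ne.symm hne) hle
    rw [← hadj, ← abs_neg]
    congr 1
    ring

/-- very well approximable slopes -/
def BB (c : ℝ) (M q : ℕ) : Set ℝ :=
  {x : ℝ | |x| ≤ M ∧ 0 < q ∧ ∃ p : ℤ, |(q : ℝ) * x - p| ≤ 2 / (q * kap c q)}

lemma volume_BB {c : ℝ} (hc : 1 < c) (M q : ℕ) :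
    volume (BB c M q) ≤ ENNReal.ofReal ((2 * M + 5) * 4 * (1 / (q * kap c q))) := by
  rcases Nat.eq_zero_or_pos q with h0 | hpos
  · have : BB c M q = ∅ := by
      ext x
      simp only [BB, Set.mem_ofPred_eq, Set.mem_empty_iff_false, iff_false]
      rintro ⟨-, h, -⟩
      omega
    rw [this]
    simp
  · have hq1 : (1 : ℝ) ≤ q := by exact_mod_cast hpos
    have hq0 : (0 : ℝ) < q := by linarith
    have hk := one_le_kap hc hq1
    have hk0 := kap_pos hc hq1
    set r : ℝ := 2 / (q * kap c q) with hr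
    have hr0 : 0 < r := by positivity
    have hr2 : r ≤ 2 := by
      rw [hr, div_le_iff₀ (by positivity)]
      nlinarith
    set m : ℕ := M * q + 2 with hm
    have hsub : BB c M q ⊆ ⋃ p ∈ Finset.Icc (-(m : ℤ)) m, Metric.closedBall ((p : ℝ) / q) (r / q) := by
      rintro x ⟨hx, -, p, hp⟩
      rw [Set.mem_iUnion₂]
      refine ⟨p, ?_, ?_⟩
      · have h1 : |(p : ℝ)| ≤ m := by
          have h2 : |(p : ℝ)| ≤ |(q : ℝ) * x| + |(q : ℝ) * x - p| := by
            have := abs_sub_abs_le_abs_sub (p : ℝ) (q * x)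
            rw [abs_sub_comm] at this
            linarith
          rw [abs_mul, abs_of_pos hq0] at h2
          rw [hm]
          push_cast
          nlinarith
        have h3 : |p| ≤ (m : ℤ) := by exact_mod_cast h1
        rw [Finset.mem_Icc]
        exact abs_le.mp h3
      · rw [Metric.mem_closedBall, Real.dist_eq]
        have h1 : x - p / q = (q * x - p) / q := by
          field_simp
        rw [h1, abs_div, abs_of_pos hq0]
        gcongr
    refine (measure_mono hsub).trans ((measure_biUnion_finset_le _ _).trans ?_)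
    have h1 : ∀ p ∈ Finset.Icc (-(m : ℤ)) m, volume (Metric.closedBall ((p : ℝ) / q) (r / q)) ≤
        ENNReal.ofReal (2 * (r / q)) := by
      intro p _
      rw [Real.volume_closedBall]
    refine (Finset.sum_le_sum h1).trans ?_
    rw [Finset.sum_const, Int.card_Icc, nsmul_eq_mul]
    have h2 : ((m : ℤ) + 1 - -(m : ℤ)).toNat = 2 * m + 1 := by omega
    rw [h2, ← ENNReal.ofReal_natCast, ← ENNReal.ofReal_mul (by positivity)]
    apply ENNReal.ofReal_le_ofReal
    rw [hm, hr]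
    push_cast
    have h3 : (2 * ((M : ℝ) * q + 2) + 1) * (2 * (2 / (q * kap c q) / q)) =
        ((2 * M * q + 5) / q) * 4 * (1 / (q * kap c q)) := by
      field_simp
      ring
    rw [h3]
    have h4 : (2 * (M : ℝ) * q + 5) / q ≤ 2 * M + 5 := by
      rw [div_le_iff₀ hq0]
      nlinarith
    gcongr

theorem ae_G2 {c : ℝ} (hc : 1 < c) : ∀ᵐ x : ℝ, G2 c x := by
  have h1 : ∀ M : ℕ, ∀ᵐ x : ℝ, {q : ℕ | x ∈ BB c M q}.Finite := by
    intro M
    apply ae_finite_setOfPred_mem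
    have h2 : Summable fun q : ℕ => (2 * (M : ℝ) + 5) * 4 * (1 / (q * kap c q)) :=
      (summable_kap hc).mul_left _
    exact ne_top_of_le_ne_top h2.tsum_ofReal_ne_top
      (ENNReal.tsum_le_tsum fun q => volume_BB hc M q)
  have h2 : ∀ᵐ x : ℝ, ∀ M : ℕ, {q : ℕ | x ∈ BB c M q}.Finite := by
    rw [ae_all_iff]
    exact h1
  filter_upwards [h2, ae_irrational] with x hx hirr
  obtain ⟨M, hM⟩ := exists_nat_ge |x|
  have hfin := hx M
  have hT : ∀ q : ℕ, ∃ T : ℕ, 0 < q → ∀ T' : ℕ, T ≤ T' →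
      1 / ((T' : ℝ) + 1) < |(q : ℝ) * x - round ((q : ℝ) * x)| := by
    intro q
    by_cases hq : 0 < q
    · have hne : (0 : ℝ) < |(q : ℝ) * x - round ((q : ℝ) * x)| := by
        have := irr_pos hirr (q := q) (p := round ((q : ℝ) * x)) (by exact_mod_cast hq)
        simpa using this
      have hlim : Tendsto (fun T : ℕ => 1 / ((T : ℝ) + 1)) atTop (nhds 0) :=
        tendsto_one_div_add_atTop_nhds_zero_nat
      obtain ⟨T, hT⟩ := eventually_atTop.mp (hlim.eventually_lt_const hne)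
      exact ⟨T, fun _ T' hT' => hT T' hT'⟩
    · exact ⟨0, fun h => absurd h hq⟩
  choose Te hTe using hT
  refine ⟨(hfin.toFinset.sup Te) + 1, ?_⟩
  intro T hT0
  have hTpos : 0 < T := by omega
  have hT1 : (1 : ℝ) ≤ T := by exact_mod_cast hTpos
  have hkT := one_le_kap hc hT1
  obtain ⟨q1, p1, hq1, hq1T, hv1⟩ := dirichlet x hTpos
  -- divide by the gcd
  set g : ℤ := (Int.gcd q1 p1 : ℤ) with hg
  have hgpos : 0 < g := by
    rw [hg]
    exact_mod_cast Int.gcd_pos_of_ne_zero_left p1 hq1.ne'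
  obtain ⟨q0, hq0⟩ : g ∣ q1 := Int.gcd_dvd_left q1 p1
  obtain ⟨p0, hp0⟩ : g ∣ p1 := Int.gcd_dvd_right q1 p1
  have hq0pos : 0 < q0 := by
    by_contra hc'
    push Not at hc'
    nlinarith
  have hcop : Int.gcd q0 p0 = 1 := by
    have h5 : Int.gcd q1 p1 = g.natAbs * Int.gcd q0 p0 := by
      rw [hq0, hp0, Int.gcd_mul_left]
    have h6 : g.natAbs = Int.gcd q1 p1 := by rw [hg]; rfl
    rw [h6] at h5
    have h7 : 0 < Int.gcd q1 p1 := Int.gcd_pos_of_ne_zero_left p1 hq1.ne'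
    have h8 : Int.gcd q1 p1 * 1 = Int.gcd q1 p1 * Int.gcd q0 p0 := by linarith
    exact (Nat.eq_of_mul_eq_mul_left h7 h8).symm
  have hgR : (1 : ℝ) ≤ g := by exact_mod_cast hgpos
  have hq0R : (1 : ℝ) ≤ q0 := by exact_mod_cast hq0pos
  have hq0T : (q0 : ℝ) ≤ T := by
    have h5 : (q1 : ℝ) = g * q0 := by exact_mod_cast hq0
    nlinarith
  have hv0 : |(q0 : ℝ) * x - p0| ≤ 1 / (T + 1) := by
    have h5 : (q1 : ℝ) = g * q0 := by exact_mod_cast hq0
    have h6 : (p1 : ℝ) = g * p0 := by exact_mod_cast hp0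
    have h7 : (q1 : ℝ) * x - p1 = g * (q0 * x - p0) := by
      rw [h5, h6]; ring
    rw [h7, abs_mul, abs_of_pos (by linarith : (0 : ℝ) < g)] at hv1
    nlinarith [abs_nonneg ((q0 : ℝ) * x - p0)]
  by_cases hodd : Odd (q0 + p0)
  · refine ⟨q0, p0, hodd, hq0pos, hq0T, hv0.trans ?_⟩
    gcongr
  · have heven : Even (q0 + p0) := Int.not_odd_iff_even.mp hodd
    have hbez := Int.gcd_eq_gcd_ab q0 p0
    rw [hcop] at hbez
    set v : ℤ := Int.gcdA q0 p0 with hv
    set u : ℤ := -Int.gcdB q0 p0 with hu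
    have hb : q0 * v - p0 * u = 1 := by
      rw [hu]
      push_cast at hbez
      linarith
    set k : ℤ := (u - 1) / q0 with hk
    set y1 : ℤ := u - k * q0 with hy1
    set y2 : ℤ := v - k * p0 with hy2
    have hy1eq : y1 = (u - 1) % q0 + 1 := by
      have := Int.emod_add_mul_ediv (u - 1) q0
      rw [hy1, hk]
      linarith
    have hy1pos : 0 < y1 := by
      have := Int.emod_nonneg (u - 1) hq0pos.ne'
      omega
    have hy1le : y1 ≤ q0 := by
      have := Int.emod_lt_of_pos (u - 1) hq0pos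
      omega
    have hdet : q0 * y2 - p0 * y1 = 1 := by
      rw [hy1, hy2]
      linear_combination hb
    -- parity
    have hyodd : Odd (y1 + y2) := by
      rcases Int.even_or_odd q0 with h5 | h5
      · have h6 : Even p0 := by
          have := heven.sub h5
          simpa using this
        have h7 : Even (q0 * y2 - p0 * y1) := (h5.mul_right y2).sub (h6.mul_right y1)
        rw [hdet] at h7
        exact absurd h7 (by decide)
      · have h6 : Odd p0 := by
          have := heven.sub_odd h5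
          simpa using this
        by_contra hc'
        have h8 : Even (y1 + y2) := Int.not_odd_iff_even.mp hc'
        have h9 : q0 * y2 - p0 * y1 = (y1 + y2) * q0 - (q0 + p0) * y1 := by ring
        have h10 : Even (q0 * y2 - p0 * y1) := by
          rw [h9]
          exact (h8.mul_right q0).sub (heven.mul_right y1)
        rw [hdet] at h10
        exact absurd h10 (by decide)
    have hyT : (y1 : ℝ) ≤ T := le_trans (by exact_mod_cast hy1le) hq0T
    have hyv : |(y1 : ℝ) * x - y2| ≤ 2 / q0 := by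
      have h5 : (q0 : ℝ) * (y1 * x - y2) = y1 * (q0 * x - p0) - 1 := by
        have : (q0 : ℝ) * y2 - p0 * y1 = 1 := by exact_mod_cast hdet
        linear_combination (-1) * this
      have h5' : (q0 : ℝ) * |(y1 : ℝ) * x - y2| = |(y1 : ℝ) * (q0 * x - p0) - 1| := by
        rw [← h5, abs_mul, abs_of_pos (by linarith : (0 : ℝ) < q0)]
      rw [le_div_iff₀ (by linarith), mul_comm, h5']
      refine (abs_sub _ _).trans ?_
      rw [abs_mul, abs_one, abs_of_pos (by exact_mod_cast hy1pos : (0 : ℝ) < y1)]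
      have h6 : (y1 : ℝ) * |(q0 : ℝ) * x - p0| ≤ T * (1 / (T + 1)) :=
        mul_le_mul hyT hv0 (abs_nonneg _) (by positivity)
      have h7 : (T : ℝ) * (1 / (T + 1)) ≤ 1 := by
        rw [mul_one_div, div_le_one (by positivity)]
        linarith
      linarith
    refine ⟨y1, y2, hyodd, hy1pos, hyT, hyv.trans ?_⟩
    by_contra hcon
    push Not at hcon
    -- then x is very well approximable by q0
    have h5 : (q0 : ℝ) * kap c T < 2 * (T + 1) := by
      rw [div_lt_div_iff₀ (by positivity) (by linarith)] at hcon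
      linarith
    have hkq := kap_mono hc hq0R hq0T
    have hkq0 := kap_pos hc hq0R
    have h6 : |(q0 : ℝ) * x - p0| ≤ 2 / (q0 * kap c q0) := by
      refine hv0.trans ?_
      rw [div_le_div_iff₀ (by positivity) (by positivity)]
      nlinarith
    obtain ⟨n, hn⟩ : ∃ n : ℕ, (n : ℤ) = q0 := ⟨q0.toNat, Int.toNat_of_nonneg hq0pos.le⟩
    have hnR : (n : ℝ) = q0 := by exact_mod_cast congrArg (fun z : ℤ => (z : ℝ)) hn
    have hnpos : 0 < n := by
      have : (0 : ℤ) < n := by rw [hn]; exact hq0pos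
      exact_mod_cast this
    have hmem : n ∈ {q : ℕ | x ∈ BB c M q} := by
      refine ⟨hM, hnpos, p0, ?_⟩
      rw [hnR]
      exact h6
    have h8 : Te n ≤ T := by
      have : Te n ≤ hfin.toFinset.sup Te := Finset.le_sup (hfin.mem_toFinset.mpr hmem)
      omega
    have h9 := hTe n hnpos T h8
    have h10 : |(n : ℝ) * x - round ((n : ℝ) * x)| ≤ |(n : ℝ) * x - p0| := round_le _ _
    rw [hnR] at h9 h10
    linarith

/-- the limit sign along vectors of odd norm is `1` -/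
def Pos2 (F : ℤ → ℤ → ℤ) (c x : ℝ) : Prop := ∃ T0 : ℕ, ∀ T : ℕ, T0 ≤ T → ∀ q p : ℤ, Odd (q + p) →
  Reg x T (kap c T / T) q p → F q p = 1

open Classical in
/-- the limit sign -/
noncomputable def FF2 (F : ℤ → ℤ → ℤ) (c x : ℝ) : ℤ := if Pos2 F c x then 1 else -1

lemma FF2_eq (F : ℤ → ℤ → ℤ) (c x : ℝ) : FF2 F c x = 1 ∨ FF2 F c x = -1 := by
  unfold FF2
  split_ifs <;> simp

theorem good_limit2 {F : ℤ → ℤ → ℤ} (hF : SF F) {c x : ℝ} (hc : 1 < c) (h : G1 F c x) (h' : G2 c x) (K : ℕ) (hK : 1 ≤ K) :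
    ∃ T0 : ℕ, ∀ T : ℕ, T0 ≤ T → ∀ q p : ℤ, Odd (q + p) → Reg x T (K * kap c T / T) q p →
      F q p = FF2 F c x := by
  obtain ⟨T1, hT1⟩ := h K
  obtain ⟨T2, hT2⟩ := h'
  have hlim : Tendsto (fun T : ℕ => (K : ℝ) * kap c T / T) atTop (nhds 0) := by
    have := (kap_div_tendsto_nat c).const_mul (K : ℝ)
    rw [mul_zero] at this
    refine this.congr fun T => ?_
    ring
  obtain ⟨T3, hT3⟩ := eventually_atTop.mp (hlim.eventually_lt_const one_pos)
  set T0 : ℕ := T1 + T2 + T3 + 1 with hT0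
  have hKR : (1 : ℝ) ≤ K := by exact_mod_cast hK
  -- constant on each region
  have hconst : ∀ T : ℕ, T0 ≤ T → ∀ q p q' p' : ℤ, Odd (q + p) → Odd (q' + p') →
      Reg x T (K * kap c T / T) q p → Reg x T (K * kap c T / T) q' p' →
      F q p = F q' p' := by
    intro T hT
    exact region_const_odd hF (hT3 T (by omega)) (hT1 T (by omega))
  -- nonempty
  have hd : ∀ T : ℕ, T0 ≤ T → ∃ q p : ℤ, Odd (q + p) ∧ Reg x T (kap c T / T) q p ∧
      Reg x (T + 1 : ℕ) (kap c (T + 1 : ℕ) / (T + 1 : ℕ)) q p := by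
    intro T hT
    have hTpos : 0 < T := by omega
    have hTR : (1 : ℝ) ≤ T := by exact_mod_cast hTpos
    have hk := kap_pos hc hTR
    obtain ⟨q, p, h0, h1, h2, h3⟩ := hT2 T (by omega)
    refine ⟨q, p, h0, ⟨h1, h2, h3.trans ?_⟩, ⟨h1, ?_, ?_⟩⟩
    · gcongr
      linarith
    · push_cast
      linarith
    · push_cast
      refine h3.trans ?_
      gcongr
      exact kap_mono hc hTR (by linarith)
  have hmono : ∀ T : ℕ, T0 ≤ T → ∀ q p : ℤ, Reg x T (kap c T / T) q p →
      Reg x T (K * kap c T / T) q p := by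
    intro T hT q p ⟨h1, h2, h3⟩
    have hTpos : 0 < T := by omega
    have hTR : (1 : ℝ) ≤ T := by exact_mod_cast hTpos
    have hk := kap_pos hc hTR
    refine ⟨h1, h2, h3.trans ?_⟩
    gcongr
    nlinarith
  obtain ⟨q0, p0, ho0, hz0, -⟩ := hd T0 le_rfl
  -- all regions have the sign of the first one
  have hall : ∀ T : ℕ, T0 ≤ T → ∀ q p : ℤ, Odd (q + p) → Reg x T (K * kap c T / T) q p →
      F q p = F q0 p0 := by
    intro T hT
    induction T, hT using Nat.le_induction with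
    | base =>
      intro q p ho hz
      exact hconst T0 le_rfl q p q0 p0 ho ho0 hz (hmono T0 le_rfl _ _ hz0)
    | succ T hT ih =>
      intro q p ho hz
      obtain ⟨q1, p1, ho1, h1, h2⟩ := hd T hT
      rw [hconst (T + 1) (by omega) q p q1 p1 ho ho1 hz (hmono (T + 1) (by omega) _ _ h2)]
      exact ih q1 p1 ho1 (hmono T hT _ _ h1)
  have hFF : FF2 F c x = F q0 p0 := by
    rcases hF.pm q0 p0 with h1 | h1
    · have hp : Pos2 F c x :=
        ⟨T0, fun T hT q p ho hz => by rw [hall T hT q p ho (hmono T hT _ _ hz), h1]⟩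
      unfold FF2
      rw [if_pos hp, h1]
    · have hp : ¬ Pos2 F c x := by
        rintro ⟨T4, hT4⟩
        obtain ⟨q1, p1, ho1, h2, -⟩ := hd (max T0 T4) (le_max_left _ _)
        have h3 := hT4 _ (le_max_right T0 T4) q1 p1 ho1 h2
        rw [hall _ (le_max_left T0 T4) q1 p1 ho1 (hmono _ (le_max_left _ _) _ _ h2), h1] at h3
        norm_num at h3
      unfold FF2
      rw [if_neg hp, h1]
  exact ⟨T0, fun T hT q p ho hz => by rw [hall T hT q p ho hz, hFF]⟩

/-- rotation by a Gaussian integer of odd norm -/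
theorem rot2 {F : ℤ → ℤ → ℤ} (hF : SF F) {c : ℝ} (hc : 1 < c) {a b : ℤ} (hab : Odd (a + b)) {x : ℝ} (hx1 : G1 F c x)
    (hx2 : G2 c x) (hne : (a : ℝ) - b * x ≠ 0)
    (hx1' : G1 F c ((b + a * x) / (a - b * x))) (hx2' : G2 c ((b + a * x) / (a - b * x))) :
    FF2 F c ((b + a * x) / (a - b * x)) = F a b * FF2 F c x := by
  have hab' : a ≠ 0 ∨ b ≠ 0 := by
    by_contra hcon
    push Not at hcon
    rw [hcon.1, hcon.2] at hab
    simp at hab
  set x' : ℝ := (b + a * x) / (a - b * x) with hx'def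
  set d : ℝ := |(a : ℝ) - b * x| with hd
  have hdpos : 0 < d := abs_pos.mpr hne
  set N : ℝ := (a : ℝ) ^ 2 + (b : ℝ) ^ 2 with hN
  have hNpos : 0 < N := by
    rcases hab' with h | h
    · have : (a : ℝ) ≠ 0 := by exact_mod_cast h
      positivity
    · have : (b : ℝ) ≠ 0 := by exact_mod_cast h
      positivity
  obtain ⟨C1, hC1⟩ := exists_nat_ge (d + |(b : ℝ)| + 1)
  have hC1pos : (1 : ℝ) ≤ C1 := le_trans (by linarith [abs_nonneg (b : ℝ)]) hC1
  obtain ⟨K0, hK0⟩ := exists_nat_ge (N * C1 / d)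
  set K : ℕ := K0 + 1 with hK
  obtain ⟨T1, hT1⟩ := good_limit2 hF hc hx1 hx2 1 le_rfl
  obtain ⟨T2, hT2⟩ := good_limit2 hF hc hx1' hx2' K (by omega)
  have hlim : Tendsto (fun T : ℕ => |(b : ℝ)| * (kap c T / T)) atTop (nhds 0) := by
    have := (kap_div_tendsto_nat c).const_mul (|(b : ℝ)|)
    rwa [mul_zero] at this
  obtain ⟨T3, hT3⟩ := eventually_atTop.mp
    ((hlim.eventually_lt_const hdpos).and (hlim.eventually_lt_const one_pos))
  obtain ⟨T4, hT4⟩ := hx2
  set T : ℕ := T1 + T2 + T3 + T4 + 1 with hT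
  have hTpos : 0 < T := by omega
  have hTR : (1 : ℝ) ≤ T := by exact_mod_cast hTpos
  have hkT := kap_pos hc hTR
  obtain ⟨q, p, h0, h1, h2, h3⟩ := hT4 T (by omega)
  have hz : Reg x T ((1 : ℕ) * kap c T / T) q p := by
    refine ⟨h1, h2, h3.trans ?_⟩
    rw [Nat.cast_one, one_mul]
    gcongr
    linarith
  have e1 := hT1 T (by omega) q p h0 hz
  set q1 : ℤ := a * q - b * p with hq1
  set p1 : ℤ := b * q + a * p with hp1
  have ho1 : Odd (q1 + p1) := by
    have e0 : q1 + p1 = (a + b) * (q + p) - 2 * (b * p) := by rw [hq1, hp1]; ring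
    rw [e0]
    exact (hab.mul h0).sub_even (even_two_mul _)
  have e2 : F q1 p1 = F a b * F q p := hF.mul a b q p hab h0
  have hqR : (1 : ℝ) ≤ q := by exact_mod_cast h1
  set v : ℝ := (q : ℝ) * x - p with hv
  have hv2 : |v| ≤ kap c T / T := h3.trans (by gcongr; linarith)
  have hq1R : (q1 : ℝ) = q * (a - b * x) + b * v := by
    rw [hq1, hv]
    push_cast
    ring
  have hv' : (q1 : ℝ) * x' - p1 = N * v / (a - b * x) := by
    rw [hx'def, hN, hv, hq1, hp1]
    push_cast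
    field_simp
    ring
  have hbv : |(b : ℝ) * v| ≤ |(b : ℝ)| * (kap c T / T) := by
    rw [abs_mul]
    exact mul_le_mul_of_nonneg_left hv2 (abs_nonneg _)
  obtain ⟨hbT, hbT1⟩ := hT3 T (by omega)
  have hq1ne : q1 ≠ 0 := by
    intro h0
    have h5 : (q : ℝ) * (a - b * x) = -(b * v) := by
      have : (q1 : ℝ) = 0 := by exact_mod_cast h0
      rw [this] at hq1R
      linarith
    have h6 : (q : ℝ) * d = |(b : ℝ) * v| := by
      have h7 : |(q : ℝ) * (a - b * x)| = q * d := by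
        rw [abs_mul, abs_of_pos (by linarith : (0 : ℝ) < q), ← hd]
      rw [← h7, h5, abs_neg]
    nlinarith
  set T' : ℕ := C1 * T with hT'
  have hC1n : 1 ≤ C1 := by exact_mod_cast hC1pos
  have hT'2 : T2 ≤ T' := by
    rw [hT']
    nlinarith
  have hT'R : (T' : ℝ) = C1 * T := by rw [hT']; push_cast; ring
  have hTT' : (T : ℝ) ≤ T' := by rw [hT'R]; nlinarith
  have habs : |(q1 : ℝ)| ≤ T' := by
    rw [hq1R, hT'R]
    refine (abs_add_le _ _).trans ?_
    rw [abs_mul, abs_of_pos (by linarith : (0 : ℝ) < q), ← hd]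
    have h5 : |(b : ℝ) * v| ≤ 1 := by linarith
    nlinarith [abs_nonneg (b : ℝ)]
  have hv'le : |(q1 : ℝ) * x' - p1| ≤ (K : ℕ) * kap c T' / T' := by
    have hkT' : kap c T ≤ kap c T' := kap_mono hc hTR hTT'
    rw [hv', abs_div, ← hd, abs_mul, abs_of_pos hNpos, hT'R, div_le_div_iff₀ hdpos (by positivity)]
    have h5 : N * C1 ≤ K * d := by
      have : N * C1 / d ≤ K := hK0.trans (by rw [hK]; push_cast; linarith)
      rwa [div_le_iff₀ hdpos] at this
    have h6 : |v| * T ≤ kap c T := by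
      rw [le_div_iff₀ (by linarith)] at hv2
      exact hv2
    rw [← hT'R]
    calc N * |v| * T' = (N * C1) * (|v| * T) := by rw [hT'R]; ring
      _ ≤ (K * d) * kap c T' := mul_le_mul h5 (h6.trans hkT') (by positivity) (by positivity)
      _ = K * kap c T' * d := by ring
  have e3 : F q1 p1 = FF2 F c x' := by
    rcases lt_or_gt_of_ne hq1ne with hneg | hpos
    · rw [← hF.neg ho1]
      refine hT2 T' hT'2 (-q1) (-p1) ?_ ⟨by omega, ?_, ?_⟩
      · have : -q1 + -p1 = -(q1 + p1) := by ring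
        rw [this]
        exact ho1.neg
      · push_cast
        exact (neg_le_abs _).trans habs
      · push_cast
        rw [show (-(q1 : ℝ)) * x' - -(p1 : ℝ) = -((q1 : ℝ) * x' - p1) by ring, abs_neg]
        exact hv'le
    · refine hT2 T' hT'2 q1 p1 ho1 ⟨hpos, ?_, hv'le⟩
      exact (le_abs_self _).trans habs
  rw [← e3, e2, e1]

end Pool.Agent.OddOmega.Gen
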