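import Mathlib

/-!
Second moment of the divisor function over norms of primitive Gaussian integers.
-/

namespace Pool.Agent.OddOmega

/-- the norm as a natural number -/
def nn (z : GaussianInt) : ℕ := z.norm.natAbs

lemma nn_mul (z w : GaussianInt) : nn (z * w) = nn z * nn w := by
  unfold nn
  rw [Zsqrtd.norm_mul, Int.natAbs_mul]

lemma nn_eq (z : GaussianInt) : (nn z : ℤ) = z.re ^ 2 + z.im ^ 2 := by
  unfold nn
  rw [GaussianInt.abs_natCast_norm, Zsqrtd.norm_def]
  ring

lemma nn_pos {z : GaussianInt} (hz : z ≠ 0) : 0 < nn z := by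
  unfold nn
  exact Int.natAbs_pos.mpr (fun h => hz (GaussianInt.norm_eq_zero.mp h))

lemma nn_eq_one {z : GaussianInt} : nn z = 1 ↔ IsUnit z := Zsqrtd.norm_eq_one_iff

/-- primitive -/
def Prim (z : GaussianInt) : Prop := Int.gcd z.re z.im = 1

lemma Prim.ne_zero {z : GaussianInt} (h : Prim z) : z ≠ 0 := by
  rintro rfl
  unfold Prim at h
  simp at h

/-- an integer dividing a primitive Gaussian integer is a unit -/
lemma Prim.dvd_one {z : GaussianInt} (h : Prim z) {k : ℤ} (hk : (k : GaussianInt) ∣ z) : k ∣ 1 := by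
  rw [Zsqrtd.intCast_dvd] at hk
  have h1 : k ∣ (Int.gcd z.re z.im : ℤ) := Int.dvd_coe_gcd hk.1 hk.2
  rw [h] at h1
  simpa using h1

lemma Prim.of_dvd {z w : GaussianInt} (h : Prim z) (hw : w ∣ z) : Prim w := by
  unfold Prim
  have h1 : ((Int.gcd w.re w.im : ℤ) : GaussianInt) ∣ w := by
    rw [Zsqrtd.intCast_dvd]
    exact ⟨Int.gcd_dvd_left _ _, Int.gcd_dvd_right _ _⟩
  have h2 := h.dvd_one (h1.trans hw)
  have h3 : (Int.gcd w.re w.im) ∣ 1 := by
    have := Int.natAbs_dvd_natAbs.mpr h2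
    simpa using this
  exact Nat.dvd_one.mp h3

/-- a prime divisor of the norm of a primitive Gaussian integer is the norm of a divisor -/
lemma exists_prime_div {z : GaussianInt} (h : Prim z) {p : ℕ} (hp : p.Prime) (hd : p ∣ nn z) :
    ∃ y : GaussianInt, y ∣ z ∧ nn y = p := by
  set y : GaussianInt := EuclideanDomain.gcd z (p : GaussianInt) with hy
  have hyz : y ∣ z := EuclideanDomain.gcd_dvd_left _ _
  have hyp : y ∣ (p : GaussianInt) := EuclideanDomain.gcd_dvd_right _ _
  have hnp : nn (p : GaussianInt) = p ^ 2 := by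
    unfold nn
    rw [Zsqrtd.norm_natCast, Int.natAbs_mul, sq]
    simp
  have hdiv : nn y ∣ p ^ 2 := by
    obtain ⟨k, hk⟩ := hyp
    rw [← hnp, hk, nn_mul]
    exact dvd_mul_right _ _
  rw [Nat.dvd_prime_pow hp] at hdiv
  obtain ⟨m, hm, hny⟩ := hdiv
  have hp1 : ¬ ((p : ℤ) ∣ 1) := by
    intro h1
    have h2 : p ∣ 1 := by exact_mod_cast h1
    exact hp.one_lt.ne' (Nat.dvd_one.mp h2)
  interval_cases m
  · -- unit
    exfalso
    rw [pow_zero] at hny
    have hu : IsUnit y := nn_eq_one.mp hny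
    have hb := EuclideanDomain.gcd_eq_gcd_ab z (p : GaussianInt)
    rw [← hy] at hb
    obtain ⟨u, hu⟩ := hu
    -- z a + p b = u, a unit
    set a := EuclideanDomain.gcdA z (p : GaussianInt)
    set b := EuclideanDomain.gcdB z (p : GaussianInt)
    have h1 : (z * a + p * b) * star (z * a + p * b) = 1 := by
      rw [← hb, ← Zsqrtd.norm_eq_mul_conj]
      have h2 : y.norm = 1 := by
        have h3 : (nn y : ℤ) = 1 := by rw [hny]; rfl
        unfold nn at h3
        rwa [GaussianInt.abs_natCast_norm] at h3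
      rw [h2]
      simp
    have h3 : (p : GaussianInt) ∣ z * star z := by
      rw [← Zsqrtd.norm_eq_mul_conj]
      have h4 : (p : ℤ) ∣ z.norm := by
        rw [← GaussianInt.abs_natCast_norm]
        exact_mod_cast hd
      obtain ⟨k, hk⟩ := h4
      rw [hk]
      push_cast
      exact dvd_mul_right _ _
    have h5 : (p : GaussianInt) ∣ 1 := by
      rw [← h1]
      have h6 : (z * a + p * b) * star (z * a + p * b) =
          (z * star z) * (a * star a) + p * (b * star (z * a + p * b) + z * a * star b) := by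
        rw [star_add, star_mul, star_mul]
        have h7 : star (p : GaussianInt) = p := by
          ext <;> simp
        rw [h7]
        ring
      rw [h6]
      exact dvd_add (h3.mul_right _) (dvd_mul_right _ _)
    apply hp1
    have h8 : ((p : ℤ) : GaussianInt) ∣ ((1 : ℤ) : GaussianInt) := by
      push_cast
      exact h5
    exact (Zsqrtd.intCast_dvd_intCast _ _).mp h8
  · exact ⟨y, hyz, by rw [hny, pow_one]⟩
  · exfalso
    obtain ⟨k, hk⟩ := hyp
    have h1 : nn k = 1 := by
      have h2 : p ^ 2 * nn k = p ^ 2 * 1 := by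
        rw [← hny, ← nn_mul, ← hk, hnp, hny]
        ring
      exact Nat.eq_of_mul_eq_mul_left (by have := hp.pos; positivity) h2
    obtain ⟨u, hu⟩ := nn_eq_one.mp h1
    have h2 : (p : GaussianInt) ∣ z := by
      have h3 : (p : GaussianInt) ∣ y := by
        refine ⟨((u⁻¹ : (GaussianInt)ˣ) : GaussianInt), ?_⟩
        rw [hk, ← hu, mul_assoc, Units.mul_inv, mul_one]
      exact h3.trans hyz
    apply hp1
    have h4 : ((p : ℤ) : GaussianInt) ∣ z := by
      push_cast
      exact h2
    exact h.dvd_one h4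

/-- every divisor of the norm of a primitive Gaussian integer is the norm of a divisor -/
lemma exists_div : ∀ d : ℕ, 0 < d → ∀ z : GaussianInt, Prim z → d ∣ nn z →
    ∃ y : GaussianInt, y ∣ z ∧ nn y = d := by
  intro d
  induction d using Nat.strong_induction_on with
  | _ d ih =>
    intro hd z hz hdz
    rcases Nat.eq_or_lt_of_le (Nat.succ_le_of_lt hd) with h1 | h1
    · refine ⟨1, one_dvd _, ?_⟩
      have : d = 1 := h1.symm
      rw [this]
      exact nn_eq_one.mpr isUnit_one
    · have hne : d ≠ 1 := by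
        have : 1 < d := h1
        omega
      have hp := Nat.minFac_prime hne
      set p := d.minFac with hpdef
      obtain ⟨d1, hd1⟩ : p ∣ d := Nat.minFac_dvd d
      obtain ⟨π, hπ, hnπ⟩ := exists_prime_div hz hp ((Nat.minFac_dvd d).trans hdz)
      obtain ⟨z1, hz1⟩ := hπ
      have hz1' : Prim z1 := hz.of_dvd ⟨π, by rw [hz1]; ring⟩
      have hd1pos : 0 < d1 := by
        rcases Nat.eq_zero_or_pos d1 with h | h
        · rw [h, mul_zero] at hd1
          omega
        · exact h
      have hd1lt : d1 < d := by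
        have := hp.one_lt
        rw [hd1]
        nlinarith
      have hdz1 : d1 ∣ nn z1 := by
        rw [hz1, nn_mul, hnπ, hd1] at hdz
        exact Nat.dvd_of_mul_dvd_mul_left hp.pos hdz
      obtain ⟨y1, hy1, hny1⟩ := ih d1 hd1lt hd1pos z1 hz1' hdz1
      refine ⟨π * y1, ?_, ?_⟩
      · rw [hz1]
        exact mul_dvd_mul_left _ hy1
      · rw [nn_mul, hnπ, hny1, ← hd1]

/-- nonzero Gaussian integers of norm at most `X` -/
lemma finite_ball (X : ℕ) : {z : GaussianInt | z ≠ 0 ∧ nn z ≤ X}.Finite := by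
  have h1 : {z : GaussianInt | z ≠ 0 ∧ nn z ≤ X} ⊆
      (fun w : ℤ × ℤ => (⟨w.1, w.2⟩ : GaussianInt)) '' (Set.Icc (-(X : ℤ)) X ×ˢ Set.Icc (-(X : ℤ)) X) := by
    rintro z ⟨-, hz⟩
    refine ⟨(z.re, z.im), ?_, rfl⟩
    have h2 : z.re ^ 2 + z.im ^ 2 ≤ X := by
      rw [← nn_eq]
      exact_mod_cast hz
    have hX : (0 : ℤ) ≤ X := by positivity
    simp only [Set.mem_prod, Set.mem_Icc]
    refine ⟨⟨?_, ?_⟩, ⟨?_, ?_⟩⟩ <;> nlinarith [sq_nonneg z.re, sq_nonneg z.im]
  exact ((Set.finite_Icc _ _).prod (Set.finite_Icc _ _)).image _ |>.subset h1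

/-- nonzero Gaussian integers of norm at most `X` -/
noncomputable def ball (X : ℕ) : Finset GaussianInt := (finite_ball X).toFinset

lemma mem_ball {X : ℕ} {z : GaussianInt} : z ∈ ball X ↔ z ≠ 0 ∧ nn z ≤ X := by
  unfold ball
  rw [Set.Finite.mem_toFinset]
  rfl

lemma card_ball_le (X : ℕ) : (ball X).card ≤ 9 * X := by
  rcases Nat.eq_zero_or_pos X with h0 | hpos
  · have : ball X = ∅ := by
      rw [Finset.eq_empty_iff_forall_notMem]
      intro z hz
      rw [mem_ball] at hz
      have := nn_pos hz.1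
      omega
    rw [this]
    simp
  · set s : ℕ := Nat.sqrt X with hs
    have hs1 : 1 ≤ s := by
      rw [hs]
      exact Nat.sqrt_pos.mpr hpos
    have h1 : ball X ⊆ ((Finset.Icc (-(s : ℤ)) s) ×ˢ (Finset.Icc (-(s : ℤ)) s)).image
        (fun w : ℤ × ℤ => (⟨w.1, w.2⟩ : GaussianInt)) := by
      intro z hz
      rw [mem_ball] at hz
      rw [Finset.mem_image]
      refine ⟨(z.re, z.im), ?_, rfl⟩
      have h2 : z.re ^ 2 + z.im ^ 2 ≤ X := by
        rw [← nn_eq]
        exact_mod_cast hz.2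
      have h3 : ∀ a : ℤ, a ^ 2 ≤ X → a ∈ Finset.Icc (-(s : ℤ)) s := by
        intro a ha
        have h4 : a.natAbs ^ 2 ≤ X := by
          have : ((a.natAbs ^ 2 : ℕ) : ℤ) ≤ X := by
            push_cast
            rw [sq_abs]
            exact ha
          exact_mod_cast this
        have h5 : a.natAbs ≤ s := by
          rw [hs]
          exact Nat.le_sqrt'.mpr h4
        rw [Finset.mem_Icc]
        omega
      rw [Finset.mem_product]
      exact ⟨h3 _ (by nlinarith [sq_nonneg z.im]), h3 _ (by nlinarith [sq_nonneg z.re])⟩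
    refine (Finset.card_le_card h1).trans (Finset.card_image_le.trans ?_)
    rw [Finset.card_product, Int.card_Icc]
    have h2 : ((s : ℤ) + 1 - -(s : ℤ)).toNat = 2 * s + 1 := by omega
    rw [h2]
    have h3 : s * s ≤ X := Nat.sqrt_le X
    nlinarith

/-- the sum of the inverse norms -/
lemma sum_inv_norm (X : ℕ) :
    ∑ z ∈ ball X, (1 / (nn z : ℝ)) ≤ 18 * ((Nat.log 2 X : ℝ) + 1) := by
  classical
  have hmaps : ∀ z ∈ ball X, Nat.log 2 (nn z) ∈ Finset.range (Nat.log 2 X + 1) := by
    intro z hz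
    rw [mem_ball] at hz
    rw [Finset.mem_range]
    have := Nat.log_mono_right (b := 2) hz.2
    omega
  rw [← Finset.sum_fiberwise_of_maps_to hmaps]
  have h1 : ∀ k ∈ Finset.range (Nat.log 2 X + 1),
      ∑ z ∈ (ball X).filter (fun z => Nat.log 2 (nn z) = k), (1 / (nn z : ℝ)) ≤ 18 := by
    intro k _
    have h2 : ∀ z ∈ (ball X).filter (fun z => Nat.log 2 (nn z) = k),
        1 / (nn z : ℝ) ≤ 1 / (2 : ℝ) ^ k := by
      intro z hz
      rw [Finset.mem_filter, mem_ball] at hz
      have h3 : 2 ^ k ≤ nn z := by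
        rw [← hz.2]
        exact Nat.pow_log_le_self 2 (nn_pos hz.1.1).ne'
      apply one_div_le_one_div_of_le (by positivity)
      exact_mod_cast h3
    have h4 : ((ball X).filter (fun z => Nat.log 2 (nn z) = k)).card ≤ 9 * 2 ^ (k + 1) := by
      refine (Finset.card_le_card ?_).trans (card_ball_le (2 ^ (k + 1)))
      intro z hz
      rw [Finset.mem_filter, mem_ball] at hz
      rw [mem_ball]
      refine ⟨hz.1.1, ?_⟩
      have := Nat.lt_pow_succ_log_self (b := 2) (by norm_num) (nn z)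
      rw [hz.2] at this
      exact this.le
    calc ∑ z ∈ (ball X).filter (fun z => Nat.log 2 (nn z) = k), (1 / (nn z : ℝ))
        ≤ ∑ z ∈ (ball X).filter (fun z => Nat.log 2 (nn z) = k), (1 / (2 : ℝ) ^ k) :=
          Finset.sum_le_sum h2
      _ = ((ball X).filter (fun z => Nat.log 2 (nn z) = k)).card * (1 / (2 : ℝ) ^ k) := by
          rw [Finset.sum_const, nsmul_eq_mul]
      _ ≤ (9 * 2 ^ (k + 1)) * (1 / (2 : ℝ) ^ k) := by
          apply mul_le_mul_of_nonneg_right _ (by positivity)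
          exact_mod_cast h4
      _ = 18 := by
          rw [pow_succ]
          field_simp
          norm_num
  calc _ ≤ ∑ _k ∈ Finset.range (Nat.log 2 X + 1), (18 : ℝ) := Finset.sum_le_sum h1
    _ = 18 * ((Nat.log 2 X : ℝ) + 1) := by
      rw [Finset.sum_const, Finset.card_range, nsmul_eq_mul]
      push_cast
      ring

open Classical in
/-- the divisors of a Gaussian integer -/
noncomputable def gdiv (z : GaussianInt) : Finset GaussianInt := (ball (nn z)).filter (fun y => y ∣ z)

lemma mem_gdiv {z y : GaussianInt} (hz : z ≠ 0) : y ∈ gdiv z ↔ y ∣ z := by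
  classical
  unfold gdiv
  simp only [Finset.mem_filter, mem_ball]
  constructor
  · exact fun h => h.2
  · intro h
    refine ⟨⟨?_, ?_⟩, h⟩
    · rintro rfl
      exact hz (zero_dvd_iff.mp h)
    · obtain ⟨k, hk⟩ := h
      rw [hk, nn_mul]
      have hk0 : k ≠ 0 := by
        rintro rfl
        rw [mul_zero] at hk
        exact hz hk
      exact Nat.le_mul_of_pos_right _ (nn_pos hk0)

lemma tau_le {z : GaussianInt} (hz : Prim z) : (Nat.divisors (nn z)).card ≤ (gdiv z).card := by
  classical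
  have hz0 := hz.ne_zero
  have h1 : Nat.divisors (nn z) ⊆ (gdiv z).image nn := by
    intro d hd
    rw [Nat.mem_divisors] at hd
    have hdpos : 0 < d := Nat.pos_of_dvd_of_pos hd.1 (nn_pos hz0)
    obtain ⟨y, hy, hny⟩ := exists_div d hdpos z hz hd.1
    rw [Finset.mem_image]
    exact ⟨y, (mem_gdiv hz0).mpr hy, hny⟩
  exact (Finset.card_le_card h1).trans Finset.card_image_le

/-- refinement of two factorisations -/
lemma refine4 {z y w : GaussianInt} (hz : z ≠ 0) (hy : y ∣ z) (hw : w ∣ z) :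
    ∃ a b c f : GaussianInt, y = a * b ∧ w = a * c ∧ z = a * b * c * f := by
  set g := EuclideanDomain.gcd y w with hg
  have hy0 : y ≠ 0 := by
    rintro rfl
    exact hz (zero_dvd_iff.mp hy)
  have hg0 : g ≠ 0 := by
    intro h
    rw [hg, EuclideanDomain.gcd_eq_zero_iff] at h
    exact hy0 h.1
  obtain ⟨b, hb⟩ : g ∣ y := EuclideanDomain.gcd_dvd_left _ _
  obtain ⟨c, hc⟩ : g ∣ w := EuclideanDomain.gcd_dvd_right _ _
  have hbez := EuclideanDomain.gcd_eq_gcd_ab y w
  rw [← hg] at hbez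
  have hcop : IsCoprime b c := by
    refine ⟨EuclideanDomain.gcdA y w, EuclideanDomain.gcdB y w, ?_⟩
    apply mul_left_cancel₀ hg0
    calc g * (EuclideanDomain.gcdA y w * b + EuclideanDomain.gcdB y w * c)
        = (g * b) * EuclideanDomain.gcdA y w + (g * c) * EuclideanDomain.gcdB y w := by ring
      _ = y * EuclideanDomain.gcdA y w + w * EuclideanDomain.gcdB y w := by rw [← hb, ← hc]
      _ = g := hbez.symm
      _ = g * 1 := by ring
  obtain ⟨z1, hz1⟩ : g ∣ z := (Dvd.intro b hb.symm).trans hy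
  have h1 : b ∣ z1 := by
    rw [hb, hz1] at hy
    exact (mul_dvd_mul_iff_left hg0).mp hy
  have h2 : c ∣ z1 := by
    rw [hc, hz1] at hw
    exact (mul_dvd_mul_iff_left hg0).mp hw
  obtain ⟨f, hf⟩ := hcop.mul_dvd h1 h2
  exact ⟨g, b, c, f, hb, hc, by rw [hz1, hf]; ring⟩

/-- the number of quadruples with product of norm at most `X` -/
lemma card_quad (X : ℕ) :
    ((((ball X ×ˢ ball X) ×ˢ (ball X ×ˢ ball X)).filter
      (fun r => nn r.1.1 * nn r.1.2 * nn r.2.1 * nn r.2.2 ≤ X)).card : ℝ) ≤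
      9 * X * (18 * ((Nat.log 2 X : ℝ) + 1)) ^ 3 := by
  classical
  -- fibre over the first three coordinates
  set Q := ((ball X ×ˢ ball X) ×ˢ (ball X ×ˢ ball X)).filter
      (fun r => nn r.1.1 * nn r.1.2 * nn r.2.1 * nn r.2.2 ≤ X) with hQ
  set R := (ball X ×ˢ ball X) ×ˢ ball X with hR
  have hmaps : ∀ r ∈ Q, ((r.1, r.2.1) : (GaussianInt × GaussianInt) × GaussianInt) ∈ R := by
    intro r hr
    rw [hQ, Finset.mem_filter, Finset.mem_product, Finset.mem_product, Finset.mem_product] at hr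
    rw [hR, Finset.mem_product, Finset.mem_product]
    exact ⟨hr.1.1, hr.1.2.1⟩
  have hcard := Finset.card_eq_sum_card_fiberwise hmaps
  rw [hcard]
  push_cast
  have hfib : ∀ s ∈ R, ((Q.filter (fun r => ((r.1, r.2.1) : (GaussianInt × GaussianInt) × GaussianInt) = s)).card : ℝ) ≤
      9 * X * ((1 / (nn s.1.1 : ℝ)) * (1 / (nn s.1.2 : ℝ)) * (1 / (nn s.2 : ℝ))) := by
    intro s hs
    rw [hR, Finset.mem_product, Finset.mem_product, mem_ball, mem_ball, mem_ball] at hs
    obtain ⟨⟨⟨ha, -⟩, ⟨hb, -⟩⟩, ⟨hc, -⟩⟩ := hs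
    have pa := nn_pos ha
    have pb := nn_pos hb
    have pc := nn_pos hc
    set m := nn s.1.1 * nn s.1.2 * nn s.2 with hm
    have hmpos : 0 < m := by positivity
    have h1 : (Q.filter (fun r => ((r.1, r.2.1) : (GaussianInt × GaussianInt) × GaussianInt) = s)).card ≤
        (ball (X / m)).card := by
      refine Finset.card_le_card_of_injOn (fun r => r.2.2) ?_ ?_
      · intro r hr
        simp only [Finset.coe_filter, Set.mem_ofPred_eq] at hr
        obtain ⟨hr1, hr2⟩ := hr
        rw [hQ, Finset.mem_filter, Finset.mem_product, Finset.mem_product, Finset.mem_product] at hr1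
        rw [Finset.mem_coe, mem_ball]
        refine ⟨(mem_ball.mp hr1.1.2.2).1, ?_⟩
        rw [Nat.le_div_iff_mul_le hmpos]
        have h2 : r.1.1 = s.1.1 ∧ r.1.2 = s.1.2 ∧ r.2.1 = s.2 := by
          rw [← hr2]
          exact ⟨rfl, rfl, rfl⟩
        have h3 := hr1.2
        rw [h2.1, h2.2.1, h2.2.2] at h3
        rw [hm]
        linarith
      · intro r hr r' hr' h
        simp only [Finset.coe_filter, Set.mem_ofPred_eq] at hr hr'
        have h2 := hr.2.trans hr'.2.symm
        simp only [Prod.mk.injEq] at h2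
        simp only at h
        exact Prod.ext h2.1 (Prod.ext h2.2 h)
    have h2 : ((Q.filter (fun r => ((r.1, r.2.1) : (GaussianInt × GaussianInt) × GaussianInt) = s)).card : ℝ) ≤
        9 * ((X / m : ℕ) : ℝ) := by
      exact_mod_cast h1.trans (card_ball_le _)
    refine h2.trans ?_
    have h3 : ((X / m : ℕ) : ℝ) ≤ X / m := Nat.cast_div_le
    have h4 : (1 / (nn s.1.1 : ℝ)) * (1 / (nn s.1.2 : ℝ)) * (1 / (nn s.2 : ℝ)) = 1 / (m : ℝ) := by
      rw [hm]
      push_cast
      rw [one_div_mul_one_div, one_div_mul_one_div]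
    rw [h4]
    calc 9 * ((X / m : ℕ) : ℝ) ≤ 9 * (X / m) := by linarith
      _ = 9 * X * (1 / m) := by ring
  refine (Finset.sum_le_sum hfib).trans ?_
  rw [← Finset.mul_sum]
  have h5 : ∑ s ∈ R, (1 / (nn s.1.1 : ℝ)) * (1 / (nn s.1.2 : ℝ)) * (1 / (nn s.2 : ℝ)) =
      (∑ z ∈ ball X, (1 / (nn z : ℝ))) ^ 3 := by
    rw [hR, Finset.sum_product, Finset.sum_product]
    rw [pow_succ, sq, Finset.sum_mul_sum, Finset.sum_mul]
    apply Finset.sum_congr rfl
    intro a _
    rw [Finset.sum_mul]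
    apply Finset.sum_congr rfl
    intro b _
    rw [Finset.mul_sum]
  rw [h5]
  have h6 := sum_inv_norm X
  have h7 : 0 ≤ ∑ z ∈ ball X, (1 / (nn z : ℝ)) := Finset.sum_nonneg (fun z _ => by positivity)
  gcongr

open Classical in
/-- **second moment** -/
theorem moment_prim (X : ℕ) :
    ∑ z ∈ (ball X).filter Prim, ((Nat.divisors (nn z)).card : ℝ) ^ 2 ≤
      9 * X * (18 * ((Nat.log 2 X : ℝ) + 1)) ^ 3 := by
  refine le_trans ?_ (card_quad X)
  set Q := ((ball X ×ˢ ball X) ×ˢ (ball X ×ˢ ball X)).filter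
      (fun r => nn r.1.1 * nn r.1.2 * nn r.2.1 * nn r.2.2 ≤ X) with hQ
  -- triples
  set T := ((ball X).filter Prim).sigma (fun z => (gdiv z) ×ˢ (gdiv z)) with hT
  have h1 : ∑ z ∈ (ball X).filter Prim, ((Nat.divisors (nn z)).card : ℝ) ^ 2 ≤ (T.card : ℝ) := by
    rw [hT, Finset.card_sigma]
    push_cast
    apply Finset.sum_le_sum
    intro z hz
    rw [Finset.mem_filter] at hz
    rw [Finset.card_product]
    push_cast
    have h2 : ((Nat.divisors (nn z)).card : ℝ) ≤ (gdiv z).card := by exact_mod_cast tau_le hz.2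
    rw [sq]
    gcongr
  refine h1.trans ?_
  have h2 : T ⊆ Q.image (fun r => (⟨r.1.1 * r.1.2 * r.2.1 * r.2.2, (r.1.1 * r.1.2, r.1.1 * r.2.1)⟩ :
      (_ : GaussianInt) × (GaussianInt × GaussianInt))) := by
    rintro ⟨z, y, w⟩ ht
    rw [hT, Finset.mem_sigma, Finset.mem_filter, mem_ball, Finset.mem_product] at ht
    obtain ⟨⟨⟨hz0, hzX⟩, -⟩, hy, hw⟩ := ht
    simp only at hz0 hzX hy hw
    rw [mem_gdiv hz0] at hy hw
    obtain ⟨a, b, c, f, h3, h4, h5⟩ := refine4 hz0 hy hw
    have hn : nn z = nn a * nn b * nn c * nn f := by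
      rw [h5, nn_mul, nn_mul, nn_mul]
    have ha0 : a ≠ 0 := by rintro rfl; apply hz0; rw [h5]; ring
    have hb0 : b ≠ 0 := by rintro rfl; apply hz0; rw [h5]; ring
    have hc0 : c ≠ 0 := by rintro rfl; apply hz0; rw [h5]; ring
    have hf0 : f ≠ 0 := by rintro rfl; apply hz0; rw [h5]; ring
    have pa := nn_pos ha0
    have pb := nn_pos hb0
    have pc := nn_pos hc0
    have pf := nn_pos hf0
    have hprod : nn a * nn b * nn c * nn f ≤ X := by rw [← hn]; exact hzX
    rw [Finset.mem_image]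
    refine ⟨((a, b), (c, f)), ?_, ?_⟩
    · rw [hQ, Finset.mem_filter, Finset.mem_product, Finset.mem_product, Finset.mem_product,
        mem_ball, mem_ball, mem_ball, mem_ball]
      have e1 : nn a ≤ nn a * nn b * nn c * nn f := by
        calc nn a = nn a * 1 * 1 * 1 := by ring
          _ ≤ _ := by gcongr <;> omega
      have e2 : nn b ≤ nn a * nn b * nn c * nn f := by
        calc nn b = 1 * nn b * 1 * 1 := by ring
          _ ≤ _ := by gcongr <;> omega
      have e3 : nn c ≤ nn a * nn b * nn c * nn f := by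
        calc nn c = 1 * 1 * nn c * 1 := by ring
          _ ≤ _ := by gcongr <;> omega
      have e4 : nn f ≤ nn a * nn b * nn c * nn f := by
        calc nn f = 1 * 1 * 1 * nn f := by ring
          _ ≤ _ := by gcongr <;> omega
      exact ⟨⟨⟨⟨ha0, e1.trans hprod⟩, ⟨hb0, e2.trans hprod⟩⟩, ⟨⟨hc0, e3.trans hprod⟩, ⟨hf0, e4.trans hprod⟩⟩⟩, hprod⟩
    · simp only
      rw [← h5, ← h3, ← h4]
  exact_mod_cast (Finset.card_le_card h2).trans Finset.card_image_le

end Pool.Agent.OddOmega
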