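import Mathlib
import Pool.Agent.Lib_MP_f1a94e_h8.Moment1
import Pool.Agent.Lib_MP_f1a94e_nt.Defs

/-!
Second moment over adjacent pairs.
-/

namespace Pool.Agent.OddOmega

open Pool.Agent.ParityQuad

/-- the divisor function of the norm of a vector -/
def tv (v : ℤ × ℤ) : ℕ := (Nat.divisors (Nm v).natAbs).card

/-- vector to Gaussian integer -/
def toG (v : ℤ × ℤ) : GaussianInt := ⟨v.1, v.2⟩

lemma nn_toG (v : ℤ × ℤ) : nn (toG v) = (Nm v).natAbs := by
  have h := nn_eq (toG v)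
  have h2 : (toG v).re ^ 2 + (toG v).im ^ 2 = Nm v := rfl
  rw [h2] at h
  omega

lemma toG_inj : Function.Injective toG := by
  intro v w h
  have h1 := congrArg Zsqrtd.re h
  have h2 := congrArg Zsqrtd.im h
  exact Prod.ext h1 h2

/-- the bound for the second moment -/
noncomputable def Mb (X : ℕ) (L : ℝ) : ℝ := 9 * X * (18 * L) ^ 3

/-- primitive vector -/
def PV (v : ℤ × ℤ) : Prop := Int.gcd v.1 v.2 = 1

lemma moment_vec (V : Finset (ℤ × ℤ)) (X : ℕ) {L : ℝ} (hL : (Nat.log 2 X : ℝ) + 1 ≤ L)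
    (h : ∀ v ∈ V, PV v ∧ Nm v ≤ X) : ∑ v ∈ V, (tv v : ℝ) ^ 2 ≤ Mb X L := by
  classical
  have h1 : ∑ v ∈ V, (tv v : ℝ) ^ 2 = ∑ z ∈ V.image toG, ((Nat.divisors (nn z)).card : ℝ) ^ 2 := by
    rw [Finset.sum_image (fun a _ b _ hab => toG_inj hab)]
    apply Finset.sum_congr rfl
    intro v _
    rw [nn_toG]
    rfl
  have h2 : V.image toG ⊆ (ball X).filter Prim := by
    intro z hz
    rw [Finset.mem_image] at hz
    obtain ⟨v, hv, rfl⟩ := hz
    obtain ⟨hp, hX⟩ := h v hv
    have hprim : Prim (toG v) := hp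
    rw [Finset.mem_filter, mem_ball]
    refine ⟨⟨hprim.ne_zero, ?_⟩, hprim⟩
    rw [nn_toG]
    have : 0 ≤ Nm v := by unfold Nm; positivity
    omega
  rw [h1]
  calc ∑ z ∈ V.image toG, ((Nat.divisors (nn z)).card : ℝ) ^ 2
      ≤ ∑ z ∈ (ball X).filter Prim, ((Nat.divisors (nn z)).card : ℝ) ^ 2 :=
        Finset.sum_le_sum_of_subset_of_nonneg h2 (fun _ _ _ => by positivity)
    _ ≤ 9 * X * (18 * ((Nat.log 2 X : ℝ) + 1)) ^ 3 := moment_prim X
    _ ≤ Mb X L := by
      unfold Mb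
      gcongr

lemma PV_of_adj {z w : ℤ × ℤ} (h : |dt z w| = 1) : PV z ∧ PV w := by
  have key : ∀ z w : ℤ × ℤ, |dt z w| = 1 → PV z := by
    intro z w h
    unfold PV
    have h1 : (Int.gcd z.1 z.2 : ℤ) ∣ dt z w := by
      unfold dt
      exact dvd_sub ((Int.gcd_dvd_left _ _).mul_right _) ((Int.gcd_dvd_right _ _).mul_right _)
    have h2 : (Int.gcd z.1 z.2 : ℤ) ∣ 1 := by
      rw [← h]
      exact (dvd_abs _ _).mpr h1
    have h3 : (Int.gcd z.1 z.2) ∣ 1 := by exact_mod_cast h2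
    exact Nat.dvd_one.mp h3
  refine ⟨key z w h, key w z ?_⟩
  have : dt w z = -dt z w := by unfold dt; ring
  rw [this, abs_neg, h]

/-- two vectors adjacent to `w` with the same determinant have dot products congruent modulo the
norm of `w` -/
lemma adj_cong {z z' w : ℤ × ℤ} (h : |dt z w| = 1) (h2 : dt z w = dt z' w) :
    Nm w ∣ dp z w - dp z' w ∧ (dp z w = dp z' w → z = z') := by
  set s := dt z w with hs
  have hss : s * s = 1 := by
    have := sq_abs s
    rw [h] at this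
    linarith
  have a1 : w.1 * dp z w = z.1 * Nm w - s * w.2 := by
    rw [hs]; unfold dp dt Nm; ring
  have a2 : w.2 * dp z w = z.2 * Nm w + s * w.1 := by
    rw [hs]; unfold dp dt Nm; ring
  have b1 : w.1 * dp z' w = z'.1 * Nm w - s * w.2 := by
    rw [h2]; unfold dp dt Nm; ring
  have b2 : w.2 * dp z' w = z'.2 * Nm w + s * w.1 := by
    rw [h2]; unfold dp dt Nm; ring
  have hs2 : z.1 * w.2 - z.2 * w.1 = s := rfl
  constructor
  · refine ⟨s * (z.1 * (z.2 - z'.2) - z.2 * (z.1 - z'.1)), ?_⟩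
    have e1 : dp z w - dp z' w = s * s * (dp z w - dp z' w) := by rw [hss, one_mul]
    rw [e1]
    linear_combination (-(s * (dp z w - dp z' w))) * hs2 + (s * z.1) * (a2 - b2) - (s * z.2) * (a1 - b1)
  · intro he
    rw [he] at a1 a2
    have hN : Nm w ≠ 0 := by
      intro h0
      have hw : w.1 ^ 2 + w.2 ^ 2 = 0 := h0
      have hw1 : w.1 = 0 := by nlinarith [sq_nonneg w.1, sq_nonneg w.2]
      have hw2 : w.2 = 0 := by nlinarith [sq_nonneg w.1, sq_nonneg w.2]
      rw [hw1, hw2] at hs2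
      rw [← hs2] at hss
      simp at hss
    have e1 : z.1 = z'.1 := by
      apply mul_right_cancel₀ hN
      linarith
    have e2 : z.2 = z'.2 := by
      apply mul_right_cancel₀ hN
      linarith
    exact Prod.ext e1 e2

lemma Nm_pos' {z w : ℤ × ℤ} (h : |dt z w| = 1) : 0 < Nm z ∧ 0 < Nm w := by
  have h1 : ∀ v : ℤ × ℤ, PV v → 0 < Nm v := by
    intro v hv
    unfold Nm
    rcases eq_or_ne v.1 0 with h0 | h0
    · rcases eq_or_ne v.2 0 with h3 | h3
      · unfold PV at hv
        rw [h0, h3] at hv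
        simp at hv
      · positivity
    · positivity
  exact ⟨h1 z (PV_of_adj h).1, h1 w (PV_of_adj h).2⟩

/-- number of vectors adjacent to `w` with bounded dot product -/
lemma fiber_card (S : Finset (ℤ × ℤ)) (w : ℤ × ℤ) (m : ℤ) (hm : 0 ≤ m)
    (h : ∀ z ∈ S, |dt z w| = 1 ∧ |dp z w| < m * Nm w) : (S.card : ℤ) ≤ 4 * m := by
  classical
  rcases S.eq_empty_or_nonempty with h0 | ⟨z0, hz0⟩
  · rw [h0]
    simpa using hm
  have hN : 0 < Nm w := (Nm_pos' (h z0 hz0).1).2
  have h1 : S.card ≤ ((({1, -1} : Finset ℤ)) ×ˢ (Finset.Ico (-m) m)).card := by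
    refine Finset.card_le_card_of_injOn (fun z => (dt z w, dp z w / Nm w)) ?_ ?_
    · intro z hz
      obtain ⟨h2, h3⟩ := h z hz
      rw [Finset.mem_coe, Finset.mem_product]
      constructor
      · simp only [Finset.mem_insert, Finset.mem_singleton]
        exact eq_or_eq_neg_of_abs_eq h2
      · rw [Finset.mem_Ico]
        rw [abs_lt] at h3
        constructor
        · rw [Int.le_ediv_iff_mul_le hN]
          linarith
        · rw [Int.ediv_lt_iff_lt_mul hN]
          exact h3.2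
    · intro z hz z' hz' he
      simp only [Prod.mk.injEq] at he
      obtain ⟨h2, h3⟩ := h z hz
      obtain ⟨h4, h5⟩ := adj_cong h2 he.1
      apply h5
      obtain ⟨k, hk⟩ := h4
      have e1 := Int.emod_add_mul_ediv (dp z w) (Nm w)
      have e2 := Int.emod_add_mul_ediv (dp z' w) (Nm w)
      have e3 := Int.emod_nonneg (dp z w) hN.ne'
      have e4 := Int.emod_lt_of_pos (dp z w) hN
      have e5 := Int.emod_nonneg (dp z' w) hN.ne'
      have e6 := Int.emod_lt_of_pos (dp z' w) hN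
      have e7 := he.2
      rw [e7] at e1
      have hk0 : k = 0 := by
        have h6 : Nm w * k < Nm w * 1 := by
          rw [← hk]
          linarith
        have h7 : Nm w * (-1) < Nm w * k := by
          rw [← hk]
          linarith
        have h8 : k < 1 := lt_of_mul_lt_mul_left h6 hN.le
        have h9 : -1 < k := lt_of_mul_lt_mul_left h7 hN.le
        omega
      rw [hk0, mul_zero] at hk
      linarith
  rw [Finset.card_product, Int.card_Ico] at h1
  have h2 : ({1, -1} : Finset ℤ).card = 2 := by decide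
  rw [h2] at h1
  have h3 : (m - -m).toNat = (2 * m).toNat := by congr 1; ring
  rw [h3] at h1
  omega

/-- **second moment over adjacent pairs** -/
theorem edge_moment (X : ℕ) (P : Finset ((ℤ × ℤ) × (ℤ × ℤ)))
    (hP : ∀ r ∈ P, |dt r.1 r.2| = 1 ∧ Nm r.1 ≤ Nm r.2 ∧ Nm r.2 ≤ X) :
    ∑ r ∈ P, (tv r.1 : ℝ) * (tv r.2 : ℝ) ≤ 90 * X * (18 * ((Nat.log 2 X : ℝ) + 1)) ^ 3 := by
  classical
  set L : ℝ := (Nat.log 2 X : ℝ) + 1 with hL
  have hL0 : 0 ≤ L := by positivity
  -- part one
  have part1 : ∑ r ∈ P, (tv r.2 : ℝ) ^ 2 ≤ 4 * Mb X L := by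
    have hmaps : ∀ r ∈ P, r.2 ∈ P.image Prod.snd := fun r hr => Finset.mem_image_of_mem _ hr
    rw [← Finset.sum_fiberwise_of_maps_to hmaps]
    have h1 : ∀ w ∈ P.image Prod.snd,
        ∑ r ∈ P.filter (fun r => r.2 = w), (tv r.2 : ℝ) ^ 2 ≤ 4 * (tv w : ℝ) ^ 2 := by
      intro w _
      have h2 : ∑ r ∈ P.filter (fun r => r.2 = w), (tv r.2 : ℝ) ^ 2 =
          ((P.filter (fun r => r.2 = w)).card : ℝ) * (tv w : ℝ) ^ 2 := by
        rw [← nsmul_eq_mul, ← Finset.sum_const]
        apply Finset.sum_congr rfl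
        intro r hr
        rw [(Finset.mem_filter.mp hr).2]
      rw [h2]
      have h3 : (P.filter (fun r => r.2 = w)).card = ((P.filter (fun r => r.2 = w)).image Prod.fst).card := by
        rw [Finset.card_image_of_injOn]
        intro r hr r' hr' he
        simp only [Finset.coe_filter, Set.mem_ofPred_eq] at hr hr'
        exact Prod.ext he (hr.2.trans hr'.2.symm)
      have h4 : (((P.filter (fun r => r.2 = w)).image Prod.fst).card : ℤ) ≤ 4 * 1 := by
        apply fiber_card _ w 1 (by norm_num)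
        intro z hz
        rw [Finset.mem_image] at hz
        obtain ⟨r, hr, rfl⟩ := hz
        rw [Finset.mem_filter] at hr
        obtain ⟨hr1, hr2⟩ := hr
        obtain ⟨h5, h6, h7⟩ := hP r hr1
        rw [hr2] at h5 h6
        refine ⟨h5, ?_⟩
        have h8 := dp_sq_add_dt_sq r.1 w
        have h9 : dt r.1 w ^ 2 = 1 := by rw [← sq_abs, h5]; norm_num
        have hN := Nm_pos' h5
        rw [one_mul]
        apply abs_lt_of_sq_lt_sq _ hN.2.le
        nlinarith
      have h5 : ((P.filter (fun r => r.2 = w)).card : ℝ) ≤ 4 := by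
        rw [h3]
        exact_mod_cast h4
      gcongr
    refine (Finset.sum_le_sum h1).trans ?_
    rw [← Finset.mul_sum]
    apply mul_le_mul_of_nonneg_left _ (by norm_num)
    apply moment_vec _ X le_rfl
    intro v hv
    rw [Finset.mem_image] at hv
    obtain ⟨r, hr, rfl⟩ := hv
    obtain ⟨h5, -, h7⟩ := hP r hr
    exact ⟨(PV_of_adj h5).2, h7⟩
  -- part two
  have part2 : ∑ r ∈ P, (tv r.1 : ℝ) ^ 2 ≤ 16 * Mb X L := by
    have hmaps : ∀ r ∈ P, r.1 ∈ P.image Prod.fst := fun r hr => Finset.mem_image_of_mem _ hr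
    rw [← Finset.sum_fiberwise_of_maps_to hmaps]
    set V := P.image Prod.fst with hV
    set J := Finset.range (Nat.log 2 X + 1) with hJ
    have hVX : ∀ z ∈ V, PV z ∧ 0 < Nm z ∧ Nm z ≤ X := by
      intro z hz
      rw [hV, Finset.mem_image] at hz
      obtain ⟨r, hr, rfl⟩ := hz
      obtain ⟨h5, h6, h7⟩ := hP r hr
      exact ⟨(PV_of_adj h5).1, (Nm_pos' h5).1, h6.trans h7⟩
    have h1 : ∀ z ∈ V,
        ∑ r ∈ P.filter (fun r => r.1 = z), (tv r.1 : ℝ) ^ 2 ≤
          8 * ∑ j ∈ J, (if (4 : ℤ) ^ j * Nm z ≤ X then (2 : ℝ) ^ j * (tv z : ℝ) ^ 2 else 0) := by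
      intro z hz
      obtain ⟨hpz, hNz, hNX⟩ := hVX z hz
      have h2 : ∑ r ∈ P.filter (fun r => r.1 = z), (tv r.1 : ℝ) ^ 2 =
          ((P.filter (fun r => r.1 = z)).card : ℝ) * (tv z : ℝ) ^ 2 := by
        rw [← nsmul_eq_mul, ← Finset.sum_const]
        apply Finset.sum_congr rfl
        intro r hr
        rw [(Finset.mem_filter.mp hr).2]
      rw [h2]
      -- the largest j
      obtain ⟨j0, hj1, hj2⟩ : ∃ j : ℕ, (4 : ℤ) ^ j * Nm z ≤ X ∧ (X : ℤ) < (4 : ℤ) ^ (j + 1) * Nm z := by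
        have hex : ∃ j : ℕ, (X : ℤ) < (4 : ℤ) ^ (j + 1) * Nm z := by
          obtain ⟨j, hj⟩ := pow_unbounded_of_one_lt (X : ℤ) (by norm_num : (1 : ℤ) < 4)
          refine ⟨j, ?_⟩
          have : (4 : ℤ) ^ j ≤ 4 ^ (j + 1) * Nm z := by
            rw [pow_succ]
            have h44 : (0 : ℤ) < 4 ^ j := by positivity
            nlinarith
          linarith
        refine ⟨Nat.find hex, ?_, Nat.find_spec hex⟩
        rcases Nat.eq_zero_or_pos (Nat.find hex) with h0 | hpos
        · rw [h0, pow_zero, one_mul]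
          exact hNX
        · have h3 := Nat.find_min hex (m := Nat.find hex - 1) (by omega)
          push Not at h3
          have h4 : Nat.find hex - 1 + 1 = Nat.find hex := by omega
          rwa [h4] at h3
      have hjJ : j0 ∈ J := by
        rw [hJ, Finset.mem_range, Nat.lt_succ_iff]
        have h3 : 2 ^ j0 ≤ X := by
          have h4 : (2 : ℤ) ^ j0 ≤ X := by
            have h5 : (2 : ℤ) ^ j0 ≤ 4 ^ j0 := pow_le_pow_left₀ (by norm_num) (by norm_num) _
            have h6 : (4 : ℤ) ^ j0 ≤ 4 ^ j0 * Nm z := by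
              have h44 : (0 : ℤ) < 4 ^ j0 := by positivity
              nlinarith
            linarith
          exact_mod_cast h4
        exact Nat.le_log_of_pow_le (by norm_num) h3
      have h3 : (P.filter (fun r => r.1 = z)).card = ((P.filter (fun r => r.1 = z)).image Prod.snd).card := by
        rw [Finset.card_image_of_injOn]
        intro r hr r' hr' he
        simp only [Finset.coe_filter, Set.mem_ofPred_eq] at hr hr'
        exact Prod.ext (hr.2.trans hr'.2.symm) he
      have h4 : (((P.filter (fun r => r.1 = z)).image Prod.snd).card : ℤ) ≤ 4 * 2 ^ (j0 + 1) := by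
        apply fiber_card _ z (2 ^ (j0 + 1)) (by positivity)
        intro w hw
        rw [Finset.mem_image] at hw
        obtain ⟨r, hr, rfl⟩ := hw
        rw [Finset.mem_filter] at hr
        obtain ⟨hr1, hr2⟩ := hr
        obtain ⟨h5, h6, h7⟩ := hP r hr1
        rw [hr2] at h5 h6
        have h5' : |dt r.2 z| = 1 := by
          have : dt r.2 z = -dt z r.2 := by unfold dt; ring
          rw [this, abs_neg, h5]
        refine ⟨h5', ?_⟩
        have h8 := dp_sq_add_dt_sq r.2 z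
        have h9 : dt r.2 z ^ 2 = 1 := by rw [← sq_abs, h5']; norm_num
        apply abs_lt_of_sq_lt_sq _ (by positivity)
        have h10 : Nm r.2 * Nm z < (4 ^ (j0 + 1) * Nm z) * Nm z := by
          apply mul_lt_mul_of_pos_right _ hNz
          linarith
        have h11 : ((2 : ℤ) ^ (j0 + 1) * Nm z) ^ 2 = (4 ^ (j0 + 1) * Nm z) * Nm z := by
          rw [mul_pow, ← pow_mul, mul_comm (j0 + 1) 2, pow_mul]
          norm_num
          ring
        rw [h11]
        linarith
      have h5 : ((P.filter (fun r => r.1 = z)).card : ℝ) ≤ 8 * 2 ^ j0 := by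
        rw [h3]
        have h6 : ((((P.filter (fun r => r.1 = z)).image Prod.snd).card : ℤ) : ℝ) ≤ ((4 * 2 ^ (j0 + 1) : ℤ) : ℝ) := by
          exact_mod_cast h4
        push_cast at h6
        rw [pow_succ] at h6
        linarith
      have h6 : (2 : ℝ) ^ j0 * (tv z : ℝ) ^ 2 ≤
          ∑ j ∈ J, (if (4 : ℤ) ^ j * Nm z ≤ X then (2 : ℝ) ^ j * (tv z : ℝ) ^ 2 else 0) := by
        have h7 := Finset.single_le_sum (f := fun j => (if (4 : ℤ) ^ j * Nm z ≤ X then (2 : ℝ) ^ j * (tv z : ℝ) ^ 2 else 0))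
          (fun j _ => by split_ifs <;> positivity) hjJ
        rwa [if_pos hj1] at h7
      calc ((P.filter (fun r => r.1 = z)).card : ℝ) * (tv z : ℝ) ^ 2
          ≤ (8 * 2 ^ j0) * (tv z : ℝ) ^ 2 := mul_le_mul_of_nonneg_right h5 (by positivity)
        _ = 8 * (2 ^ j0 * (tv z : ℝ) ^ 2) := by ring
        _ ≤ _ := mul_le_mul_of_nonneg_left h6 (by norm_num)
    refine (Finset.sum_le_sum h1).trans ?_
    rw [← Finset.mul_sum, Finset.sum_comm]
    have h2 : ∀ j ∈ J, ∑ z ∈ V, (if (4 : ℤ) ^ j * Nm z ≤ X then (2 : ℝ) ^ j * (tv z : ℝ) ^ 2 else 0) ≤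
        (1 / 2) ^ j * Mb X L := by
      intro j hj
      rw [← Finset.sum_filter, ← Finset.mul_sum]
      have h3 : ∑ v ∈ V.filter (fun z => (4 : ℤ) ^ j * Nm z ≤ X), (tv v : ℝ) ^ 2 ≤ Mb (X / 4 ^ j) L := by
        apply moment_vec
        · rw [hL]
          have : Nat.log 2 (X / 4 ^ j) ≤ Nat.log 2 X := Nat.log_mono_right (Nat.div_le_self _ _)
          have : (Nat.log 2 (X / 4 ^ j) : ℝ) ≤ Nat.log 2 X := by exact_mod_cast this
          linarith
        · intro v hv
          rw [Finset.mem_filter] at hv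
          obtain ⟨h4, h5, h6⟩ := hVX v hv.1
          refine ⟨h4, ?_⟩
          have h7 := hv.2
          have h8 : (Nm v).natAbs ≤ X / 4 ^ j := by
            rw [Nat.le_div_iff_mul_le (by positivity)]
            have h9 : (((Nm v).natAbs * 4 ^ j : ℕ) : ℤ) ≤ X := by
              push_cast
              rw [abs_of_pos h5]
              linarith
            exact_mod_cast h9
          omega
      calc (2 : ℝ) ^ j * ∑ v ∈ V.filter (fun z => (4 : ℤ) ^ j * Nm z ≤ X), (tv v : ℝ) ^ 2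
          ≤ 2 ^ j * Mb (X / 4 ^ j) L := mul_le_mul_of_nonneg_left h3 (by positivity)
        _ ≤ 2 ^ j * ((1 / 4 ^ j) * Mb X L) := by
          apply mul_le_mul_of_nonneg_left _ (by positivity)
          unfold Mb
          have h10 : ((X / 4 ^ j : ℕ) : ℝ) ≤ (X : ℝ) / (4 ^ j : ℕ) := Nat.cast_div_le
          push_cast at h10
          have h11 : (0 : ℝ) ≤ (18 * L) ^ 3 := by positivity
          calc 9 * ((X / 4 ^ j : ℕ) : ℝ) * (18 * L) ^ 3 ≤ 9 * ((X : ℝ) / 4 ^ j) * (18 * L) ^ 3 := by gcongr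
            _ = _ := by ring
        _ = (1 / 2) ^ j * Mb X L := by
          have h12 : (4 : ℝ) ^ j = 2 ^ j * 2 ^ j := by
            rw [← mul_pow]
            norm_num
          rw [h12, one_div_pow]
          field_simp
    have h3 := Finset.sum_le_sum h2
    rw [← Finset.sum_mul] at h3
    have h4 : ∑ j ∈ J, ((1 : ℝ) / 2) ^ j ≤ 2 := by
      rw [hJ]
      have := sum_geometric_two_le (Nat.log 2 X + 1)
      exact this
    have hMb : 0 ≤ Mb X L := by unfold Mb; positivity
    calc 8 * ∑ j ∈ J, ∑ z ∈ V, (if (4 : ℤ) ^ j * Nm z ≤ X then (2 : ℝ) ^ j * (tv z : ℝ) ^ 2 else 0)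
        ≤ 8 * ((∑ j ∈ J, ((1 : ℝ) / 2) ^ j) * Mb X L) := mul_le_mul_of_nonneg_left h3 (by norm_num)
      _ ≤ 8 * (2 * Mb X L) := by gcongr
      _ = 16 * Mb X L := by ring
  have h3 : ∑ r ∈ P, (tv r.1 : ℝ) * (tv r.2 : ℝ) ≤
      ∑ r ∈ P, (((tv r.1 : ℝ) ^ 2) * (1 / 2) + ((tv r.2 : ℝ) ^ 2) * (1 / 2)) := by
    apply Finset.sum_le_sum
    intro r _
    nlinarith [sq_nonneg ((tv r.1 : ℝ) - tv r.2)]
  rw [Finset.sum_add_distrib, ← Finset.sum_mul, ← Finset.sum_mul] at h3
  have hMb : Mb X L = 9 * X * (18 * L) ^ 3 := rfl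
  rw [hMb] at part1 part2
  linarith

end Pool.Agent.OddOmega
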