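import Mathlib
import Pool.Agent.Lib_MP_f1a94e_h8.Moment2
import Pool.Agent.Lib_MP_f1a94e_nt.Mult

/-!
Cauchy and Schwarz: the number of adjacent pairs with dot products in a given set.
-/

namespace Pool.Agent.OddOmega

open Pool.Agent.ParityQuad

lemma card_divisors_mul_le (m n : ℕ) :
    (Nat.divisors (m * n)).card ≤ (Nat.divisors m).card * (Nat.divisors n).card := by
  open Pointwise in
  rw [Nat.divisors_mul]
  exact Finset.card_mul_le

/-- pairs with a given absolute value of the dot product -/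
lemma fiber_dot (P : Finset ((ℤ × ℤ) × (ℤ × ℤ))) (n : ℕ)
    (h : ∀ r ∈ P, |dt r.1 r.2| = 1 ∧ (dp r.1 r.2).natAbs = n) :
    P.card ≤ 16 * (Nat.divisors (n ^ 2 + 1)).card := by
  classical
  set A := P.filter (fun r => dt r.1 r.2 = 1) with hA
  set B := P.filter (fun r => ¬ dt r.1 r.2 = 1) with hB
  have h1 : P.card = A.card + B.card := (Finset.card_filter_add_card_filter_not _).symm
  have h2 : A.card ≤ 8 * (Nat.divisors (n ^ 2 + 1)).card := by
    have := opp_card A {n} (Nat.divisors (n ^ 2 + 1)).card (by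
      intro r hr
      rw [hA, Finset.mem_filter] at hr
      exact ⟨hr.2, by rw [(h r hr.1).2]; simp⟩) (by
      intro m hm
      rw [Finset.mem_singleton] at hm
      rw [hm])
    simpa using this
  have h3 : B.card ≤ 8 * (Nat.divisors (n ^ 2 + 1)).card := by
    have h4 : B.card = (B.image (fun r => (r.2, r.1))).card := by
      rw [Finset.card_image_of_injective]
      intro r r' he
      simp only [Prod.mk.injEq] at he
      exact Prod.ext he.2 he.1
    rw [h4]
    have := opp_card (B.image (fun r => (r.2, r.1))) {n} (Nat.divisors (n ^ 2 + 1)).card (by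
      intro r hr
      rw [Finset.mem_image] at hr
      obtain ⟨s, hs, rfl⟩ := hr
      rw [hB, Finset.mem_filter] at hs
      obtain ⟨h5, h6⟩ := h s hs.1
      constructor
      · have h7 : dt s.2 s.1 = -dt s.1 s.2 := by unfold dt; ring
        rcases eq_or_eq_neg_of_abs_eq h5 with h8 | h8
        · exact absurd h8 hs.2
        · rw [h7, h8, neg_neg]
      · have h7 : dp s.2 s.1 = dp s.1 s.2 := by unfold dp; ring
        rw [h7, h6]
        simp) (by
      intro m hm
      rw [Finset.mem_singleton] at hm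
      rw [hm])
    simpa using this
  omega

/-- **Cauchy and Schwarz** -/
theorem opp_card_sq (X : ℕ) (P : Finset ((ℤ × ℤ) × (ℤ × ℤ))) (S : Finset ℕ)
    (hP : ∀ r ∈ P, |dt r.1 r.2| = 1 ∧ Nm r.1 ≤ Nm r.2 ∧ Nm r.2 ≤ X ∧ (dp r.1 r.2).natAbs ∈ S) :
    (P.card : ℝ) ^ 2 ≤ S.card * (1440 * X * (18 * ((Nat.log 2 X : ℝ) + 1)) ^ 3) := by
  classical
  set rr : ℕ → ℕ := fun n => (P.filter (fun r => (dp r.1 r.2).natAbs = n)).card with hrr
  have h1 : P.card = ∑ n ∈ S, rr n :=
    Finset.card_eq_sum_card_fiberwise (fun r hr => (hP r hr).2.2.2)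
  have h2 : (P.card : ℝ) ^ 2 ≤ S.card * ∑ n ∈ S, (rr n : ℝ) ^ 2 := by
    rw [h1]
    push_cast
    exact sq_sum_le_card_mul_sum_sq
  refine h2.trans ?_
  apply mul_le_mul_of_nonneg_left _ (by positivity)
  -- rewrite the second moment
  have h3 : ∑ n ∈ S, (rr n : ℝ) ^ 2 = ∑ r ∈ P, (rr (dp r.1 r.2).natAbs : ℝ) := by
    rw [← Finset.sum_fiberwise_of_maps_to (fun r hr => (hP r hr).2.2.2)
      (fun r => (rr (dp r.1 r.2).natAbs : ℝ))]
    apply Finset.sum_congr rfl
    intro n _
    have h4 : ∑ r ∈ P.filter (fun r => (dp r.1 r.2).natAbs = n), (rr (dp r.1 r.2).natAbs : ℝ) =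
        ∑ r ∈ P.filter (fun r => (dp r.1 r.2).natAbs = n), (rr n : ℝ) := by
      apply Finset.sum_congr rfl
      intro r hr
      rw [(Finset.mem_filter.mp hr).2]
    rw [h4, Finset.sum_const, nsmul_eq_mul, sq]
  rw [h3]
  have h4 : ∀ r ∈ P, (rr (dp r.1 r.2).natAbs : ℝ) ≤ 16 * ((tv r.1 : ℝ) * (tv r.2 : ℝ)) := by
    intro r hr
    obtain ⟨h5, h6, h7, h8⟩ := hP r hr
    set n := (dp r.1 r.2).natAbs with hn
    have h9 : rr n ≤ 16 * (Nat.divisors (n ^ 2 + 1)).card := by
      apply fiber_dot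
      intro s hs
      rw [Finset.mem_filter] at hs
      exact ⟨(hP s hs.1).1, hs.2⟩
    have h10 : n ^ 2 + 1 = (Nm r.1).natAbs * (Nm r.2).natAbs := by
      have h11 := dp_sq_add_dt_sq r.1 r.2
      have h12 : dt r.1 r.2 ^ 2 = 1 := by rw [← sq_abs, h5]; norm_num
      rw [h12] at h11
      rw [← Int.natAbs_mul, ← h11]
      have h13 : ((n ^ 2 + 1 : ℕ) : ℤ) = dp r.1 r.2 ^ 2 + 1 := by
        push_cast
        rw [hn, Int.natCast_natAbs, sq_abs]
      rw [← h13]
      rfl
    have h11 : (Nat.divisors (n ^ 2 + 1)).card ≤ tv r.1 * tv r.2 := by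
      rw [h10]
      exact card_divisors_mul_le _ _
    have h12 : rr n ≤ 16 * (tv r.1 * tv r.2) := h9.trans (Nat.mul_le_mul_left _ h11)
    exact_mod_cast h12
  refine (Finset.sum_le_sum h4).trans ?_
  rw [← Finset.mul_sum]
  have h5 := edge_moment X P (fun r hr => ⟨(hP r hr).1, (hP r hr).2.1, (hP r hr).2.2.1⟩)
  linarith

end Pool.Agent.OddOmega
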