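import Mathlib
import Pool.Agent.Lib_MP_f1a94e_h8.Moment3
import Pool.Agent.Lib_MP_f1a94e_h8.Circle3

/-!
Few bad dot products imply that the weighted series over the bad edges converges.
-/

namespace Pool.Agent.OddOmega.Gen

open Pool.Agent.ParityQuad

/-- the level of a bad edge -/
def lev {F : ℤ → ℤ → ℤ} (e : BE2 F) : ℕ := Nat.log 4 (Nm e.1.2).natAbs

lemma wt2_nonneg {F : ℤ → ℤ → ℤ} {c : ℝ} (hc : 1 < c) (e : BE2 F) : 0 ≤ wt2 F c e := by
  unfold wt2
  rcases le_or_gt 1 ((e.1.2.1 : ℝ) ^ 2 + (e.1.2.2 : ℝ) ^ 2) with h | h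
  · have := kap_pos hc h
    positivity
  · have h1 : (e.1.2.1 : ℝ) ^ 2 + (e.1.2.2 : ℝ) ^ 2 = ((e.1.2.1 ^ 2 + e.1.2.2 ^ 2 : ℤ) : ℝ) := by
      push_cast; ring
    have h2 : (e.1.2.1 ^ 2 + e.1.2.2 ^ 2 : ℤ) < 1 := by
      rw [h1] at h
      exact_mod_cast h
    have h3 : (e.1.2.1 ^ 2 + e.1.2.2 ^ 2 : ℤ) = 0 := by
      have : (0 : ℤ) ≤ e.1.2.1 ^ 2 + e.1.2.2 ^ 2 := by positivity
      omega
    rw [h1, h3]
    simp

theorem summable_of_count {F : ℤ → ℤ → ℤ} {c A CE : ℝ} (hc : 1 < c) (hA : c + (3 - A) / 2 < -1)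
    (hCE : 0 ≤ CE) (B : Set ℕ)
    (hB : ∀ z w : ℤ × ℤ, |dt z w| = 1 → Odd (z.1 + z.2) → Odd (w.1 + w.2) →
      F z.1 z.2 ≠ F w.1 w.2 → (dp z w).natAbs ∈ B)
    (hE : ∀ j : ℕ, ((Set.ncard {n : ℕ | n ∈ B ∧ n ≤ 4 ^ (j + 1)}) : ℝ) ≤
      CE * 4 ^ (j + 1) / ((j : ℝ) + 1) ^ A) : Summable (wt2 F c) := by
  classical
  set K0 : ℝ := Real.sqrt (CE * 1440 * 54 ^ 3) * 4 * (c + 2) ^ c with hK0
  have hK0n : 0 ≤ K0 := by
    have : (0 : ℝ) ≤ (c + 2) ^ c := Real.rpow_nonneg (by linarith) _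
    positivity
  set G : ℕ → ℝ := fun j => K0 * ((j : ℝ) + 1) ^ (c + (3 - A) / 2) with hG
  have hGn : ∀ j, 0 ≤ G j := fun j => by
    rw [hG]
    have : (0 : ℝ) ≤ ((j : ℝ) + 1) ^ (c + (3 - A) / 2) := Real.rpow_nonneg (by positivity) _
    positivity
  have hGs : Summable G := by
    apply Summable.mul_left
    have h1 := (Real.summable_one_div_nat_add_rpow 1 (-(c + (3 - A) / 2))).mpr (by linarith)
    refine h1.congr ?_
    intro j
    rw [abs_of_nonneg (by positivity), one_div, ← Real.rpow_neg (by positivity), neg_neg]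
  -- the bound for one level
  have level : ∀ (U : Finset (BE2 F)) (j : ℕ),
      ∑ e ∈ U.filter (fun e => lev e = j), wt2 F c e ≤ G j := by
    intro U j
    set Uj := U.filter (fun e => lev e = j) with hUj
    set P := Uj.image (fun e => e.1) with hP
    have hcard : P.card = Uj.card := Finset.card_image_of_injective _ Subtype.val_injective
    have hBfin : {n : ℕ | n ∈ B ∧ n ≤ 4 ^ (j + 1)}.Finite :=
      (Set.finite_Iic (4 ^ (j + 1))).subset fun n hn => hn.2
    set S := hBfin.toFinset with hS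
    have hScard : (S.card : ℝ) ≤ CE * 4 ^ (j + 1) / ((j : ℝ) + 1) ^ A := by
      have h1 := hE j
      rwa [Set.ncard_eq_toFinset_card _ hBfin] at h1
    -- facts on the norms
    have hlevel : ∀ e ∈ Uj, (4 : ℤ) ^ j ≤ Nm e.1.2 ∧ Nm e.1.2 < 4 ^ (j + 1) := by
      intro e he
      rw [hUj, Finset.mem_filter] at he
      have hlev : Nat.log 4 (Nm e.1.2).natAbs = j := he.2
      have hadj : |dt e.1.1 e.1.2| = 1 := by
        have h1 := e.2.1
        have h2 : dt e.1.1 e.1.2 = e.1.1.1 * e.1.2.2 - e.1.2.1 * e.1.1.2 := by unfold dt; ring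
        rw [h2]
        exact h1
      have hpos := (Nm_pos' hadj).2
      have h3 : 4 ^ j ≤ (Nm e.1.2).natAbs := by
        rw [← hlev]
        exact Nat.pow_log_le_self 4 (by omega)
      have h4 : (Nm e.1.2).natAbs < 4 ^ (j + 1) := by
        rw [← hlev]
        exact Nat.lt_pow_succ_log_self (by norm_num) _
      constructor
      · have : ((4 ^ j : ℕ) : ℤ) ≤ ((Nm e.1.2).natAbs : ℤ) := by exact_mod_cast h3
        push_cast at this
        rwa [abs_of_pos hpos] at this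
      · have : ((Nm e.1.2).natAbs : ℤ) < ((4 ^ (j + 1) : ℕ) : ℤ) := by exact_mod_cast h4
        push_cast at this
        rwa [abs_of_pos hpos] at this
    have hsq := opp_card_sq (4 ^ (j + 1)) P S (by
      intro r hr
      rw [hP, Finset.mem_image] at hr
      obtain ⟨e, he, rfl⟩ := hr
      obtain ⟨h1, h2⟩ := hlevel e he
      have hadj : |dt e.1.1 e.1.2| = 1 := by
        have h3 := e.2.1
        have h4 : dt e.1.1 e.1.2 = e.1.1.1 * e.1.2.2 - e.1.2.1 * e.1.1.2 := by unfold dt; ring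
        rw [h4]
        exact h3
      have hle : Nm e.1.1 ≤ Nm e.1.2 := e.2.2.2.2.1
      have hpos := Nm_pos' hadj
      refine ⟨hadj, hle, ?_, ?_⟩
      · push_cast
        exact h2.le
      · rw [hS, Set.Finite.mem_toFinset]
        refine ⟨hB _ _ hadj e.2.2.1 e.2.2.2.1 e.2.2.2.2.2, ?_⟩
        have h8 := dp_sq_add_dt_sq e.1.1 e.1.2
        have h9 : dt e.1.1 e.1.2 ^ 2 = 1 := by rw [← sq_abs, hadj]; norm_num
        have h10 : |dp e.1.1 e.1.2| < 4 ^ (j + 1) := by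
          apply abs_lt_of_sq_lt_sq _ (by positivity)
          nlinarith
        have h11 : (((dp e.1.1 e.1.2).natAbs : ℕ) : ℤ) < ((4 ^ (j + 1) : ℕ) : ℤ) := by
          push_cast
          exact h10
        exact (by exact_mod_cast h11.le))
    -- cardinality bound
    have hj1 : (1 : ℝ) ≤ (j : ℝ) + 1 := by
      have : (0 : ℝ) ≤ j := Nat.cast_nonneg j
      linarith
    have hj0 : (0 : ℝ) < (j : ℝ) + 1 := by linarith
    have hlog : Nat.log 2 (4 ^ (j + 1)) = 2 * (j + 1) := by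
      have : (4 : ℕ) ^ (j + 1) = 2 ^ (2 * (j + 1)) := by
        rw [pow_mul]
        norm_num
      rw [this]
      exact Nat.log_pow (by norm_num) _
    have hcardle : (Uj.card : ℝ) ≤ Real.sqrt (CE * 1440 * 54 ^ 3) * 4 ^ (j + 1) *
        ((j : ℝ) + 1) ^ ((3 - A) / 2) := by
      rw [hcard, hlog] at hsq
      push_cast at hsq
      have h1 : (18 * (2 * ((j : ℝ) + 1) + 1)) ^ 3 ≤ 54 ^ 3 * ((j : ℝ) + 1) ^ 3 := by
        rw [← mul_pow]
        apply pow_le_pow_left₀ (by positivity)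
        linarith
      have h2 : (Uj.card : ℝ) ^ 2 ≤ (CE * 4 ^ (j + 1) / ((j : ℝ) + 1) ^ A) *
          (1440 * 4 ^ (j + 1) * (54 ^ 3 * ((j : ℝ) + 1) ^ 3)) := by
        refine hsq.trans ?_
        gcongr
      have h3 : (CE * 4 ^ (j + 1) / ((j : ℝ) + 1) ^ A) *
          (1440 * 4 ^ (j + 1) * (54 ^ 3 * ((j : ℝ) + 1) ^ 3)) =
          (Real.sqrt (CE * 1440 * 54 ^ 3) * 4 ^ (j + 1) * ((j : ℝ) + 1) ^ ((3 - A) / 2)) ^ 2 := by
        rw [mul_pow, mul_pow, Real.sq_sqrt (by positivity)]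
        have h4 : (((j : ℝ) + 1) ^ ((3 - A) / 2)) ^ 2 = ((j : ℝ) + 1) ^ 3 / ((j : ℝ) + 1) ^ A := by
          rw [← Real.rpow_natCast (((j : ℝ) + 1) ^ ((3 - A) / 2)), ← Real.rpow_mul hj0.le,
            ← Real.rpow_natCast ((j : ℝ) + 1) 3, ← Real.rpow_sub hj0]
          congr 1
          push_cast
          ring
        rw [h4]
        ring
      rw [h3] at h2
      have h5 : (0 : ℝ) ≤ Real.sqrt (CE * 1440 * 54 ^ 3) * 4 ^ (j + 1) *
          ((j : ℝ) + 1) ^ ((3 - A) / 2) := by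
        have : (0 : ℝ) ≤ ((j : ℝ) + 1) ^ ((3 - A) / 2) := Real.rpow_nonneg hj0.le _
        positivity
      exact (sq_le_sq₀ (Nat.cast_nonneg _) h5).mp h2
    -- weights
    have hw : ∀ e ∈ Uj, wt2 F c e ≤ (c + 2) ^ c * ((j : ℝ) + 1) ^ c / 4 ^ j := by
      intro e he
      obtain ⟨h1, h2⟩ := hlevel e he
      have hNm : (e.1.2.1 : ℝ) ^ 2 + (e.1.2.2 : ℝ) ^ 2 = ((Nm e.1.2 : ℤ) : ℝ) := by
        unfold Nm
        push_cast
        ring
      unfold wt2
      rw [hNm]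
      have h1R : (4 : ℝ) ^ j ≤ (Nm e.1.2 : ℝ) := by exact_mod_cast h1
      have h2R : (Nm e.1.2 : ℝ) ≤ 4 ^ (j + 1) := by exact_mod_cast h2.le
      have h4j : (1 : ℝ) ≤ 4 ^ j := one_le_pow₀ (by norm_num)
      have h3 : kap c (Nm e.1.2) ≤ (c + 2) ^ c * ((j : ℝ) + 1) ^ c := by
        refine (kap_mono hc (by linarith) h2R).trans ?_
        unfold kap
        rw [← Real.mul_rpow (by linarith) hj0.le, Real.log_pow]
        have hl4 : Real.log 4 < 2 := by
          have : Real.log 4 = 2 * Real.log 2 := by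
            rw [show (4 : ℝ) = 2 ^ 2 by norm_num, Real.log_pow]
            push_cast
            ring
          rw [this]
          have := Real.log_two_lt_d9
          linarith
        have hl4' : 0 ≤ Real.log 4 := Real.log_nonneg (by norm_num)
        apply Real.rpow_le_rpow (by positivity) _ (by linarith)
        push_cast
        nlinarith
      have h5 : 0 < kap c (Nm e.1.2) := kap_pos hc (by linarith)
      gcongr
    calc ∑ e ∈ Uj, wt2 F c e ≤ ∑ _e ∈ Uj, (c + 2) ^ c * ((j : ℝ) + 1) ^ c / 4 ^ j :=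
          Finset.sum_le_sum hw
      _ = Uj.card * ((c + 2) ^ c * ((j : ℝ) + 1) ^ c / 4 ^ j) := by
          rw [Finset.sum_const, nsmul_eq_mul]
      _ ≤ (Real.sqrt (CE * 1440 * 54 ^ 3) * 4 ^ (j + 1) * ((j : ℝ) + 1) ^ ((3 - A) / 2)) *
          ((c + 2) ^ c * ((j : ℝ) + 1) ^ c / 4 ^ j) := by
          apply mul_le_mul_of_nonneg_right hcardle
          have h1 : (0 : ℝ) ≤ (c + 2) ^ c := Real.rpow_nonneg (by linarith) _
          have h2 : (0 : ℝ) ≤ ((j : ℝ) + 1) ^ c := Real.rpow_nonneg hj0.le _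
          positivity
      _ = G j := by
          rw [hG, hK0]
          simp only
          rw [Real.rpow_add hj0]
          have h4 : (4 : ℝ) ^ (j + 1) = 4 ^ j * 4 := pow_succ _ _
          rw [h4]
          field_simp
  -- partial sums
  refine summable_of_sum_le (c := ∑' j, G j) (fun e => wt2_nonneg hc e) ?_
  intro U
  have hmaps : ∀ e ∈ U, lev e ∈ Finset.range (U.sup lev + 1) := by
    intro e he
    rw [Finset.mem_range, Nat.lt_succ_iff]
    exact Finset.le_sup he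
  rw [← Finset.sum_fiberwise_of_maps_to hmaps]
  calc _ ≤ ∑ j ∈ Finset.range (U.sup lev + 1), G j := Finset.sum_le_sum fun j _ => level U j
    _ ≤ ∑' j, G j := hGs.sum_le_tsum _ (fun j _ => hGn j)

end Pool.Agent.OddOmega.Gen
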