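import Mathlib
import Pool.Agent.Lib_MP_f1a94e_h8.Count

/-!
The main theorem: many even `n` with `g (n^2+1) = s` for infinitely many bounds.
-/

namespace Pool.Agent.OddOmega.Gen

open Pool.Agent.ParityQuad Filter

/-- from the divergence of the series to a counting statement -/
theorem core {F : ℤ → ℤ → ℤ} (hF : SF F) {a0 b0 : ℤ} (ha0 : 0 < a0)
    (hab0 : Odd (a0 + b0)) (hflip : F a0 b0 = -1) (B : Set ℕ)
    (hB : ∀ z w : ℤ × ℤ, |dt z w| = 1 → Odd (z.1 + z.2) → Odd (w.1 + w.2) →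
      F z.1 z.2 ≠ F w.1 w.2 → (dp z w).natAbs ∈ B) {A : ℝ} (hA : 7 < A) (N0 : ℕ) :
    ∃ N : ℕ, N0 ≤ N ∧ (N : ℝ) / Real.log N ^ A ≤ Set.ncard {n : ℕ | n ∈ B ∧ n ≤ N} := by
  by_contra hcon
  push Not at hcon
  set c : ℝ := 1 + (A - 7) / 4 with hc
  have hc1 : 1 < c := by rw [hc]; linarith
  have hcA : c + (3 - A) / 2 < -1 := by rw [hc]; linarith
  set N1 : ℕ := max N0 3 with hN1
  have hN1R : (1 : ℝ) ≤ N1 := by
    have : 1 ≤ N1 := le_trans (by norm_num) (le_max_right N0 3)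
    exact_mod_cast this
  refine not_summable_wt2 hF ha0 hab0 hflip hc1 ?_
  refine summable_of_count (A := A) (CE := 1 + 2 * (N1 : ℝ) ^ A) hc1 hcA (by positivity) B hB ?_
  intro j
  have hj0 : (0 : ℝ) < (j : ℝ) + 1 := by positivity
  have hjA : (0 : ℝ) < ((j : ℝ) + 1) ^ A := Real.rpow_pos_of_pos hj0 _
  rcases le_or_gt N1 (4 ^ (j + 1)) with h | h
  · have h1 := hcon (4 ^ (j + 1)) ((le_max_left _ _).trans h)
    push_cast at h1
    refine h1.le.trans ?_
    have hlog : (j : ℝ) + 1 ≤ Real.log ((4 : ℝ) ^ (j + 1)) := by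
      rw [Real.log_pow]
      push_cast
      have h4 : 1 ≤ Real.log 4 := by
        have : Real.log 4 = 2 * Real.log 2 := by
          rw [show (4 : ℝ) = 2 ^ 2 by norm_num, Real.log_pow]
          push_cast
          ring
        rw [this]
        have := Real.log_two_gt_d9
        linarith
      nlinarith
    have h2 : ((j : ℝ) + 1) ^ A ≤ Real.log ((4 : ℝ) ^ (j + 1)) ^ A :=
      Real.rpow_le_rpow hj0.le hlog (by linarith)
    calc (4 : ℝ) ^ (j + 1) / Real.log ((4 : ℝ) ^ (j + 1)) ^ A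
        ≤ 4 ^ (j + 1) / ((j : ℝ) + 1) ^ A := by gcongr
      _ = 1 * 4 ^ (j + 1) / ((j : ℝ) + 1) ^ A := by rw [one_mul]
      _ ≤ (1 + 2 * (N1 : ℝ) ^ A) * 4 ^ (j + 1) / ((j : ℝ) + 1) ^ A := by
        have : (0 : ℝ) ≤ (N1 : ℝ) ^ A := by positivity
        gcongr
        linarith
  · have h1 : Set.ncard {n : ℕ | n ∈ B ∧ n ≤ 4 ^ (j + 1)} ≤ 4 ^ (j + 1) + 1 := by
      have h2 : {n : ℕ | n ∈ B ∧ n ≤ 4 ^ (j + 1)} ⊆ ((Finset.range (4 ^ (j + 1) + 1) : Finset ℕ) : Set ℕ) := by
        intro n hn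
        simp only [Finset.coe_range, Set.mem_Iio]
        have := hn.2
        omega
      have h3 := Set.ncard_le_ncard h2 (Finset.finite_toSet _)
      rwa [Set.ncard_coe_finset, Finset.card_range] at h3
    have h2 : ((Set.ncard {n : ℕ | n ∈ B ∧ n ≤ 4 ^ (j + 1)} : ℕ) : ℝ) ≤ 2 * 4 ^ (j + 1) := by
      have h3 : ((Set.ncard {n : ℕ | n ∈ B ∧ n ≤ 4 ^ (j + 1)} : ℕ) : ℝ) ≤ 4 ^ (j + 1) + 1 := by
        exact_mod_cast h1
      have h4 : (1 : ℝ) ≤ 4 ^ (j + 1) := one_le_pow₀ (by norm_num)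
      linarith
    refine h2.trans ?_
    have h3 : ((j : ℝ) + 1) ^ A ≤ (N1 : ℝ) ^ A := by
      apply Real.rpow_le_rpow hj0.le _ (by linarith)
      have h4 : j + 1 < 4 ^ (j + 1) := Nat.lt_pow_self (by norm_num)
      have h5 : j + 1 ≤ N1 := by omega
      exact_mod_cast h5
    rw [le_div_iff₀ hjA]
    have h5 : (0 : ℝ) ≤ (4 : ℝ) ^ (j + 1) := by positivity
    calc 2 * (4 : ℝ) ^ (j + 1) * ((j : ℝ) + 1) ^ A ≤ 2 * (4 : ℝ) ^ (j + 1) * (N1 : ℝ) ^ A := by gcongr
      _ = (2 * (N1 : ℝ) ^ A) * 4 ^ (j + 1) := by ring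
      _ ≤ (1 + 2 * (N1 : ℝ) ^ A) * 4 ^ (j + 1) := by
        apply mul_le_mul_of_nonneg_right _ h5
        linarith

section gen

variable (g : ℕ → ℤ)

/-- the sign function of `g` -/
def FL (q p : ℤ) : ℤ := if g (q ^ 2 + p ^ 2).natAbs = 1 then 1 else -1

/-- the twisted sign function of `g` -/
def FK (q p : ℤ) : ℤ := FL g q p * (if Odd q then 1 else -1)

variable {g}

lemma natAbs_pos {q p : ℤ} (h : Odd (q + p)) : 0 < (q ^ 2 + p ^ 2).natAbs := by
  apply Int.natAbs_pos.mpr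
  apply sq_ne
  by_contra hc
  push Not at hc
  rw [hc.1, hc.2] at h
  simp at h

lemma FL_eq (hpm : ∀ n, 0 < n → g n = 1 ∨ g n = -1) {q p : ℤ} (h : Odd (q + p)) :
    FL g q p = g (q ^ 2 + p ^ 2).natAbs := by
  unfold FL
  rcases hpm _ (natAbs_pos h) with h1 | h1 <;> rw [h1] <;> norm_num

lemma odd_mul {a b q p : ℤ} (h1 : Odd (a + b)) (h2 : Odd (q + p)) :
    Odd ((a * q - b * p) + (b * q + a * p)) := by
  have e0 : (a * q - b * p) + (b * q + a * p) = (a + b) * (q + p) - 2 * (b * p) := by ring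
  rw [e0]
  exact (h1.mul h2).sub_even (even_two_mul _)

lemma FL_SF (hpm : ∀ n, 0 < n → g n = 1 ∨ g n = -1)
    (hmul : ∀ m n, 0 < m → 0 < n → g (m * n) = g m * g n) : SF (FL g) where
  pm q p := by
    unfold FL
    split_ifs <;> simp
  smul k q p hk h := by
    have hk' : Odd (k * q + k * p) := by
      rw [← mul_add]
      exact hk.mul h
    rw [FL_eq hpm hk', FL_eq hpm h]
    have hk0 : 0 < k.natAbs := by
      apply Int.natAbs_pos.mpr
      rintro rfl
      simp at hk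
    have e1 : ((k * q) ^ 2 + (k * p) ^ 2).natAbs = k.natAbs * (k.natAbs * (q ^ 2 + p ^ 2).natAbs) := by
      rw [← Int.natAbs_mul, ← Int.natAbs_mul]
      congr 1
      ring
    have hp := natAbs_pos h
    rw [e1, hmul _ _ hk0 (by positivity), hmul _ _ hk0 hp, ← mul_assoc]
    rcases hpm _ hk0 with h1 | h1 <;> rw [h1] <;> norm_num
  mul a b q p h1 h2 := by
    rw [FL_eq hpm (odd_mul h1 h2), FL_eq hpm h1, FL_eq hpm h2,
      ← hmul _ _ (natAbs_pos h1) (natAbs_pos h2), ← Int.natAbs_mul]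
    congr 2
    ring

lemma odd_iff_even {q p : ℤ} (h : Odd (q + p)) : Odd q ↔ Even p := by
  constructor
  · intro h1
    have := h.sub_odd h1
    simpa using this
  · intro h1
    have := h.sub_even h1
    simpa using this

lemma FK_SF (hpm : ∀ n, 0 < n → g n = 1 ∨ g n = -1)
    (hmul : ∀ m n, 0 < m → 0 < n → g (m * n) = g m * g n) : SF (FK g) where
  pm q p := by
    unfold FK
    rcases (FL_SF hpm hmul).pm q p with h | h <;> rw [h] <;> split_ifs <;> norm_num
  smul k q p hk h := by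
    unfold FK
    rw [(FL_SF hpm hmul).smul k q p hk h]
    have : Odd (k * q) ↔ Odd q := by
      rw [Int.odd_mul]
      exact ⟨fun h => h.2, fun h => ⟨hk, h⟩⟩
    simp only [this]
  mul a b q p h1 h2 := by
    unfold FK
    rw [(FL_SF hpm hmul).mul a b q p h1 h2]
    have e1 : (if Odd (a * q - b * p) then (1 : ℤ) else -1) =
        (if Odd a then (1 : ℤ) else -1) * (if Odd q then (1 : ℤ) else -1) := by
      have i1 := odd_iff_even h1
      have i2 := odd_iff_even h2
      by_cases ha : Odd a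
      · have hb : Even b := i1.mp ha
        by_cases hq : Odd q
        · rw [if_pos ha, if_pos hq, if_pos ((ha.mul hq).sub_even (hb.mul_right _))]
          norm_num
        · have hq' : Even q := Int.not_odd_iff_even.mp hq
          have : ¬ Odd (a * q - b * p) := by
            rw [Int.not_odd_iff_even]
            exact (hq'.mul_left _).sub (hb.mul_right _)
          rw [if_pos ha, if_neg hq, if_neg this]
          norm_num
      · have ha' : Even a := Int.not_odd_iff_even.mp ha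
        have hb : ¬ Even b := fun h => ha (i1.mpr h)
        by_cases hq : Odd q
        · have hp : Even p := i2.mp hq
          have : ¬ Odd (a * q - b * p) := by
            rw [Int.not_odd_iff_even]
            exact (ha'.mul_right _).sub (hp.mul_left _)
          rw [if_neg ha, if_pos hq, if_neg this]
          norm_num
        · have hp : ¬ Even p := fun h => hq (i2.mpr h)
          have : Odd (a * q - b * p) :=
            (ha'.mul_right _).sub_odd ((Int.not_even_iff_odd.mp hb).mul (Int.not_even_iff_odd.mp hp))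
          rw [if_neg ha, if_neg hq, if_pos this]
          norm_num
    rw [e1]
    ring

/-- adjacent vectors of odd norm: the product of the signs, and the parities -/
lemma edge_facts (hpm : ∀ n, 0 < n → g n = 1 ∨ g n = -1)
    (hmul : ∀ m n, 0 < m → 0 < n → g (m * n) = g m * g n) {z w : ℤ × ℤ} (h : |dt z w| = 1)
    (h1 : Odd (z.1 + z.2)) (h2 : Odd (w.1 + w.2)) :
    FL g z.1 z.2 * FL g w.1 w.2 = g ((dp z w).natAbs ^ 2 + 1) ∧ Even (dp z w).natAbs ∧
      ¬ (Odd z.1 ↔ Odd w.1) := by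
  refine ⟨?_, ?_, ?_⟩
  · rw [FL_eq hpm h1, FL_eq hpm h2, ← hmul _ _ (natAbs_pos h1) (natAbs_pos h2), ← Int.natAbs_mul]
    congr 1
    have h3 := dp_sq_add_dt_sq z w
    have h4 : dt z w ^ 2 = 1 := by rw [← sq_abs, h]; norm_num
    have h5 : (z.1 ^ 2 + z.2 ^ 2) * (w.1 ^ 2 + w.2 ^ 2) = dp z w ^ 2 + 1 := by
      rw [h4] at h3
      exact h3.symm
    rw [h5]
    have h6 : (((dp z w).natAbs ^ 2 + 1 : ℕ) : ℤ) = dp z w ^ 2 + 1 := by
      push_cast
      rw [sq_abs]
    rw [← h6]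
    rfl
  · rw [Int.natAbs_even]
    have hdt : Odd (dt z w) := by
      rcases eq_or_eq_neg_of_abs_eq h with h3 | h3 <;> rw [h3] <;> decide
    have e1 : dp z w = (z.1 + z.2) * (w.1 + w.2) - dt z w - 2 * (z.2 * w.1) := by
      unfold dp dt
      ring
    rw [e1]
    exact ((h1.mul h2).sub_odd hdt).sub (even_two_mul _)
  · intro hiff
    have i1 := odd_iff_even h1
    have i2 := odd_iff_even h2
    have hdt : Odd (dt z w) := by
      rcases eq_or_eq_neg_of_abs_eq h with h3 | h3 <;> rw [h3] <;> decide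
    by_cases hz : Odd z.1
    · have hw : Odd w.1 := hiff.mp hz
      have : Even (dt z w) := by
        unfold dt
        exact ((i2.mp hw).mul_left _).sub ((i1.mp hz).mul_right _)
      exact (Int.not_odd_iff_even.mpr this) hdt
    · have hw : ¬ Odd w.1 := fun h => hz (hiff.mpr h)
      have : Even (dt z w) := by
        unfold dt
        exact ((Int.not_odd_iff_even.mp hz).mul_right _).sub ((Int.not_odd_iff_even.mp hw).mul_left _)
      exact (Int.not_odd_iff_even.mpr this) hdt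

/-- the minus sign -/
theorem main_neg (hpm : ∀ n, 0 < n → g n = 1 ∨ g n = -1)
    (hmul : ∀ m n, 0 < m → 0 < n → g (m * n) = g m * g n)
    (hex : ∃ m : ℕ, Even m ∧ g (m ^ 2 + 1) = -1) {A : ℝ} (hA : 7 < A) (N0 : ℕ) :
    ∃ N : ℕ, N0 ≤ N ∧ (N : ℝ) / Real.log N ^ A ≤
      Set.ncard {m : ℕ | m ≤ N ∧ Even m ∧ g (m ^ 2 + 1) = -1} := by
  obtain ⟨m, hm, hgm⟩ := hex
  have hg1 : g 1 = 1 := by
    have h1 := hmul 1 1 one_pos one_pos
    rw [mul_one] at h1
    rcases hpm 1 one_pos with h2 | h2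
    · exact h2
    · rw [h2] at h1
      norm_num at h1
  have hm0 : 0 < m := by
    rcases Nat.eq_zero_or_pos m with h | h
    · rw [h] at hgm
      norm_num at hgm
      rw [hg1] at hgm
      norm_num at hgm
    · exact h
  have hodd : Odd ((m : ℤ) + 1) := by
    have : Even (m : ℤ) := by exact_mod_cast hm
    exact this.add_one
  have hflip : FL g (m : ℤ) 1 = -1 := by
    rw [FL_eq hpm hodd, ← hgm]
    congr 1
  have hcore := core (FL_SF hpm hmul) (a0 := (m : ℤ)) (b0 := 1) (by exact_mod_cast hm0) hodd hflip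
    {n : ℕ | Even n ∧ g (n ^ 2 + 1) = -1} (by
      intro z w h h1 h2 hne
      obtain ⟨h3, h4, -⟩ := edge_facts hpm hmul h h1 h2
      refine ⟨h4, ?_⟩
      rw [← h3]
      rcases (FL_SF hpm hmul).pm z.1 z.2 with h5 | h5 <;>
      rcases (FL_SF hpm hmul).pm w.1 w.2 with h6 | h6 <;> (rw [h5, h6] at hne ⊢; first | (exfalso; exact hne rfl) | (exfalso; apply hne; norm_num; done) | (norm_num; done))) hA N0
  obtain ⟨N, hN, hle⟩ := hcore
  refine ⟨N, hN, hle.trans (le_of_eq ?_)⟩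
  congr 2
  ext n
  simp only [Set.mem_ofPred_eq]
  tauto

/-- the plus sign -/
theorem main_pos (hpm : ∀ n, 0 < n → g n = 1 ∨ g n = -1)
    (hmul : ∀ m n, 0 < m → 0 < n → g (m * n) = g m * g n) {A : ℝ} (hA : 7 < A) (N0 : ℕ) :
    ∃ N : ℕ, N0 ≤ N ∧ (N : ℝ) / Real.log N ^ A ≤
      Set.ncard {m : ℕ | m ≤ N ∧ Even m ∧ g (m ^ 2 + 1) = 1} := by
  have hFL : FL g 1 (-2) = FL g 2 1 := by
    unfold FL
    norm_num
  have hflip : ∃ a b : ℤ, 0 < a ∧ Odd (a + b) ∧ FK g a b = -1 := by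
    rcases (FL_SF hpm hmul).pm 2 1 with h | h
    · refine ⟨2, 1, by norm_num, by decide, ?_⟩
      unfold FK
      rw [h, if_neg (by decide)]
      norm_num
    · refine ⟨1, -2, by norm_num, by decide, ?_⟩
      unfold FK
      rw [hFL, h, if_pos (by decide)]
      norm_num
  obtain ⟨a, b, ha, hab, hf⟩ := hflip
  have hcore := core (FK_SF hpm hmul) ha hab hf
    {n : ℕ | Even n ∧ g (n ^ 2 + 1) = 1} (by
      intro z w h h1 h2 hne
      obtain ⟨h3, h4, h5⟩ := edge_facts hpm hmul h h1 h2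
      refine ⟨h4, ?_⟩
      rw [← h3]
      unfold FK at hne
      by_cases hz : Odd z.1
      · have hw : ¬ Odd w.1 := fun h => h5 ⟨fun _ => h, fun _ => hz⟩
        rw [if_pos hz, if_neg hw] at hne
        rcases (FL_SF hpm hmul).pm z.1 z.2 with h5 | h5 <;>
        rcases (FL_SF hpm hmul).pm w.1 w.2 with h6 | h6 <;> (rw [h5, h6] at hne ⊢; first | (exfalso; exact hne rfl) | (exfalso; apply hne; norm_num; done) | (norm_num; done))
      · have hw : Odd w.1 := by
          by_contra hw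
          exact h5 ⟨fun h => absurd h hz, fun h => absurd h hw⟩
        rw [if_neg hz, if_pos hw] at hne
        rcases (FL_SF hpm hmul).pm z.1 z.2 with h5 | h5 <;>
        rcases (FL_SF hpm hmul).pm w.1 w.2 with h6 | h6 <;> (rw [h5, h6] at hne ⊢; first | (exfalso; exact hne rfl) | (exfalso; apply hne; norm_num; done) | (norm_num; done))) hA N0
  obtain ⟨N, hN, hle⟩ := hcore
  refine ⟨N, hN, hle.trans (le_of_eq ?_)⟩
  congr 2
  ext n
  simp only [Set.mem_ofPred_eq]
  tauto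

end gen

end Pool.Agent.OddOmega.Gen
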